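import Pool.Agent.Nrd.Defs

/-! ## Elementary facts on `H²` -/

set_option autoImplicit false

namespace Nrd

open MeasureTheory Filter Topology
open scoped ComplexConjugate InnerProductSpace

-- BEGIN ker_mem
/-- geometric sequences are in `ℓ²` -/
theorem ker_mem {z : ℂ} (hz : z ∈ D) : Memℓp (fun n : ℕ => (conj z) ^ n) 2 := by
  rw [memℓp_gen_iff (by norm_num)]
  have h : Summable fun n : ℕ => (‖z‖ ^ 2) ^ n :=
    summable_geometric_of_lt_one (by positivity) (by rw [mem_D] at hz; nlinarith [norm_nonneg z])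
  refine h.congr fun n => ?_
  rw [norm_pow, Complex.norm_conj, ENNReal.toReal_ofNat, Real.rpow_ofNat, ← pow_mul, ← pow_mul, mul_comm]
-- END ker_mem

open Classical in
/-- the reproducing kernel -/
noncomputable def ker (z : ℂ) : H := if h : z ∈ D then ⟨fun n : ℕ => (conj z) ^ n, ker_mem h⟩ else 0

-- BEGIN ker_apply
theorem ker_apply {z : ℂ} (hz : z ∈ D) (n : ℕ) : ker z n = (conj z) ^ n := by
  unfold ker
  rw [dif_pos hz]
-- END ker_apply

-- BEGIN summ
/-- the series converges in `D` (Cauchy-Schwarz with the geometric series) -/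
theorem summ (a : H) {z : ℂ} (hz : z ∈ D) : Summable fun n : ℕ => a n * z ^ n := by
  have h := lp.summable_inner (𝕜 := ℂ) (ker z) a
  refine h.congr fun n => ?_
  rw [ker_apply hz]
  simp [mul_comm]
-- END summ

-- BEGIN inner_ker
/-- reproducing property (`lp.inner_eq_tsum`) -/
theorem inner_ker {z : ℂ} (hz : z ∈ D) (a : H) : ⟪ker z, a⟫_ℂ = ev a z := by
  rw [lp.inner_eq_tsum]
  unfold ev
  refine tsum_congr fun n => ?_
  rw [ker_apply hz]
  simp [mul_comm]
-- END inner_ker

-- BEGIN ev_lin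
theorem ev_lin {z : ℂ} (hz : z ∈ D) (c d : ℂ) (a b : H) : ev (c • a + d • b) z = c * ev a z + d * ev b z := by
  rw [← inner_ker hz, ← inner_ker hz, ← inner_ker hz, inner_add_right, inner_smul_right, inner_smul_right]
-- END ev_lin

-- BEGIN ev_diff
/-- analytic in `D` -/
theorem ev_diff (a : H) : DifferentiableOn ℂ (ev a) D := by
  have hp : ∀ z ∈ D, DifferentiableAt ℂ (ev a) z := by
    intro z hz
    obtain ⟨r, hr1, hr2⟩ := exists_between (mem_D.1 hz)
    have hr0 : 0 ≤ r := (norm_nonneg z).trans hr1.le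
    have hrD : (r : ℂ) ∈ D := by rw [mem_D, Complex.norm_real, Real.norm_of_nonneg hr0]; exact hr2
    have hd : DifferentiableOn ℂ (ev a) (Metric.ball (0 : ℂ) r) := by
      unfold ev
      refine Complex.differentiableOn_tsum_of_summable_norm (summ a hrD).norm (fun n => by fun_prop) Metric.isOpen_ball ?_
      intro n w hw
      rw [norm_mul, norm_mul, norm_pow, norm_pow, Complex.norm_real, Real.norm_of_nonneg hr0]
      have hw' : ‖w‖ ≤ r := by
        have := Metric.mem_ball.1 hw
        rw [dist_zero_right] at this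
        exact this.le
      gcongr
    exact hd.differentiableAt (Metric.isOpen_ball.mem_nhds (by rw [Metric.mem_ball, dist_zero_right]; exact hr1))
  exact fun z hz => (hp z hz).differentiableWithinAt
-- END ev_diff

-- BEGIN ev_inj
private theorem ev_inj_ps (a : H) :
    HasFPowerSeriesAt (ev a) (FormalMultilinearSeries.ofScalars ℂ (fun n => a n)) 0 := by
  rw [hasFPowerSeriesAt_iff]
  have h0 : ∀ᶠ z in 𝓝 (0 : ℂ), z ∈ D := Metric.isOpen_ball.mem_nhds (by simp [D])
  filter_upwards [h0] with z hz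
  have h1 := (summ a hz).hasSum
  rw [zero_add]
  refine h1.congr_fun ?_
  intro n
  rw [FormalMultilinearSeries.coeff_ofScalars, smul_eq_mul, mul_comm]

/-- uniqueness of the coefficients (identity theorem for power series; real `z` near `0` would be enough) -/
theorem ev_inj {a b : H} (h : ∀ z ∈ D, ev a z = ev b z) : a = b := by
  have h0 : ∀ᶠ z in 𝓝 (0 : ℂ), z ∈ D := Metric.isOpen_ball.mem_nhds (by simp [D])
  have h1 : HasFPowerSeriesAt (ev a) (FormalMultilinearSeries.ofScalars ℂ (fun n => b n)) 0 :=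
    (ev_inj_ps b).congr (h0.mono fun z hz => (h z hz).symm)
  have h2 := (ev_inj_ps a).eq_formalMultilinearSeries h1
  ext n
  have h3 := congrArg (fun p => FormalMultilinearSeries.coeff p n) h2
  simpa only [FormalMultilinearSeries.coeff_ofScalars] using h3
-- END ev_inj
-- BEGIN inner_e
theorem inner_e (n : ℕ) (a : H) : ⟪e n, a⟫_ℂ = a n := by
  unfold e
  rw [lp.inner_single_left]
  simp
-- END inner_e

-- BEGIN ev_e
theorem ev_e (n : ℕ) (z : ℂ) : ev (e n) z = z ^ n := by
  unfold ev e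
  rw [tsum_eq_single n]
  · rw [lp.single_apply_self, one_mul]
  · intro m hm
    rw [lp.single_apply_ne _ _ _ hm, zero_mul]
-- END ev_e

-- BEGIN exists_S
/-- the forward shift, `(a_0, a_1, ...) ↦ (0, a_0, a_1, ...)` -/
theorem exists_S : ∃ S : H →L[ℂ] H, ∀ a : H, S a 0 = 0 ∧ ∀ n : ℕ, S a (n + 1) = a n := by
  have hmem : ∀ a : H, Memℓp (fun n : ℕ => (match n with | 0 => 0 | m + 1 => a m : ℂ)) 2 := by
    intro a
    rw [memℓp_gen_iff (by norm_num)]
    rw [← summable_nat_add_iff 1]
    exact (memℓp_gen_iff (by norm_num)).1 (lp.memℓp a)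
  have hnorm : ∀ a : H, ‖(⟨_, hmem a⟩ : H)‖ = ‖a‖ := by
    intro a
    rw [lp.norm_eq_tsum_rpow (by norm_num), lp.norm_eq_tsum_rpow (by norm_num)]
    congr 1
    have hs : Summable fun n : ℕ => ‖(⟨_, hmem a⟩ : H) n‖ ^ (2 : ENNReal).toReal :=
      (memℓp_gen_iff (by norm_num)).1 (hmem a)
    rw [hs.tsum_eq_zero_add]
    have h0 : ‖(⟨_, hmem a⟩ : H) 0‖ ^ (2 : ENNReal).toReal = 0 := by
      change ‖(0 : ℂ)‖ ^ (2 : ENNReal).toReal = 0
      simp
    rw [h0, zero_add]
  let f : H →ₗ[ℂ] H :=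
    { toFun := fun a => ⟨_, hmem a⟩
      map_add' := by
        intro a b
        ext n
        cases n with
        | zero => change (0 : ℂ) = 0 + 0; simp
        | succ n => rfl
      map_smul' := by
        intro c a
        ext n
        cases n with
        | zero => change (0 : ℂ) = c * 0; simp
        | succ n => rfl }
  refine ⟨f.mkContinuous 1 fun a => by rw [one_mul]; exact (hnorm a).le, fun a => ⟨rfl, fun n => rfl⟩⟩
-- END exists_S

/-- the shift: multiplication by `z` -/
noncomputable def S : H →L[ℂ] H := Classical.choose exists_S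

theorem S_zero (a : H) : S a 0 = 0 := (Classical.choose_spec exists_S a).1

theorem S_succ (a : H) (n : ℕ) : S a (n + 1) = a n := (Classical.choose_spec exists_S a).2 n

/-- the backward shift -/
noncomputable def Sd : H →L[ℂ] H := ContinuousLinearMap.adjoint S

theorem Sd_inner (a b : H) : ⟪Sd a, b⟫_ℂ = ⟪a, S b⟫_ℂ := ContinuousLinearMap.adjoint_inner_left S b a

-- BEGIN ev_S
theorem ev_S {z : ℂ} (hz : z ∈ D) (a : H) : ev (S a) z = z * ev a z := by
  unfold ev
  rw [(summ (S a) hz).tsum_eq_zero_add, S_zero, zero_mul, zero_add, ← tsum_mul_left]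
  refine tsum_congr fun n => ?_
  rw [S_succ, pow_succ]; ring
-- END ev_S

-- BEGIN S_e
theorem S_e (n : ℕ) : S (e n) = e (n + 1) := by
  ext m
  cases m with
  | zero => rw [S_zero]; unfold e; rw [lp.single_apply_ne _ _ _ (by omega)]
  | succ m =>
    rw [S_succ]
    unfold e
    by_cases h : m = n
    · subst h; rw [lp.single_apply_self, lp.single_apply_self]
    · rw [lp.single_apply_ne _ _ _ h, lp.single_apply_ne _ _ _ (by omega)]
-- END S_e

-- BEGIN Sd_apply
theorem Sd_apply (a : H) (n : ℕ) : Sd a n = a (n + 1) := by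
  rw [← inner_e, ← inner_conj_symm, Sd_inner, inner_conj_symm, S_e, inner_e]
-- END Sd_apply

-- BEGIN Sd_ker
theorem Sd_ker {z : ℂ} (hz : z ∈ D) : Sd (ker z) = conj z • ker z := by
  ext m
  rw [Sd_apply, ker_apply hz, lp.coeFn_smul, Pi.smul_apply, ker_apply hz, smul_eq_mul, pow_succ]; ring
-- END Sd_ker

-- BEGIN ker_li
/-- distinct kernels are linearly independent (Vandermonde: coefficients `0, ..., N-1`; or: eigenvectors of `Sd` for
distinct eigenvalues, `Module.End.eigenvectors_linearIndependent`) -/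
theorem ker_li (R : Finset ℂ) (hR : (R : Set ℂ) ⊆ D) (c : ℂ → ℂ) (h : ∑ t ∈ R, c t • ker t = 0) : ∀ t ∈ R, c t = 0 := by
  classical
  have h1 : ∀ n : ℕ, ∑ t ∈ R, c t * (conj t) ^ n = 0 := by
    intro n
    have h2 : ⟪e n, ∑ t ∈ R, c t • ker t⟫_ℂ = 0 := by rw [h, inner_zero_right]
    rw [inner_sum] at h2
    rw [← h2]
    refine Finset.sum_congr rfl fun t ht => ?_
    rw [inner_smul_right, inner_e, ker_apply (hR ht)]
  have h3 : ∀ p : Polynomial ℂ, ∑ t ∈ R, c t * p.eval (conj t) = 0 := by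
    intro p
    calc ∑ t ∈ R, c t * p.eval (conj t)
        = ∑ t ∈ R, ∑ i ∈ Finset.range (p.natDegree + 1), p.coeff i * (c t * (conj t) ^ i) := by
          refine Finset.sum_congr rfl fun t _ => ?_
          rw [Polynomial.eval_eq_sum_range, Finset.mul_sum]
          exact Finset.sum_congr rfl fun i _ => by ring
      _ = 0 := by
          rw [Finset.sum_comm]
          refine Finset.sum_eq_zero fun i _ => ?_
          rw [← Finset.mul_sum, h1, mul_zero]
  intro t ht
  have h4 := h3 (∏ s ∈ R.erase t, (Polynomial.X - Polynomial.C (conj s)))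
  rw [Finset.sum_eq_single_of_mem t ht] at h4
  · rw [Polynomial.eval_prod] at h4
    refine (mul_eq_zero.1 h4).resolve_right ?_
    refine Finset.prod_ne_zero_iff.2 ?_
    intro s hs
    rw [Polynomial.eval_sub, Polynomial.eval_X, Polynomial.eval_C, sub_ne_zero]
    intro hst
    exact (Finset.mem_erase.1 hs).1 ((starRingEnd ℂ).injective hst).symm
  · intro s hs hst
    rw [Polynomial.eval_prod, Finset.prod_eq_zero (Finset.mem_erase.2 ⟨hst, hs⟩), mul_zero]
    rw [Polynomial.eval_sub, Polynomial.eval_X, Polynomial.eval_C, sub_self]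
-- END ker_li
-- BEGIN eig
/-- eigenvectors of the backward shift are multiples of kernels (`v_{n+1} = c v_n`, `v ∈ ℓ²`) -/
theorem eig (v : H) (c : ℂ) (hv : v ≠ 0) (h : Sd v = c • v) : conj c ∈ D ∧ v = v 0 • ker (conj c) := by
  have h1 : ∀ n : ℕ, v (n + 1) = c * v n := by
    intro n
    rw [← Sd_apply, h, lp.coeFn_smul, Pi.smul_apply, smul_eq_mul]
  have h2 : ∀ n : ℕ, v n = v 0 * c ^ n := by
    intro n
    induction n with
    | zero => rw [pow_zero, mul_one]
    | succ n ih => rw [h1, ih, pow_succ]; ring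
  have h0 : v 0 ≠ 0 := by
    intro h0
    apply hv
    ext n
    rw [h2, h0, zero_mul]
    rfl
  have h3 : Summable fun n : ℕ => ‖v n‖ ^ (2 : ENNReal).toReal :=
    (memℓp_gen_iff (by norm_num)).1 (lp.memℓp v)
  have h4 : Summable fun n : ℕ => (‖c‖ ^ 2) ^ n := by
    have h5 := h3.mul_left ((‖v 0‖ ^ 2)⁻¹)
    refine h5.congr fun n => ?_
    have h6 : ‖v 0‖ ≠ 0 := norm_ne_zero_iff.2 h0
    rw [h2 n, norm_mul, norm_pow, ENNReal.toReal_ofNat, Real.rpow_ofNat, mul_pow]
    field_simp
    rw [← pow_mul, ← pow_mul, mul_comm]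
  have h5 : ‖c‖ < 1 := by
    rw [summable_geometric_iff_norm_lt_one] at h4
    rw [norm_pow, norm_norm] at h4
    by_contra h6
    push Not at h6
    nlinarith
  have hD : conj c ∈ D := by rw [mem_D, Complex.norm_conj]; exact h5
  refine ⟨hD, ?_⟩
  ext n
  rw [lp.coeFn_smul, Pi.smul_apply, ker_apply hD, smul_eq_mul, Complex.conj_conj]
  exact h2 n
-- END eig
-- BEGIN jord
/-- `v_{n+1} = conj t v_n + c (conj t)^n`, so `⟪v, a⟫ = conj (v_0) a(t) + conj c a'(t)`; if `⟪v, b⟫ = φ(t) ⟪v, e_0⟫` for the `b`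
with `ev b = φ` on `D`, then `conj c φ'(t) = 0` -/
theorem jord (φ : ℂ → ℂ) (b : H) (hb : ∀ z ∈ D, ev b z = φ z) {t : ℂ} (ht : t ∈ D) (v : H) (c : ℂ)
    (hS : Sd v = conj t • v + c • ker t) (hv : ⟪v, b⟫_ℂ = φ t * ⟪v, e 0⟫_ℂ) (hd : deriv φ t ≠ 0) : c = 0 := by
  have hstep : ∀ n : ℕ, v (n + 1) = conj t * v n + c * (conj t) ^ n := by
    intro n
    rw [← Sd_apply, hS, lp.coeFn_add, lp.coeFn_smul, lp.coeFn_smul]
    simp only [Pi.add_apply, Pi.smul_apply, smul_eq_mul]
    rw [ker_apply ht]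
  have hform : ∀ n : ℕ, v n = (conj t) ^ n * v 0 + c * (n * (conj t) ^ (n - 1)) := by
    intro n
    induction n with
    | zero => simp
    | succ n ih =>
      rw [hstep n, ih]
      rcases Nat.eq_zero_or_pos n with h0 | h0
      · subst h0; simp
      · obtain ⟨k, rfl⟩ : ∃ k, n = k + 1 := ⟨n - 1, by omega⟩
        simp only [Nat.add_sub_cancel]
        push_cast
        ring
  have htn : ‖t‖ < 1 := mem_D.mp ht
  obtain ⟨r, hr1, hr2⟩ := exists_between htn
  have hr0 : 0 < r := lt_of_le_of_lt (norm_nonneg t) hr1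
  have hrD : (r : ℂ) ∈ D := by
    rw [mem_D, Complex.norm_real, Real.norm_of_nonneg hr0.le]; exact hr2
  have hu : Summable fun n : ℕ => ‖b n * (r : ℂ) ^ n‖ := (summ b hrD).norm
  have hder := Complex.hasSum_deriv_of_summable_norm (F := fun (n : ℕ) (w : ℂ) => b n * w ^ n) (U := Metric.ball (0 : ℂ) r)
    (z := t) hu (fun n => by fun_prop) Metric.isOpen_ball
    (fun n w hw => by
      have hw' : ‖w‖ < r := by simpa using hw
      rw [norm_mul, norm_mul, norm_pow, norm_pow, Complex.norm_real, Real.norm_of_nonneg hr0.le]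
      exact mul_le_mul_of_nonneg_left (pow_le_pow_left₀ (norm_nonneg _) hw'.le n) (norm_nonneg _))
    (by simpa using hr1)
  have hdF : ∀ n : ℕ, deriv (fun w : ℂ => b n * w ^ n) t = b n * (n * t ^ (n - 1)) := by
    intro n
    rw [deriv_const_mul _ (differentiableAt_pow n)]
    rw [deriv_pow_field]
  have hdφ : deriv φ t = deriv (fun w : ℂ => ∑' n : ℕ, b n * w ^ n) t := by
    refine Filter.EventuallyEq.deriv_eq ?_
    filter_upwards [Metric.isOpen_ball.mem_nhds ht] with z hz
    rw [← hb z hz]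
    rfl
  simp only [hdF] at hder
  rw [← hdφ] at hder
  have hev : HasSum (fun n : ℕ => b n * t ^ n) (φ t) := by
    rw [← hb t ht]
    exact (summ b ht).hasSum
  have hin : HasSum (fun n : ℕ => ⟪v n, b n⟫_ℂ) (conj (v 0) * φ t + conj c * deriv φ t) := by
    have h1 := (hev.mul_left (conj (v 0))).add (hder.mul_left (conj c))
    have h2 : (fun n : ℕ => ⟪v n, b n⟫_ℂ) =
        fun n : ℕ => conj (v 0) * (b n * t ^ n) + conj c * (b n * (n * t ^ (n - 1))) := by
      funext n
      rw [RCLike.inner_apply, hform n]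
      simp only [map_add, map_mul, map_pow, Complex.conj_conj, Complex.conj_natCast]
      ring
    rw [h2]
    exact h1
  have h3 : ⟪v, b⟫_ℂ = conj (v 0) * φ t + conj c * deriv φ t := by
    rw [lp.inner_eq_tsum]
    exact hin.tsum_eq
  have h4 : ⟪v, e 0⟫_ℂ = conj (v 0) := by
    rw [← inner_e 0 v, inner_conj_symm]
  rw [h3, h4] at hv
  have h5 : conj c * deriv φ t = 0 := by linear_combination hv
  rcases mul_eq_zero.mp h5 with h6 | h6
  · simpa using h6
  · exact absurd h6 hd
-- END jord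
end Nrd
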