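import Pool.Agent.Nrd.Bas

/-! ## Boundary functions: `L²` limits, Parseval, common sequences -/

set_option autoImplicit false

namespace Nrd

open MeasureTheory Filter Topology
open scoped ComplexConjugate InnerProductSpace

-- BEGIN int_ex
private theorem int_ex_mu (f : ℝ → ℂ) : ∫ θ, f θ ∂mu = ∫ θ in (0 : ℝ)..(2 * Real.pi), f θ := by
  unfold mu
  rw [intervalIntegral.integral_of_le (by positivity), MeasureTheory.integral_Ico_eq_integral_Ioc]

private theorem int_ex_fun (n m : ℕ) (θ : ℝ) :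
    ex θ ^ n * conj (ex θ ^ m) = Complex.exp (((n : ℂ) - m) * Complex.I * θ) := by
  unfold ex
  rw [map_pow, ← Complex.exp_conj, ← Complex.exp_nat_mul, ← Complex.exp_nat_mul, ← Complex.exp_add]
  congr 1
  rw [map_mul, Complex.conj_ofReal, Complex.conj_I]
  ring

/-- orthogonality of the exponentials (`integral_exp_mul_complex`) -/
theorem int_ex (n m : ℕ) : ∫ θ, ex θ ^ n * conj (ex θ ^ m) ∂mu = if n = m then (2 * Real.pi : ℂ) else 0 := by
  rw [int_ex_mu]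
  simp only [int_ex_fun]
  by_cases h : n = m
  · rw [if_pos h, h]
    simp
  · rw [if_neg h]
    have hc : ((n : ℂ) - m) * Complex.I ≠ 0 := by
      refine mul_ne_zero (sub_ne_zero.2 ?_) Complex.I_ne_zero
      exact_mod_cast h
    rw [integral_exp_mul_complex hc]
    have h1 : Complex.exp (((n : ℂ) - m) * Complex.I * ((2 * Real.pi : ℝ) : ℂ)) = 1 := by
      rw [Complex.exp_eq_one_iff]
      refine ⟨(n : ℤ) - m, ?_⟩
      push_cast
      ring
    rw [h1]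
    simp
-- END int_ex
-- BEGIN ev_r_cont
/-- continuity in `θ` -/
theorem ev_r_cont (a : H) {r : ℝ} (h0 : 0 ≤ r) (h1 : r < 1) : Continuous fun θ : ℝ => ev a (r * ex θ) :=
  (ev_diff a).continuousOn.comp_continuous (continuous_const.mul ex_cont) (fun θ => mem_r h0 h1 θ)
-- END ev_r_cont
-- BEGIN cont_int
/-- continuous functions are integrable on `[0, 2π)` -/
theorem cont_int (f : ℝ → ℂ) (hf : Continuous f) : Integrable f mu := by
  have h : IntegrableOn f (Set.Icc 0 (2 * Real.pi)) volume := hf.continuousOn.integrableOn_compact isCompact_Icc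
  exact h.mono_set Set.Ico_subset_Icc_self
-- END cont_int
-- BEGIN pars_r
private theorem pars_r_one (d : ℕ → ℂ) (hd : Summable fun n => ‖d n‖) (n : ℕ) :
    ∫ θ, ex θ ^ n * conj (∑' m, d m * ex θ ^ m) ∂mu = 2 * Real.pi * conj (d n) := by
  have h1 : ∀ θ : ℝ, ex θ ^ n * conj (∑' m, d m * ex θ ^ m) =
      ∑' m, conj (d m) * (ex θ ^ n * conj (ex θ ^ m)) := by
    intro θ
    rw [Complex.conj_tsum, ← tsum_mul_left]
    refine tsum_congr fun m => ?_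
    rw [map_mul]
    ring
  simp_rw [h1]
  have hnorm : ∀ (m : ℕ) (θ : ℝ), ‖conj (d m) * (ex θ ^ n * conj (ex θ ^ m))‖ = ‖d m‖ := by
    intro m θ
    rw [norm_mul, norm_mul, Complex.norm_conj, Complex.norm_conj, norm_pow, norm_pow, norm_ex,
      one_pow, one_pow, mul_one, mul_one]
  have hint : ∀ m : ℕ, Integrable (fun θ => conj (d m) * (ex θ ^ n * conj (ex θ ^ m))) mu := by
    intro m
    apply cont_int
    have hc := ex_cont
    fun_prop
  have hsum : Summable fun m : ℕ => ∫ θ, ‖conj (d m) * (ex θ ^ n * conj (ex θ ^ m))‖ ∂mu := by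
    simp_rw [hnorm, integral_const]
    exact hd.const_smul _
  have h2 := (hasSum_integral_of_summable_integral_norm hint hsum).tsum_eq
  rw [← h2]
  have h3 : ∀ m : ℕ, ∫ θ, conj (d m) * (ex θ ^ n * conj (ex θ ^ m)) ∂mu =
      conj (d m) * (if n = m then (2 * Real.pi : ℂ) else 0) := by
    intro m
    rw [integral_const_mul, int_ex]
  simp_rw [h3]
  rw [tsum_eq_single n]
  · rw [if_pos rfl]
    ring
  · intro m hm
    rw [if_neg (Ne.symm hm), mul_zero]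

private theorem pars_r_bd (d : ℕ → ℂ) (hd : Summable fun n => ‖d n‖) (θ : ℝ) :
    ‖∑' m, d m * ex θ ^ m‖ ≤ ∑' m, ‖d m‖ := by
  have h : ∀ m, ‖d m * ex θ ^ m‖ = ‖d m‖ := by
    intro m
    rw [norm_mul, norm_pow, norm_ex, one_pow, mul_one]
  have hs : Summable fun m => ‖d m * ex θ ^ m‖ := by simp_rw [h]; exact hd
  calc ‖∑' m, d m * ex θ ^ m‖ ≤ ∑' m, ‖d m * ex θ ^ m‖ := norm_tsum_le_tsum_norm hs
    _ = ∑' m, ‖d m‖ := by simp_rw [h]

private theorem pars_r_cont (d : ℕ → ℂ) (hd : Summable fun n => ‖d n‖) :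
    Continuous fun θ : ℝ => ∑' m, d m * ex θ ^ m := by
  refine continuous_tsum (u := fun m => ‖d m‖) (fun m => ?_) hd fun m θ => ?_
  · have hc := ex_cont
    fun_prop
  · rw [norm_mul, norm_pow, norm_ex, one_pow, mul_one]

private theorem pars_r_gen (c d : ℕ → ℂ) (hc : Summable fun n => ‖c n‖)
    (hd : Summable fun n => ‖d n‖) :
    ∫ θ, (∑' n, c n * ex θ ^ n) * conj (∑' n, d n * ex θ ^ n) ∂mu =
      2 * Real.pi * ∑' n, c n * conj (d n) := by
  have h1 : ∀ θ : ℝ, (∑' n, c n * ex θ ^ n) * conj (∑' n, d n * ex θ ^ n) =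
      ∑' n, c n * (ex θ ^ n * conj (∑' m, d m * ex θ ^ m)) := by
    intro θ
    rw [← tsum_mul_right]
    exact tsum_congr fun n => by ring
  simp_rw [h1]
  have hcd := pars_r_cont d hd
  have hint : ∀ n : ℕ, Integrable (fun θ => c n * (ex θ ^ n * conj (∑' m, d m * ex θ ^ m))) mu := by
    intro n
    apply cont_int
    have he := ex_cont
    exact continuous_const.mul ((he.pow n).mul (Complex.continuous_conj.comp hcd))
  have hsum : Summable fun n : ℕ => ∫ θ, ‖c n * (ex θ ^ n * conj (∑' m, d m * ex θ ^ m))‖ ∂mu := by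
    refine Summable.of_nonneg_of_le (fun n => integral_nonneg fun θ => norm_nonneg _)
      (fun n => ?_) (hc.mul_left (mu.real Set.univ * ∑' m, ‖d m‖))
    calc ∫ θ, ‖c n * (ex θ ^ n * conj (∑' m, d m * ex θ ^ m))‖ ∂mu
        ≤ ∫ _θ, ‖c n‖ * ∑' m, ‖d m‖ ∂mu := by
          refine integral_mono (hint n).norm (integrable_const _) fun θ => ?_
          show ‖c n * (ex θ ^ n * conj (∑' m, d m * ex θ ^ m))‖ ≤ ‖c n‖ * ∑' m, ‖d m‖
          rw [norm_mul, norm_mul, norm_pow, norm_ex, one_pow, one_mul, Complex.norm_conj]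
          exact mul_le_mul_of_nonneg_left (pars_r_bd d hd θ) (norm_nonneg _)
      _ = mu.real Set.univ * (∑' m, ‖d m‖) * ‖c n‖ := by
          rw [integral_const, smul_eq_mul]
          ring
  have h2 := (hasSum_integral_of_summable_integral_norm hint hsum).tsum_eq
  rw [← h2, ← tsum_mul_left]
  refine tsum_congr fun n => ?_
  rw [integral_const_mul, pars_r_one d hd n]
  ring

/-- Parseval on smaller circles: expand both series (absolutely and uniformly convergent) and use `int_ex` -/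
theorem pars_r (a b : H) {r s : ℝ} (hr0 : 0 ≤ r) (hr1 : r < 1) (hs0 : 0 ≤ s) (hs1 : s < 1) :
    ∫ θ, ev a (r * ex θ) * conj (ev b (s * ex θ)) ∂mu =
      2 * Real.pi * ∑' n : ℕ, a n * conj (b n) * ((r : ℂ) * s) ^ n := by
  have hrD : (r : ℂ) ∈ D := by rw [mem_D, Complex.norm_real, Real.norm_of_nonneg hr0]; exact hr1
  have hsD : (s : ℂ) ∈ D := by rw [mem_D, Complex.norm_real, Real.norm_of_nonneg hs0]; exact hs1
  have h := pars_r_gen (fun n => a n * (r : ℂ) ^ n) (fun n => b n * (s : ℂ) ^ n)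
    (summ a hrD).norm (summ b hsD).norm
  have e1 : ∀ θ : ℝ, ev a (r * ex θ) * conj (ev b (s * ex θ)) =
      (∑' n, a n * (r : ℂ) ^ n * ex θ ^ n) * conj (∑' n, b n * (s : ℂ) ^ n * ex θ ^ n) := by
    intro θ
    unfold ev
    simp_rw [mul_pow, ← mul_assoc]
  simp_rw [e1]
  rw [h]
  congr 1
  refine tsum_congr fun n => ?_
  rw [map_mul, map_pow, Complex.conj_ofReal, mul_pow]
  ring
-- END pars_r
-- BEGIN l2_bound
theorem l2_bound_sum (a : H) : HasSum (fun n : ℕ => ‖a n‖ ^ 2) (‖a‖ ^ 2) := by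
  have h := Complex.reCLM.hasSum (lp.hasSum_inner (𝕜 := ℂ) a a)
  have h1 : Complex.reCLM (⟪a, a⟫_ℂ) = ‖a‖ ^ 2 := inner_self_eq_norm_sq (𝕜 := ℂ) a
  have h2 : (fun n : ℕ => Complex.reCLM ⟪a n, a n⟫_ℂ) = fun n : ℕ => ‖a n‖ ^ 2 := by
    funext n
    exact inner_self_eq_norm_sq (𝕜 := ℂ) (a n)
  rw [h1, h2] at h
  exact h

/-- from `pars_r` with `a = b`, `r = s` and `‖a‖² = ∑ ‖a_n‖²` (`lp.norm_sq_eq_of_L2`-like) -/
theorem l2_bound (a : H) {r : ℝ} (hr0 : 0 ≤ r) (hr1 : r < 1) :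
    ∫ θ, ‖ev a (r * ex θ)‖ ^ 2 ∂mu ≤ 2 * Real.pi * ‖a‖ ^ 2 := by
  have h1 := pars_r a a hr0 hr1 hr0 hr1
  have h2 : ∫ θ, ev a (r * ex θ) * conj (ev a (r * ex θ)) ∂mu =
      ((∫ θ, ‖ev a (r * ex θ)‖ ^ 2 ∂mu : ℝ) : ℂ) := by
    rw [← integral_complex_ofReal]
    refine integral_congr_ae (Eventually.of_forall fun θ => ?_)
    simp only
    rw [Complex.mul_conj']
    push_cast
    rfl
  have h3 : ∀ n : ℕ, a n * conj (a n) * ((r : ℂ) * r) ^ n = ((‖a n‖ ^ 2 * (r * r) ^ n : ℝ) : ℂ) := by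
    intro n
    rw [Complex.mul_conj']
    push_cast
    rfl
  rw [h2] at h1
  simp only [h3] at h1
  rw [← Complex.ofReal_tsum] at h1
  have h4 : ∫ θ, ‖ev a (r * ex θ)‖ ^ 2 ∂mu = 2 * Real.pi * ∑' n : ℕ, ‖a n‖ ^ 2 * (r * r) ^ n := by
    exact_mod_cast h1
  rw [h4, ← (l2_bound_sum a).tsum_eq]
  have h5 : ∀ n : ℕ, ‖a n‖ ^ 2 * (r * r) ^ n ≤ ‖a n‖ ^ 2 := fun n =>
    mul_le_of_le_one_right (by positivity) (pow_le_one₀ (by positivity) (by nlinarith))
  refine mul_le_mul_of_nonneg_left ?_ (by positivity)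
  exact Summable.tsum_le_tsum h5 (Summable.of_nonneg_of_le (fun n => by positivity) h5
    (l2_bound_sum a).summable) (l2_bound_sum a).summable
-- END l2_bound
-- BEGIN pars_diff
private theorem pars_diff_sub (X Y Z W : ℝ → ℂ) (hX : Integrable X mu) (hY : Integrable Y mu)
    (hZ : Integrable Z mu) (hW : Integrable W mu) :
    ∫ θ, ((X θ - Y θ) - (Z θ - W θ)) ∂mu =
      ((∫ θ, X θ ∂mu) - ∫ θ, Y θ ∂mu) - ((∫ θ, Z θ ∂mu) - ∫ θ, W θ ∂mu) := by
  rw [integral_sub (f := fun θ => X θ - Y θ) (g := fun θ => Z θ - W θ) (hX.sub hY) (hZ.sub hW),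
    integral_sub hX hY, integral_sub hZ hW]

/-- from `pars_r` (expand the square) -/
theorem pars_diff (a : H) {r s : ℝ} (hr0 : 0 ≤ r) (hr1 : r < 1) (hs0 : 0 ≤ s) (hs1 : s < 1) :
    ∫ θ, ‖ev a (r * ex θ) - ev a (s * ex θ)‖ ^ 2 ∂mu = 2 * Real.pi * ∑' n : ℕ, ‖a n‖ ^ 2 * (r ^ n - s ^ n) ^ 2 := by
  have hcr := ev_r_cont a hr0 hr1
  have hcs := ev_r_cont a hs0 hs1
  have key : ∀ {u v : ℝ}, 0 ≤ u → u < 1 → 0 ≤ v → v < 1 →
      Summable fun n : ℕ => a n * conj (a n) * ((u : ℂ) * v) ^ n := by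
    intro u v hu0 hu1 hv0 hv1
    have hs : Summable fun n : ℕ => ‖a n‖ ^ 2 := by
      have h := (memℓp_gen_iff (by norm_num)).1 (lp.memℓp a)
      refine h.congr fun n => ?_
      rw [ENNReal.toReal_ofNat, Real.rpow_ofNat]
    apply Summable.of_norm
    refine Summable.of_nonneg_of_le (fun n => norm_nonneg _) (fun n => ?_) hs
    rw [norm_mul, norm_mul, Complex.norm_conj, norm_pow, norm_mul, Complex.norm_real,
      Complex.norm_real, Real.norm_of_nonneg hu0, Real.norm_of_nonneg hv0, ← _root_.sq]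
    have h1 : (u * v) ^ n ≤ 1 := pow_le_one₀ (by positivity) (by nlinarith)
    exact mul_le_of_le_one_right (by positivity) h1
  have hI : ∀ {u v : ℝ}, 0 ≤ u → u < 1 → 0 ≤ v → v < 1 →
      Integrable (fun θ => ev a (u * ex θ) * conj (ev a (v * ex θ))) mu := by
    intro u v hu0 hu1 hv0 hv1
    apply cont_int
    exact (ev_r_cont a hu0 hu1).mul (Complex.continuous_conj.comp (ev_r_cont a hv0 hv1))
  have h1 : ((∫ θ, ‖ev a (r * ex θ) - ev a (s * ex θ)‖ ^ 2 ∂mu : ℝ) : ℂ) =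
      ∫ θ, ((ev a (r * ex θ) * conj (ev a (r * ex θ)) - ev a (r * ex θ) * conj (ev a (s * ex θ))) -
        (ev a (s * ex θ) * conj (ev a (r * ex θ)) - ev a (s * ex θ) * conj (ev a (s * ex θ)))) ∂mu := by
    rw [← integral_complex_ofReal]
    refine integral_congr_ae (Filter.Eventually.of_forall fun θ => ?_)
    show ((‖ev a (r * ex θ) - ev a (s * ex θ)‖ ^ 2 : ℝ) : ℂ) = _
    rw [Complex.ofReal_pow, ← Complex.mul_conj', map_sub]
    ring
  have h2 : ((2 * Real.pi * ∑' n : ℕ, ‖a n‖ ^ 2 * (r ^ n - s ^ n) ^ 2 : ℝ) : ℂ) =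
      2 * Real.pi * ∑' n : ℕ, (((a n * conj (a n) * ((r : ℂ) * r) ^ n) - (a n * conj (a n) * ((r : ℂ) * s) ^ n)) -
        ((a n * conj (a n) * ((s : ℂ) * r) ^ n) - (a n * conj (a n) * ((s : ℂ) * s) ^ n))) := by
    rw [Complex.ofReal_mul, Complex.ofReal_mul, Complex.ofReal_tsum, Complex.ofReal_ofNat]
    congr 1
    refine tsum_congr fun n => ?_
    rw [Complex.mul_conj']
    push_cast
    ring
  have h3 : ((∫ θ, ‖ev a (r * ex θ) - ev a (s * ex θ)‖ ^ 2 ∂mu : ℝ) : ℂ) =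
      ((2 * Real.pi * ∑' n : ℕ, ‖a n‖ ^ 2 * (r ^ n - s ^ n) ^ 2 : ℝ) : ℂ) := by
    rw [h1, h2, pars_diff_sub _ _ _ _ (hI hr0 hr1 hr0 hr1) (hI hr0 hr1 hs0 hs1)
      (hI hs0 hs1 hr0 hr1) (hI hs0 hs1 hs0 hs1), pars_r a a hr0 hr1 hr0 hr1,
      pars_r a a hr0 hr1 hs0 hs1, pars_r a a hs0 hs1 hr0 hr1, pars_r a a hs0 hs1 hs0 hs1]
    have k1 := key hr0 hr1 hr0 hr1
    have k2 := key hr0 hr1 hs0 hs1
    have k3 := key hs0 hs1 hr0 hr1
    have k4 := key hs0 hs1 hs0 hs1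
    rw [(k1.sub k2).tsum_sub (k3.sub k4), k1.tsum_sub k2, k3.tsum_sub k4]
    ring
  exact_mod_cast h3
-- END pars_diff
-- BEGIN cauchy
/-- dominated convergence for the series in `pars_diff` (or: split at a large `N`) -/
theorem cauchy (a : H) {ε : ℝ} (hε : 0 < ε) : ∃ δ : ℝ, 0 < δ ∧ δ < 1 ∧ ∀ r s : ℝ, δ < r → r < 1 → δ < s → s < 1 →
    ∫ θ, ‖ev a (r * ex θ) - ev a (s * ex θ)‖ ^ 2 ∂mu ≤ ε := by
  have hs : Summable fun n : ℕ => ‖a n‖ ^ 2 := by
    have h := (memℓp_gen_iff (by norm_num)).1 (lp.memℓp a)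
    refine h.congr fun n => ?_
    rw [ENNReal.toReal_ofNat, Real.rpow_ofNat]
  have hev : ∀ᶠ r : ℝ in 𝓝[<] 1, 0 < r ∧ r < 1 := by
    have h1 : ∀ᶠ r : ℝ in 𝓝[<] 1, r < 1 := eventually_mem_nhdsWithin
    have h2 : ∀ᶠ r : ℝ in 𝓝[<] 1, 0 < r :=
      mem_nhdsWithin_of_mem_nhds (Ioi_mem_nhds zero_lt_one)
    exact h2.and h1
  have hlim : Tendsto (fun p : ℝ × ℝ => ∑' n : ℕ, ‖a n‖ ^ 2 * (p.1 ^ n - p.2 ^ n) ^ 2)
      ((𝓝[<] 1) ×ˢ (𝓝[<] 1)) (𝓝 (∑' _n : ℕ, (0 : ℝ))) := by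
    refine tendsto_tsum_of_dominated_convergence (bound := fun n => ‖a n‖ ^ 2) hs (fun n => ?_) ?_
    · have h1 : Tendsto (fun p : ℝ × ℝ => p.1) ((𝓝[<] (1 : ℝ)) ×ˢ (𝓝[<] (1 : ℝ))) (𝓝 1) :=
        (tendsto_fst.mono_right nhdsWithin_le_nhds)
      have h2 : Tendsto (fun p : ℝ × ℝ => p.2) ((𝓝[<] (1 : ℝ)) ×ˢ (𝓝[<] (1 : ℝ))) (𝓝 1) :=
        (tendsto_snd.mono_right nhdsWithin_le_nhds)
      have h3 := ((h1.pow n).sub (h2.pow n)).pow 2
      have h4 := h3.const_mul (‖a n‖ ^ 2)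
      simpa using h4
    · have h5 : ∀ᶠ p : ℝ × ℝ in (𝓝[<] (1 : ℝ)) ×ˢ (𝓝[<] (1 : ℝ)), (0 < p.1 ∧ p.1 < 1) ∧ (0 < p.2 ∧ p.2 < 1) :=
        hev.prod_mk hev
      filter_upwards [h5] with p hp n
      rw [Real.norm_of_nonneg (by positivity)]
      apply mul_le_of_le_one_right (by positivity)
      have b1 : p.1 ^ n ≤ 1 := pow_le_one₀ hp.1.1.le hp.1.2.le
      have b2 : p.2 ^ n ≤ 1 := pow_le_one₀ hp.2.1.le hp.2.2.le
      have b3 : 0 ≤ p.1 ^ n := pow_nonneg hp.1.1.le n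
      have b4 : 0 ≤ p.2 ^ n := pow_nonneg hp.2.1.le n
      rw [sq_le_one_iff_abs_le_one, abs_le]
      constructor <;> linarith
  rw [tsum_zero] at hlim
  have hpi : 0 < ε / (2 * Real.pi) := by positivity
  have h6 : ∀ᶠ p : ℝ × ℝ in (𝓝[<] (1 : ℝ)) ×ˢ (𝓝[<] (1 : ℝ)),
      ∑' n : ℕ, ‖a n‖ ^ 2 * (p.1 ^ n - p.2 ^ n) ^ 2 < ε / (2 * Real.pi) :=
    hlim.eventually (gt_mem_nhds hpi)
  rw [Filter.eventually_prod_self_iff (r := fun x y : ℝ =>
    ∑' n : ℕ, ‖a n‖ ^ 2 * (x ^ n - y ^ n) ^ 2 < ε / (2 * Real.pi))] at h6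
  obtain ⟨t, ht, htr⟩ := h6
  obtain ⟨l, hl, hlt⟩ := (mem_nhdsLT_iff_exists_Ioo_subset).1 ht
  refine ⟨max l (1 / 2), by positivity, max_lt hl (by norm_num), fun r s hr1 hr2 hs1 hs2 => ?_⟩
  have hr0 : 0 ≤ r := by have := le_max_right l (1 / 2 : ℝ); linarith
  have hs0 : 0 ≤ s := by have := le_max_right l (1 / 2 : ℝ); linarith
  have hrl : l < r := lt_of_le_of_lt (le_max_left _ _) hr1
  have hsl : l < s := lt_of_le_of_lt (le_max_left _ _) hs1
  rw [pars_diff a hr0 hr2 hs0 hs2]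
  have h7 := htr r (hlt ⟨hrl, hr2⟩) s (hlt ⟨hsl, hs2⟩)
  rw [lt_div_iff₀ (by positivity)] at h7
  linarith
-- END cauchy
-- BEGIN exists_bv
private theorem exists_bv_mem (a : H) {r : ℝ} (h0 : 0 ≤ r) (h1 : r < 1) :
    MemLp (fun θ : ℝ => ev a (r * ex θ)) 2 mu := by
  have hc := ev_r_cont a h0 h1
  rw [memLp_two_iff_integrable_sq_norm hc.aestronglyMeasurable]
  have h := (cont_int (fun θ => ((‖ev a (r * ex θ)‖ ^ 2 : ℝ) : ℂ)) (by fun_prop)).norm
  refine h.congr (Eventually.of_forall fun θ => ?_)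
  simp only [Complex.norm_real, Real.norm_eq_abs]
  exact abs_of_nonneg (by positivity)

private theorem exists_bv_sq {f : ℝ → ℂ} (hf : MemLp f 2 mu) :
    ∫ θ, ‖f θ‖ ^ 2 ∂mu = ‖hf.toLp f‖ ^ 2 := by
  rw [Lp.norm_toLp, hf.eLpNorm_eq_integral_rpow_norm (by norm_num) (by norm_num),
    ENNReal.toReal_ofReal (by positivity)]
  have h2 : ((2 : ENNReal).toReal) = (2 : ℝ) := by simp
  rw [h2, ← Real.rpow_natCast, ← Real.rpow_mul (integral_nonneg fun θ => by positivity)]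
  norm_num

/-- completeness of `L²(mu)` (the sequence `r = 1 - 1/(k+2)` is Cauchy by `cauchy`; then `cauchy` again and the triangle
inequality in `L²`) -/
theorem exists_bv (a : H) : ∃ f : ℝ → ℂ, Measurable f ∧ MemLp f 2 mu ∧
    Tendsto (fun r : ℝ => ∫ θ, ‖ev a (r * ex θ) - f θ‖ ^ 2 ∂mu) (𝓝[<] 1) (𝓝 0) := by
  let rr : ℕ → ℝ := fun k => 1 - 1 / ((k : ℝ) + 2)
  have hr0 : ∀ k, 0 ≤ rr k := fun k => by
    have h : 1 / ((k : ℝ) + 2) ≤ 1 := by
      rw [div_le_one (by positivity)]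
      have : (0 : ℝ) ≤ k := Nat.cast_nonneg k
      linarith
    simp only [rr]
    linarith
  have hr1 : ∀ k, rr k < 1 := fun k => by
    have h : 0 < 1 / ((k : ℝ) + 2) := by positivity
    simp only [rr]
    linarith
  have hrt : Tendsto rr atTop (𝓝 1) := by
    have h : Tendsto (fun k : ℕ => 1 / ((k : ℝ) + 2)) atTop (𝓝 0) := by
      have h' := (tendsto_natCast_atTop_atTop (R := ℝ)).atTop_add (tendsto_const_nhds (x := (2 : ℝ)))
      exact tendsto_const_nhds.div_atTop h'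
    have h2 := (tendsto_const_nhds (x := (1 : ℝ)) (f := atTop (α := ℕ))).sub h
    rw [sub_zero] at h2
    exact h2
  have key : ∀ (r s : ℝ) (hr0 : 0 ≤ r) (hr1 : r < 1) (hs0 : 0 ≤ s) (hs1 : s < 1),
      ‖(exists_bv_mem a hr0 hr1).toLp _ - (exists_bv_mem a hs0 hs1).toLp _‖ ^ 2 =
        ∫ θ, ‖ev a (r * ex θ) - ev a (s * ex θ)‖ ^ 2 ∂mu := by
    intro r s h1 h2 h3 h4
    rw [← MemLp.toLp_sub, ← exists_bv_sq]
    rfl
  let F : ℕ → Lp ℂ 2 mu := fun k => (exists_bv_mem a (hr0 k) (hr1 k)).toLp _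
  have hev : ∀ δ : ℝ, δ < 1 → ∃ N, ∀ n, N ≤ n → δ < rr n := by
    intro δ hδ
    exact eventually_atTop.1 (hrt.eventually (lt_mem_nhds hδ))
  have hF : CauchySeq F := by
    rw [Metric.cauchySeq_iff']
    intro ε hε
    obtain ⟨δ, hδ0, hδ1, hδ⟩ := cauchy a (ε := ε ^ 2 / 4) (by positivity)
    obtain ⟨N, hN⟩ := hev δ hδ1
    refine ⟨N, fun n hn => ?_⟩
    rw [dist_eq_norm]
    have h1 := key (rr n) (rr N) (hr0 n) (hr1 n) (hr0 N) (hr1 N)
    have h2 := hδ (rr n) (rr N) (hN n hn) (hr1 n) (hN N le_rfl) (hr1 N)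
    have h3 : ‖F n - F N‖ ^ 2 ≤ ε ^ 2 / 4 := h1.le.trans h2
    by_contra h4
    push Not at h4
    nlinarith [norm_nonneg (F n - F N)]
  obtain ⟨G, hG⟩ := cauchySeq_tendsto_of_complete hF
  refine ⟨G, (Lp.stronglyMeasurable G).measurable, Lp.memLp G, ?_⟩
  rw [Metric.tendsto_nhds]
  intro ε hε
  obtain ⟨δ, hδ0, hδ1, hδ⟩ := cauchy a (ε := ε / 2) (by positivity)
  filter_upwards [Ioo_mem_nhdsLT hδ1] with r hr
  have hr0' : 0 ≤ r := hδ0.le.trans hr.1.le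
  have e1 : ∫ θ, ‖ev a (r * ex θ) - G θ‖ ^ 2 ∂mu = ‖(exists_bv_mem a hr0' hr.2).toLp _ - G‖ ^ 2 := by
    have h1 := exists_bv_sq ((exists_bv_mem a hr0' hr.2).sub (Lp.memLp G))
    rw [MemLp.toLp_sub (exists_bv_mem a hr0' hr.2) (Lp.memLp G), Lp.toLp_coeFn] at h1
    rw [← h1]
    rfl
  have e2 : ‖(exists_bv_mem a hr0' hr.2).toLp _ - G‖ ^ 2 ≤ ε / 2 := by
    have h1 : Tendsto (fun k => ‖(exists_bv_mem a hr0' hr.2).toLp _ - F k‖ ^ 2) atTop
        (𝓝 (‖(exists_bv_mem a hr0' hr.2).toLp _ - G‖ ^ 2)) :=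
      ((tendsto_const_nhds.sub hG).norm).pow 2
    obtain ⟨N, hN⟩ := hev δ hδ1
    refine le_of_tendsto h1 (eventually_atTop.2 ⟨N, fun n hn => ?_⟩)
    have h2 := key r (rr n) hr0' hr.2 (hr0 n) (hr1 n)
    exact h2.le.trans (hδ r (rr n) hr.1 hr.2 (hN n hn) (hr1 n))
  rw [Real.dist_eq, sub_zero, e1, abs_of_nonneg (by positivity)]
  linarith
-- END exists_bv
/-- the boundary function -/
noncomputable def bv (a : H) : ℝ → ℂ := Classical.choose (exists_bv a)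

theorem bv_meas (a : H) : Measurable (bv a) := (Classical.choose_spec (exists_bv a)).1

theorem bv_mem (a : H) : MemLp (bv a) 2 mu := (Classical.choose_spec (exists_bv a)).2.1

theorem bv_lim (a : H) : Tendsto (fun r : ℝ => ∫ θ, ‖ev a (r * ex θ) - bv a θ‖ ^ 2 ∂mu) (𝓝[<] 1) (𝓝 0) :=
  (Classical.choose_spec (exists_bv a)).2.2

-- BEGIN l1_ae
/-- nonnegative functions with summable integrals tend to `0` a.e. -/
theorem l1_ae (f : ℕ → ℝ → ℝ) (hf : ∀ j, Integrable (f j) mu) (h0 : ∀ j θ, 0 ≤ f j θ) (c : ℕ → ℝ) (hc : Summable c)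
    (h : ∀ j, ∫ θ, f j θ ∂mu ≤ c j) : ∀ᵐ θ ∂mu, Tendsto (fun j => f j θ) atTop (𝓝 0) := by
  have h1 : ∫⁻ θ, ∑' j, ENNReal.ofReal (f j θ) ∂mu ≠ ⊤ := by
    rw [lintegral_tsum fun j => (hf j).1.aemeasurable.ennreal_ofReal]
    have h2 : ∀ j, ∫⁻ θ, ENNReal.ofReal (f j θ) ∂mu ≤ ENNReal.ofReal (c j) := by
      intro j
      rw [← ofReal_integral_eq_lintegral_ofReal (hf j) (Filter.Eventually.of_forall (h0 j))]
      exact ENNReal.ofReal_le_ofReal (h j)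
    refine ne_top_of_le_ne_top ?_ (ENNReal.tsum_le_tsum h2)
    have hc0 : ∀ j, 0 ≤ c j := fun j => (integral_nonneg (h0 j)).trans (h j)
    rw [← ENNReal.ofReal_tsum_of_nonneg hc0 hc]
    exact ENNReal.ofReal_ne_top
  have h3 : ∀ᵐ θ ∂mu, ∑' j, ENNReal.ofReal (f j θ) < ⊤ :=
    ae_lt_top' (AEMeasurable.ennreal_tsum fun j => (hf j).1.aemeasurable.ennreal_ofReal) h1
  filter_upwards [h3] with θ hθ
  have h4 := ENNReal.tendsto_atTop_zero_of_tsum_ne_top hθ.ne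
  have h5 := (ENNReal.tendsto_toReal ENNReal.zero_ne_top).comp h4
  refine h5.congr fun j => ?_
  exact ENNReal.toReal_ofReal (h0 j θ)
-- END l1_ae

-- BEGIN bv_seq_nat
theorem bv_seq_nat_int (a : H) {r : ℝ} (hr0 : 0 ≤ r) (hr1 : r < 1) :
    Integrable (fun θ => ‖ev a (r * ex θ) - bv a θ‖ ^ 2) mu := by
  have h1 : Continuous fun θ : ℝ => ev a (r * ex θ) := ev_r_cont a hr0 hr1
  have h2 : MemLp (fun θ : ℝ => ev a (r * ex θ)) 2 mu := by
    rw [memLp_two_iff_integrable_sq_norm h1.aestronglyMeasurable]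
    have h3 := (cont_int (fun θ : ℝ => ((‖ev a (r * ex θ)‖ ^ 2 : ℝ) : ℂ)) (by fun_prop)).norm
    refine h3.congr (Eventually.of_forall fun θ => ?_)
    simp only
    rw [Complex.norm_real, Real.norm_of_nonneg (by positivity)]
  exact (h2.sub (bv_mem a)).norm.integrable_sq

/-- one sequence of radii for countably many elements: choose `r j` in `(1 - 1/(j+2), 1)` such that
`∫ ‖a_i(r_j e^{iθ}) - a_i*(θ)‖² ≤ 2^{-j}` for all `i ≤ j`; then `l1_ae` for each `i` (apply it to the tail `j ≥ i`) -/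
theorem bv_seq_nat (a : ℕ → H) : ∃ r : ℕ → ℝ, (∀ j, 1 / 2 ≤ r j ∧ r j < 1) ∧ Tendsto r atTop (𝓝 1) ∧
    ∀ᵐ θ ∂mu, ∀ i, Tendsto (fun j => ev (a i) (r j * ex θ)) atTop (𝓝 (bv (a i) θ)) := by
  have h1 : ∀ j : ℕ, ∃ r : ℝ, 1 - 1 / ((j : ℝ) + 2) < r ∧ r < 1 ∧
      ∀ i ∈ Finset.range (j + 1),
        ∫ θ, ‖ev (a i) (r * ex θ) - bv (a i) θ‖ ^ 2 ∂mu ≤ (1 / 2) ^ j := by
    intro j
    have e1 : ∀ᶠ r : ℝ in 𝓝[<] 1, ∀ i ∈ Finset.range (j + 1),
        ∫ θ, ‖ev (a i) (r * ex θ) - bv (a i) θ‖ ^ 2 ∂mu ≤ (1 / 2) ^ j := by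
      rw [Filter.eventually_all_finset]
      intro i _
      have h2 := (bv_lim (a i)).eventually (gt_mem_nhds (show (0 : ℝ) < (1 / 2) ^ j by positivity))
      exact h2.mono fun r hr => le_of_lt hr
    have e2 : ∀ᶠ r : ℝ in 𝓝[<] 1, 1 - 1 / ((j : ℝ) + 2) < r := by
      apply eventually_nhdsWithin_of_eventually_nhds
      apply lt_mem_nhds
      have : 0 < 1 / ((j : ℝ) + 2) := by positivity
      linarith
    have e3 : ∀ᶠ r : ℝ in 𝓝[<] 1, r < 1 := self_mem_nhdsWithin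
    obtain ⟨r, hr1, hr2, hr3⟩ := (e2.and (e3.and e1)).exists
    exact ⟨r, hr1, hr2, hr3⟩
  choose r hr1 hr2 hr3 using h1
  have hhalf : ∀ j, 1 / 2 ≤ r j := by
    intro j
    have h2 : 1 / ((j : ℝ) + 2) ≤ 1 / 2 := by
      apply one_div_le_one_div_of_le (by norm_num)
      have : (0 : ℝ) ≤ j := Nat.cast_nonneg j
      linarith
    have := hr1 j
    linarith
  refine ⟨r, fun j => ⟨hhalf j, hr2 j⟩, ?_, ?_⟩
  · have h2 : Tendsto (fun j : ℕ => 1 - 1 / ((j : ℝ) + 2)) atTop (𝓝 1) := by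
      have h3 : Tendsto (fun j : ℕ => 1 / ((j : ℝ) + 2)) atTop (𝓝 0) := by
        have h4 := (tendsto_one_div_add_atTop_nhds_zero_nat (𝕜 := ℝ)).comp (tendsto_add_atTop_nat 1)
        refine h4.congr fun j => ?_
        simp only [Function.comp]
        push_cast
        ring
      simpa using tendsto_const_nhds.sub h3
    exact tendsto_of_tendsto_of_tendsto_of_le_of_le h2 tendsto_const_nhds
      (fun j => (hr1 j).le) (fun j => (hr2 j).le)
  · rw [ae_all_iff]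
    intro i
    have h2 := l1_ae (fun j θ => ‖ev (a i) (r (j + i) * ex θ) - bv (a i) θ‖ ^ 2)
      (fun j => bv_seq_nat_int (a i) (by have := hhalf (j + i); linarith) (hr2 (j + i)))
      (fun j θ => by positivity) (fun j => (1 / 2) ^ j)
      (summable_geometric_of_lt_one (by norm_num) (by norm_num))
      (fun j => (hr3 (j + i) i (Finset.mem_range.2 (by omega))).trans
        (pow_le_pow_of_le_one (by norm_num) (by norm_num) (Nat.le_add_right j i)))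
    refine h2.mono fun θ hθ => ?_
    rw [← tendsto_add_atTop_iff_nat i]
    have h3 : Tendsto (fun j => ‖ev (a i) (r (j + i) * ex θ) - bv (a i) θ‖) atTop (𝓝 0) := by
      have h4 := (Real.continuous_sqrt.tendsto 0).comp hθ
      rw [Real.sqrt_zero] at h4
      refine h4.congr fun j => ?_
      simp only [Function.comp]
      exact Real.sqrt_sq (norm_nonneg _)
    exact tendsto_iff_norm_sub_tendsto_zero.2 h3
-- END bv_seq_nat
-- BEGIN bv_seq
/-- the same for countable index types -/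
theorem bv_seq {ι : Type} [Countable ι] (a : ι → H) : ∃ r : ℕ → ℝ, (∀ j, 1 / 2 ≤ r j ∧ r j < 1) ∧
    Tendsto r atTop (𝓝 1) ∧ ∀ᵐ θ ∂mu, ∀ i, Tendsto (fun j => ev (a i) (r j * ex θ)) atTop (𝓝 (bv (a i) θ)) := by
  rcases isEmpty_or_nonempty ι with he | hne
  · obtain ⟨r, h1, h2, _⟩ := bv_seq_nat (fun _ => 0)
    exact ⟨r, h1, h2, Filter.Eventually.of_forall fun θ i => he.elim i⟩
  · obtain ⟨f, hf⟩ := exists_surjective_nat ι
    obtain ⟨r, h1, h2, h3⟩ := bv_seq_nat (fun k => a (f k))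
    refine ⟨r, h1, h2, ?_⟩
    filter_upwards [h3] with θ hθ i
    obtain ⟨k, rfl⟩ := hf i
    exact hθ k
-- END bv_seq

-- BEGIN bv_pars
private theorem bv_pars_mem (a : H) {r : ℝ} (h0 : 0 ≤ r) (h1 : r < 1) :
    MemLp (fun θ : ℝ => ev a (r * ex θ)) 2 mu := by
  have hc := ev_r_cont a h0 h1
  have hcp : IsCompact (Set.Icc (0 : ℝ) (2 * Real.pi)) := isCompact_Icc
  obtain ⟨C, hC⟩ := hcp.exists_bound_of_continuousOn hc.continuousOn
  refine MemLp.of_bound hc.aestronglyMeasurable C ?_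
  unfold mu
  rw [ae_restrict_iff' measurableSet_Ico]
  exact Eventually.of_forall fun θ hθ => hC θ ⟨hθ.1, hθ.2.le⟩

private theorem bv_pars_norm (F : ℝ → ℂ) (hF : MemLp F 2 mu) :
    ‖hF.toLp F‖ ^ 2 = ∫ θ, ‖F θ‖ ^ 2 ∂mu := by
  have h1 : ((‖hF.toLp F‖ ^ 2 : ℝ) : ℂ) = ((∫ θ, ‖F θ‖ ^ 2 ∂mu : ℝ) : ℂ) := by
    have h2 := inner_self_eq_norm_sq_to_K (𝕜 := ℂ) (hF.toLp F)
    rw [Complex.ofReal_pow]
    refine Eq.trans h2.symm ?_
    rw [L2.inner_def, ← integral_complex_ofReal]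
    refine integral_congr_ae ?_
    filter_upwards [hF.coeFn_toLp] with θ hθ
    rw [hθ]
    have h3 := inner_self_eq_norm_sq_to_K (𝕜 := ℂ) (F θ)
    rw [Complex.ofReal_pow]
    exact h3
  exact_mod_cast h1

private theorem bv_pars_inner (F G : ℝ → ℂ) (hF : MemLp F 2 mu) (hG : MemLp G 2 mu) :
    ⟪hG.toLp G, hF.toLp F⟫_ℂ = ∫ θ, F θ * conj (G θ) ∂mu := by
  rw [L2.inner_def]
  refine integral_congr_ae ?_
  filter_upwards [hF.coeFn_toLp, hG.coeFn_toLp] with θ h1 h2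
  rw [h1, h2]
  simp [mul_comm]

private theorem bv_pars_lim (a : H) (r : ℕ → ℝ) (hr : ∀ j, 0 ≤ r j ∧ r j < 1)
    (hrw : Tendsto r atTop (𝓝[<] 1)) :
    Tendsto (fun j => (bv_pars_mem a (hr j).1 (hr j).2).toLp _) atTop (𝓝 ((bv_mem a).toLp (bv a))) := by
  rw [tendsto_iff_norm_sub_tendsto_zero]
  have h1 : ∀ j, ‖(bv_pars_mem a (hr j).1 (hr j).2).toLp _ - (bv_mem a).toLp (bv a)‖ =
      √(∫ θ, ‖ev a (r j * ex θ) - bv a θ‖ ^ 2 ∂mu) := by
    intro j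
    rw [← MemLp.toLp_sub, ← Real.sqrt_sq (norm_nonneg _), bv_pars_norm]
    rfl
  simp_rw [h1]
  have h2 := (bv_lim a).comp hrw
  have h3 := (Real.continuous_sqrt.tendsto 0).comp h2
  rw [Real.sqrt_zero] at h3
  exact h3

/-- limit `r → 1` in `pars_r` (`r = s`): left side by `bv_lim` and Cauchy-Schwarz, right side by dominated convergence;
`⟪b, a⟫ = ∑ a_n conj b_n` -/
theorem bv_pars (a b : H) : ∫ θ, bv a θ * conj (bv b θ) ∂mu = 2 * Real.pi * ⟪b, a⟫_ℂ := by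
  set r : ℕ → ℝ := fun j => 1 - 1 / ((j : ℝ) + 2) with hrdef
  have hr : ∀ j, 0 ≤ r j ∧ r j < 1 := by
    intro j
    have hj : (0 : ℝ) ≤ j := Nat.cast_nonneg j
    constructor
    · show 0 ≤ 1 - 1 / ((j : ℝ) + 2)
      rw [sub_nonneg, div_le_one (by linarith)]
      linarith
    · show 1 - 1 / ((j : ℝ) + 2) < 1
      have : 0 < 1 / ((j : ℝ) + 2) := by positivity
      linarith
  have hr1 : Tendsto r atTop (𝓝 1) := by
    have h1 : Tendsto (fun j : ℕ => 1 / ((j : ℝ) + 2)) atTop (𝓝 0) := by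
      have h2 : Tendsto (fun j : ℕ => (j : ℝ) + 2) atTop atTop :=
        tendsto_atTop_add_const_right _ _ tendsto_natCast_atTop_atTop
      have h5 := h2.inv_tendsto_atTop
      have h6 : (fun j : ℕ => 1 / ((j : ℝ) + 2)) = (fun j : ℕ => (j : ℝ) + 2)⁻¹ := by
        funext j
        rw [Pi.inv_apply, one_div]
      rw [h6]
      exact h5
    have h3 := h1.const_sub 1
    rw [sub_zero] at h3
    exact h3
  have hrw : Tendsto r atTop (𝓝[<] 1) :=
    tendsto_nhdsWithin_iff.2 ⟨hr1, Eventually.of_forall fun j => (hr j).2⟩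
  have hA := bv_pars_lim a r hr hrw
  have hB := bv_pars_lim b r hr hrw
  have hAB := hB.inner (𝕜 := ℂ) hA
  simp_rw [bv_pars_inner] at hAB
  have hpr : ∀ j, ∫ θ, ev a (r j * ex θ) * conj (ev b (r j * ex θ)) ∂mu =
      2 * Real.pi * ∑' n : ℕ, a n * conj (b n) * (((r j : ℝ) : ℂ) * ((r j : ℝ) : ℂ)) ^ n := fun j =>
    pars_r a b (hr j).1 (hr j).2 (hr j).1 (hr j).2
  simp_rw [hpr] at hAB
  have hs : Summable fun n : ℕ => ‖a n * conj (b n)‖ := by
    have h := (lp.summable_inner (𝕜 := ℂ) b a).norm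
    refine h.congr fun n => ?_
    simp [mul_comm]
  have hC : Tendsto (fun j : ℕ => ∑' n : ℕ, a n * conj (b n) * (((r j : ℝ) : ℂ) * ((r j : ℝ) : ℂ)) ^ n)
      atTop (𝓝 (∑' n : ℕ, a n * conj (b n))) := by
    refine tendsto_tsum_of_dominated_convergence hs (fun n => ?_) (Eventually.of_forall fun j n => ?_)
    · have h3 : Tendsto (fun j => ((r j : ℝ) : ℂ)) atTop (𝓝 ((1 : ℝ) : ℂ)) :=
        (Complex.continuous_ofReal.tendsto 1).comp hr1
      have h4 := ((h3.mul h3).pow n).const_mul (a n * conj (b n))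
      simpa using h4
    · rw [norm_mul (a n * conj (b n))]
      apply mul_le_of_le_one_right (norm_nonneg _)
      rw [norm_pow, norm_mul, Complex.norm_real, Real.norm_of_nonneg (hr j).1]
      exact pow_le_one₀ (mul_nonneg (hr j).1 (hr j).1)
        (mul_le_one₀ (hr j).2.le (hr j).1 (hr j).2.le)
  have hD := hC.const_mul (2 * (Real.pi : ℂ))
  have hE := tendsto_nhds_unique hAB hD
  rw [hE, lp.inner_eq_tsum]
  congr 1
-- END bv_pars
-- BEGIN bv_e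
theorem bv_e (n : ℕ) : ∀ᵐ θ ∂mu, bv (e n) θ = ex θ ^ n := by
  obtain ⟨r, hr, hr1, hae⟩ := bv_seq (ι := Unit) (fun _ => e n)
  filter_upwards [hae] with θ hθ
  have h1 := hθ ()
  have h2 : Tendsto (fun j => ev (e n) (r j * ex θ)) atTop (𝓝 (ex θ ^ n)) := by
    simp_rw [ev_e]
    have h3 : Tendsto (fun j => ((r j : ℝ) : ℂ)) atTop (𝓝 ((1 : ℝ) : ℂ)) :=
      (Complex.continuous_ofReal.tendsto 1).comp hr1
    have h4 := (h3.mul_const (ex θ)).pow n
    rw [Complex.ofReal_one, one_mul] at h4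
    exact h4
  exact tendsto_nhds_unique h1 h2
-- END bv_e
-- BEGIN bv_S
/-- `bv_seq` for `a`, `S a`, and `ev_S` -/
theorem bv_S (a : H) : ∀ᵐ θ ∂mu, bv (S a) θ = ex θ * bv a θ := by
  obtain ⟨r, hr, hr1, hae⟩ := bv_seq (ι := Bool) (fun i => if i then S a else a)
  filter_upwards [hae] with θ hθ
  have h1 := hθ true
  have h0 := hθ false
  simp only [if_true, Bool.false_eq_true, if_false] at h1 h0
  have h2 : Tendsto (fun j => ev (S a) (r j * ex θ)) atTop (𝓝 (ex θ * bv a θ)) := by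
    have e1 : ∀ j, ev (S a) (r j * ex θ) = (r j * ex θ) * ev a (r j * ex θ) := fun j =>
      ev_S (mem_r (by linarith [(hr j).1]) (hr j).2 θ) a
    simp_rw [e1]
    have h3 : Tendsto (fun j => ((r j : ℝ) : ℂ)) atTop (𝓝 ((1 : ℝ) : ℂ)) :=
      (Complex.continuous_ofReal.tendsto 1).comp hr1
    have h4 := (h3.mul_const (ex θ)).mul h0
    rw [Complex.ofReal_one, one_mul] at h4
    exact h4
  exact tendsto_nhds_unique h1 h2
-- END bv_S
-- BEGIN bv_T
/-- `bv_seq` for `a`, `b` -/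
theorem bv_T (φ : ℂ → ℂ) (bd : ℝ → ℂ)
    (hbd : ∀ᵐ θ : ℝ, Tendsto (fun r : ℝ => φ (r * ex θ)) (𝓝[<] 1) (𝓝 (bd θ))) (a b : H)
    (hab : ∀ z ∈ D, φ z * ev a z = ev b z) : ∀ᵐ θ ∂mu, bv b θ = bd θ * bv a θ := by
  obtain ⟨r, hr, hr1, hae⟩ := bv_seq (ι := Bool) (fun i => if i then b else a)
  have hbd' : ∀ᵐ θ ∂mu, Tendsto (fun r : ℝ => φ (r * ex θ)) (𝓝[<] 1) (𝓝 (bd θ)) :=
    ae_restrict_of_ae hbd
  have hrw : Tendsto r atTop (𝓝[<] 1) :=
    tendsto_nhdsWithin_iff.2 ⟨hr1, Eventually.of_forall fun j => (hr j).2⟩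
  filter_upwards [hae, hbd'] with θ hθ hφ
  have h1 := hθ true
  have h0 := hθ false
  simp only [if_true, Bool.false_eq_true, if_false] at h1 h0
  have h2 : Tendsto (fun j => ev b (r j * ex θ)) atTop (𝓝 (bd θ * bv a θ)) := by
    have e1 : ∀ j, ev b (r j * ex θ) = φ (r j * ex θ) * ev a (r j * ex θ) := fun j =>
      (hab _ (mem_r (by linarith [(hr j).1]) (hr j).2 θ)).symm
    simp_rw [e1]
    exact (hφ.comp hrw).mul h0
  exact tendsto_nhds_unique h1 h2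
-- END bv_T
end Nrd
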