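import Mathlib

/-!
# Reducing subspaces of analytic Toeplitz operators (MP_cca8cd_an): definitions
-/

set_option autoImplicit false

namespace Nrd

open MeasureTheory Filter Topology
open scoped ComplexConjugate InnerProductSpace

/-- The Hardy space as `ℓ²`: the sequence `a` stands for the function `∑ a_n zⁿ`. -/
noncomputable abbrev H := lp (fun _ : ℕ => ℂ) 2

/-- The value at `z`. -/
noncomputable def ev (a : H) (z : ℂ) : ℂ := ∑' n : ℕ, a n * z ^ n

/-- The open unit disc. -/
abbrev D : Set ℂ := Metric.ball (0 : ℂ) 1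

/-- Lebesgue measure on `[0, 2π)`. -/
noncomputable def mu : Measure ℝ := volume.restrict (Set.Ico 0 (2 * Real.pi))

instance : IsFiniteMeasure mu := by
  unfold mu
  exact isFiniteMeasure_restrict.2 (by rw [Real.volume_Ico]; exact ENNReal.ofReal_ne_top)

/-- `e^{iθ}` -/
noncomputable def ex (θ : ℝ) : ℂ := Complex.exp ((θ : ℂ) * Complex.I)

/-- the unit vectors (the functions `zⁿ`) -/
noncomputable def e (n : ℕ) : H := lp.single 2 n (1 : ℂ)

/-- Blaschke factor -/
noncomputable def bl (a z : ℂ) : ℂ := (z - a) / (1 - conj a * z)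

theorem mem_D {z : ℂ} : z ∈ D ↔ ‖z‖ < 1 := by simp [D]

theorem norm_ex (θ : ℝ) : ‖ex θ‖ = 1 := by
  unfold ex; exact Complex.norm_exp_ofReal_mul_I θ

theorem ex_ne (θ : ℝ) : ex θ ≠ 0 := Complex.exp_ne_zero _

theorem ex_cont : Continuous ex := by unfold ex; fun_prop

theorem mem_r {r : ℝ} (h0 : 0 ≤ r) (h1 : r < 1) (θ : ℝ) : (r : ℂ) * ex θ ∈ D := by
  rw [mem_D, norm_mul, norm_ex, mul_one, Complex.norm_real, Real.norm_of_nonneg h0]; exact h1

end Nrd
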