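import Pool.Agent.Nrd.Defs

/-! ## Disintegration over a bounded function on `[0, 2π)` (pure measure theory) -/

set_option autoImplicit false

namespace Nrd

open MeasureTheory Filter Topology ProbabilityTheory
open scoped ComplexConjugate ContDiff

/-- conditional measures of `mu` given `b` -/
noncomputable def cd (b : ℝ → ℂ) : Kernel ℂ ℝ := condDistrib (fun θ : ℝ => θ) b mu

instance (b : ℝ → ℂ) : IsMarkovKernel (cd b) := by unfold cd; infer_instance

-- BEGIN cont_zero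
/-- Stone-Weierstrass on the closed disc of radius `C` (`ContinuousMap.induction_on_of_compact` for the predicate
`f ↦ ∀ g', (∀ n m, ∫ g'(b) b^n conj b^m u = 0) → (∀ n m, ∫ (f g')(b) b^n conj b^m u = 0)` or density of the span of the monomials) -/
theorem cont_zero (b : ℝ → ℂ) (hb : Measurable b) (C : ℝ) (hC : ∀ θ, ‖b θ‖ ≤ C) (u : ℝ → ℂ) (hu : Integrable u mu)
    (h : ∀ n m : ℕ, ∫ θ, b θ ^ n * conj (b θ) ^ m * u θ ∂mu = 0) (g : ℂ → ℝ) (hg : Continuous g) :
    ∫ θ, g (b θ) • u θ ∂mu = 0 := by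
  have hCm : ∀ θ, b θ ∈ Metric.closedBall (0 : ℂ) C := fun θ => by simpa using hC θ
  have : CompactSpace (Metric.closedBall (0 : ℂ) C) := isCompact_iff_compactSpace.1 (isCompact_closedBall _ _)
  set bb : ℝ → Metric.closedBall (0 : ℂ) C := fun θ => ⟨b θ, hCm θ⟩ with hbb
  have hbbm : Measurable bb := hb.subtype_mk
  have hint : ∀ f : C(Metric.closedBall (0 : ℂ) C, ℂ), Integrable (fun θ => f (bb θ) * u θ) mu := by
    intro f
    refine hu.bdd_mul (c := ‖f‖) ((f.continuous.measurable.comp hbbm).aestronglyMeasurable) ?_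
    exact Eventually.of_forall fun θ => f.norm_coe_le_norm _
  set L0 : C(Metric.closedBall (0 : ℂ) C, ℂ) →ₗ[ℂ] ℂ :=
    { toFun := fun f => ∫ θ, f (bb θ) * u θ ∂mu
      map_add' := by
        intro f f'
        rw [← integral_add (hint f) (hint f')]
        refine integral_congr_ae (Eventually.of_forall fun θ => ?_)
        simp only [ContinuousMap.add_apply]; ring
      map_smul' := by
        intro c f
        rw [RingHom.id_apply, smul_eq_mul, ← integral_const_mul]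
        refine integral_congr_ae (Eventually.of_forall fun θ => ?_)
        simp only [ContinuousMap.smul_apply, smul_eq_mul]; ring } with hL0
  have hL0' : ∀ f, L0 f = ∫ θ, f (bb θ) * u θ ∂mu := fun f => rfl
  have hbd : ∀ f, ‖L0 f‖ ≤ (∫ θ, ‖u θ‖ ∂mu) * ‖f‖ := by
    intro f
    rw [hL0', mul_comm]
    refine (norm_integral_le_integral_norm _).trans ?_
    rw [← integral_const_mul]
    refine integral_mono (hint f).norm (hu.norm.const_mul _) fun θ => ?_
    simp only [norm_mul]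
    exact mul_le_mul_of_nonneg_right (f.norm_coe_le_norm _) (norm_nonneg _)
  set L : C(Metric.closedBall (0 : ℂ) C, ℂ) →L[ℂ] ℂ := L0.mkContinuous _ hbd with hL
  have hL' : ∀ f, L f = ∫ θ, f (bb θ) * u θ ∂mu := fun f => rfl
  set Z : C(Metric.closedBall (0 : ℂ) C, ℂ) := (ContinuousMap.id ℂ).restrict (Metric.closedBall (0 : ℂ) C) with hZ
  have key : ∀ f : C(Metric.closedBall (0 : ℂ) C, ℂ), ∀ g' : C(Metric.closedBall (0 : ℂ) C, ℂ),
      (∀ n m : ℕ, L (g' * Z ^ n * star Z ^ m) = 0) → ∀ n m : ℕ, L (f * g' * Z ^ n * star Z ^ m) = 0 := by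
    intro f
    refine ContinuousMap.induction_on_of_compact (𝕜 := ℂ) (s := Metric.closedBall (0 : ℂ) C)
      (p := fun f => ∀ g' : C(Metric.closedBall (0 : ℂ) C, ℂ),
      (∀ n m : ℕ, L (g' * Z ^ n * star Z ^ m) = 0) → ∀ n m : ℕ, L (f * g' * Z ^ n * star Z ^ m) = 0)
      ?_ ?_ ?_ ?_ ?_ ?_ f
    · intro r g' h' n m
      have : (ContinuousMap.const (Metric.closedBall (0 : ℂ) C) r) * g' * Z ^ n * star Z ^ m =
          r • (g' * Z ^ n * star Z ^ m) := by
        ext x; simp [mul_assoc]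
      rw [this, map_smul, h', smul_zero]
    · intro g' h' n m
      have : Z * g' * Z ^ n * star Z ^ m = g' * Z ^ (n + 1) * star Z ^ m := by ring
      rw [← hZ, this, h']
    · intro g' h' n m
      have : star Z * g' * Z ^ n * star Z ^ m = g' * Z ^ n * star Z ^ (m + 1) := by ring
      rw [← hZ, this, h']
    · intro f1 f2 h1 h2 g' h' n m
      have : (f1 + f2) * g' * Z ^ n * star Z ^ m = f1 * g' * Z ^ n * star Z ^ m + f2 * g' * Z ^ n * star Z ^ m := by ring
      rw [this, map_add, h1 g' h', h2 g' h', add_zero]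
    · intro f1 f2 h1 h2 g' h' n m
      rw [mul_assoc f1 f2 g']
      exact h1 (f2 * g') (h2 g' h') n m
    · intro f0 hf0
      have hcl : IsClosed {f : C(Metric.closedBall (0 : ℂ) C, ℂ) | ∀ g' : C(Metric.closedBall (0 : ℂ) C, ℂ),
          (∀ n m : ℕ, L (g' * Z ^ n * star Z ^ m) = 0) → ∀ n m : ℕ, L (f * g' * Z ^ n * star Z ^ m) = 0} := by
        simp only [Set.ofPred_forall]
        refine isClosed_iInter fun g' => isClosed_iInter fun _ => isClosed_iInter fun n => isClosed_iInter fun m => ?_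
        exact isClosed_eq (by fun_prop) continuous_const
      have := mem_closure_iff_frequently.2 hf0
      exact hcl.closure_subset this
  set G : C(Metric.closedBall (0 : ℂ) C, ℂ) := ⟨fun x => (g x : ℂ), by fun_prop⟩ with hG
  have h1 := key G 1 (fun n m => by
    rw [hL']
    refine Eq.trans (integral_congr_ae (Eventually.of_forall fun θ => ?_)) (h n m)
    simp [hZ, hbb]) 0 0
  rw [hL'] at h1
  refine Eq.trans (integral_congr_ae (Eventually.of_forall fun θ => ?_)) h1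
  simp [hG, hbb]
-- END cont_zero
-- BEGIN cd_comp
/-- disintegration: `∫ f(b θ, θ) dmu = ∫ ∫ f(y, t) dcd_y(t) dν(y)`, `ν = mu.map b` (`compProd_map_condDistrib`, `Measure.integral_compProd`) -/
theorem cd_comp (b : ℝ → ℂ) (hb : Measurable b) (u : ℝ → ℂ) (hu : Integrable u mu) (g : ℂ → ℝ) (hg : Continuous g)
    (hg1 : HasCompactSupport g) :
    ∫ y, g y • (∫ t, u t ∂(cd b y)) ∂(mu.map b) = ∫ θ, g (b θ) • u θ ∂mu := by
  obtain ⟨K, hK⟩ := hg1.exists_bound_of_continuous hg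
  have hu2 : Integrable (fun x : ℂ × ℝ => u x.2) (mu.map fun θ => (b θ, θ)) :=
    Integrable.comp_snd_map_prodMk b hu
  have hf : Integrable (fun x : ℂ × ℝ => g x.1 • u x.2) (mu.map fun θ => (b θ, θ)) := by
    refine Integrable.mono' (hu2.norm.const_mul K)
      (((hg.comp continuous_fst).aestronglyMeasurable).smul hu2.1) (Filter.Eventually.of_forall fun x => ?_)
    rw [norm_smul]
    exact mul_le_mul_of_nonneg_right (hK _) (norm_nonneg _)
  have h1 : ∫ x, g x.1 • u x.2 ∂(mu.map fun θ => (b θ, θ)) = ∫ θ, g (b θ) • u θ ∂mu :=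
    integral_map (hb.prodMk measurable_id).aemeasurable hf.1
  have h2 : (mu.map b) ⊗ₘ cd b = mu.map fun θ => (b θ, θ) := by
    unfold cd
    exact compProd_map_condDistrib aemeasurable_id
  rw [← h1]
  rw [← h2] at hf ⊢
  rw [Measure.integral_compProd hf]
  refine integral_congr_ae (Filter.Eventually.of_forall fun y => ?_)
  exact (integral_smul _ _).symm
-- END cd_comp

-- BEGIN cd_zero
/-- `ae_eq_zero_of_integral_contDiff_smul_eq_zero` for the measure `mu.map b` on `ℂ` and `y ↦ ∫ u dcd_y` -/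
theorem cd_zero (b : ℝ → ℂ) (hb : Measurable b) (u : ℝ → ℂ) (hu : Integrable u mu)
    (h : ∀ g : ℂ → ℝ, Continuous g → ∫ θ, g (b θ) • u θ ∂mu = 0) :
    ∀ᵐ θ ∂mu, ∫ t, u t ∂(cd b (b θ)) = 0 := by
  have hu2 : Integrable (fun x : ℂ × ℝ => u x.2) (mu.map fun θ => (b θ, θ)) :=
    Integrable.comp_snd_map_prodMk b hu
  have hi : Integrable (fun y => ∫ t, u t ∂(cd b y)) (mu.map b) := by
    have := hu2.integral_condDistrib_map (Y := fun θ : ℝ => θ) (X := b) (μ := mu) aemeasurable_id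
    exact this
  have := ae_eq_zero_of_integral_contDiff_smul_eq_zero hi.locallyIntegrable
    (fun g hg hg1 => by rw [cd_comp b hb u hu g hg.continuous hg1, h g hg.continuous])
  exact ae_of_ae_map hb.aemeasurable this
-- END cd_zero

-- BEGIN cd_null
/-- null sets are not charged -/
theorem cd_null (b : ℝ → ℂ) (hb : Measurable b) (N : Set ℝ) (hN : mu N = 0) : ∀ᵐ θ ∂mu, cd b (b θ) N = 0 := by
  have h0 : MeasurableSet (toMeasurable mu N) := measurableSet_toMeasurable _ _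
  have h1 := setLIntegral_preimage_condDistrib (μ := mu) (X := b) (Y := fun θ : ℝ => θ) hb aemeasurable_id h0
    (t := Set.univ) MeasurableSet.univ
  rw [Set.preimage_univ, Set.univ_inter, Measure.restrict_univ] at h1
  have h2 : mu ((fun θ : ℝ => θ) ⁻¹' toMeasurable mu N) = 0 := by
    change mu (toMeasurable mu N) = 0
    rw [measure_toMeasurable, hN]
  have h3 : Measurable fun θ : ℝ => condDistrib (fun θ : ℝ => θ) b mu (b θ) (toMeasurable mu N) :=
    (Kernel.measurable_coe (condDistrib (fun θ : ℝ => θ) b mu) h0).comp hb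
  rw [h2, lintegral_eq_zero_iff h3] at h1
  filter_upwards [h1] with θ hθ
  unfold cd
  exact measure_mono_null (subset_toMeasurable mu N) hθ
-- END cd_null

-- BEGIN cd_fib
/-- carried by the fibre (`condDistrib_self`, `condDistrib_comp_self`-like: `(cd b).map b = Kernel.id` a.e.) -/
theorem cd_fib (b : ℝ → ℂ) (hb : Measurable b) : ∀ᵐ θ ∂mu, cd b (b θ) {t | b t ≠ b θ} = 0 := by
  have h1 : condDistrib (b ∘ fun θ : ℝ => θ) b mu =ᵐ[mu.map b] (condDistrib (fun θ : ℝ => θ) b mu).map b :=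
    condDistrib_comp b aemeasurable_id hb
  have h2 : condDistrib b b mu =ᵐ[mu.map b] Kernel.id := condDistrib_self b
  have h3 : ∀ᵐ y ∂(mu.map b), cd b y {t | b t ≠ y} = 0 := by
    filter_upwards [h1, h2] with y h1 h2
    have h4 : (cd b y).map b = Measure.dirac y := by
      unfold cd
      rw [← Kernel.map_apply _ hb, ← h1]
      change condDistrib b b mu y = _
      rw [h2, Kernel.id_apply]
    have h5 : (cd b y).map b {y}ᶜ = 0 := by
      rw [h4, Measure.dirac_apply' _ (measurableSet_singleton y).compl]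
      simp
    rw [Measure.map_apply hb (measurableSet_singleton y).compl] at h5
    exact h5
  exact ae_of_ae_map hb.aemeasurable h3
-- END cd_fib

-- BEGIN cd_meas
/-- the atom at `θ` depends measurably on `θ` (`Kernel.measurable_kernel_prodMk_left`-like) -/
theorem cd_meas (b : ℝ → ℂ) (hb : Measurable b) : Measurable fun θ : ℝ => cd b (b θ) {θ} := by
  have h := Kernel.measurable_kernel_prodMk_left (κ := (cd b).comap b hb) (t := {p : ℝ × ℝ | p.1 = p.2})
    (measurableSet_eq_fun measurable_fst measurable_snd)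
  have h1 : (fun θ : ℝ => cd b (b θ) {θ}) =
      fun a => ((cd b).comap b hb) a (Prod.mk a ⁻¹' {p : ℝ × ℝ | p.1 = p.2}) := by
    funext θ
    rw [Kernel.comap_apply]
    congr 1
    ext t
    simp [eq_comm]
  rw [h1]
  exact h
-- END cd_meas

-- BEGIN cd_set
/-- `mu (G ∩ b⁻¹ Y) = ∫_Y cd_y(G) dν(y)` (`setLIntegral_preimage_condDistrib` or `compProd_apply`) -/
theorem cd_set (b : ℝ → ℂ) (hb : Measurable b) (G : Set ℝ) (hG : MeasurableSet G) (Y : Set ℂ) (hY : MeasurableSet Y)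
    (h : ∀ y ∈ Y, cd b y G = 0) : mu (G ∩ b ⁻¹' Y) = 0 := by
  have h1 := setLIntegral_preimage_condDistrib (μ := mu) (X := b) (Y := fun θ : ℝ => θ) hb aemeasurable_id hG hY
  have h2 : ∫⁻ a in b ⁻¹' Y, cd b (b a) G ∂mu = mu (b ⁻¹' Y ∩ G) := by
    unfold cd; exact h1
  rw [Set.inter_comm, ← h2, setLIntegral_congr_fun (hb hY) (g := fun _ => 0) fun θ hθ => h _ hθ]
  simp
-- END cd_set

-- BEGIN cd_atom
/-- `θ` is an atom when the conditional measure has finite support: `G = {θ | cd_{b θ}{θ} = 0}`, `Y = {y | cd_y G = 0}`; if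
`y = b θ`, `cd_y` is carried by a finite set and by the fibre over `y`, then `cd_y G = 0`; `cd_set` -/
theorem cd_atom (b : ℝ → ℂ) (hb : Measurable b) :
    ∀ᵐ θ ∂mu, (∃ F : Finset ℝ, cd b (b θ) (F : Set ℝ)ᶜ = 0) → cd b (b θ) {θ} ≠ 0 := by
  have hG : MeasurableSet {θ : ℝ | cd b (b θ) {θ} = 0} := cd_meas b hb (measurableSet_singleton 0)
  have hY : MeasurableSet {y : ℂ | cd b y {θ : ℝ | cd b (b θ) {θ} = 0} = 0} :=
    (Kernel.measurable_coe (cd b) hG) (measurableSet_singleton 0)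
  have h0 := cd_set b hb _ hG _ hY (fun y hy => hy)
  have h1 : ∀ᵐ θ ∂mu, ¬ (θ ∈ {θ : ℝ | cd b (b θ) {θ} = 0} ∩ b ⁻¹' {y : ℂ | cd b y {θ : ℝ | cd b (b θ) {θ} = 0} = 0}) := by
    rw [ae_iff]
    refine measure_mono_null (fun θ hθ => ?_) h0
    exact not_not.1 hθ
  filter_upwards [h1, cd_fib b hb] with θ h1 h2 ⟨F, hF⟩ h3
  apply h1
  refine ⟨h3, ?_⟩
  change cd b (b θ) {s : ℝ | cd b (b s) {s} = 0} = 0
  have hsub : {s : ℝ | cd b (b s) {s} = 0} ⊆ ((F : Set ℝ)ᶜ ∪ {t | b t ≠ b θ}) ∪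
      ⋃ s ∈ F, {t | t = s ∧ cd b (b θ) {s} = 0} := by
    intro s hs
    by_cases c1 : s ∈ F
    · by_cases c2 : b s = b θ
      · right
        refine Set.mem_iUnion₂.2 ⟨s, c1, rfl, ?_⟩
        rw [← c2]; exact hs
      · left; right; exact c2
    · left; left; exact c1
  refine measure_mono_null hsub (measure_union_null (measure_union_null hF h2) ?_)
  refine (measure_biUnion_null_iff F.countable_toSet).2 fun s _ => ?_
  by_cases c : cd b (b θ) {s} = 0
  · refine measure_mono_null (fun t ht => ?_) c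
    exact ht.1
  · have : {t | t = s ∧ cd b (b θ) {s} = 0} = ∅ := by
      ext t; simp [c]
    rw [this, measure_empty]
-- END cd_atom

-- BEGIN fin_supp
/-- a probability measure carried by a finite set: the atoms `F`, with weights; integral = finite sum -/
theorem fin_supp (m : Measure ℝ) [IsProbabilityMeasure m] (F₀ : Finset ℝ) (h : m (F₀ : Set ℝ)ᶜ = 0) :
    ∃ F : Finset ℝ, F ⊆ F₀ ∧ (∀ t, t ∈ F ↔ m {t} ≠ 0) ∧ ∃ w : ℝ → ℝ, (∀ t ∈ F, 0 < w t) ∧
      ∀ u : ℝ → ℂ, Measurable u → ∫ t, u t ∂m = ∑ t ∈ F, (w t : ℂ) * u t := by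
  classical
  have h0 : ∀ t, t ∉ F₀ → m {t} = 0 := by
    intro t ht
    refine measure_mono_null ?_ h
    intro x hx
    rw [Set.mem_singleton_iff] at hx
    subst hx
    simpa using ht
  refine ⟨F₀.filter fun t => m {t} ≠ 0, Finset.filter_subset _ _, fun t => ?_, fun t => m.real {t}, fun t ht => ?_,
    fun u hu => ?_⟩
  · rw [Finset.mem_filter]
    refine ⟨fun h => h.2, fun h' => ⟨?_, h'⟩⟩
    by_contra hn
    exact h' (h0 t hn)
  · rw [Finset.mem_filter] at ht
    exact ENNReal.toReal_pos ht.2 (measure_ne_top _ _)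
  · have h1 : ∫ t, u t ∂m = ∫ t in (F₀ : Set ℝ), u t ∂m := by
      rw [Measure.restrict_eq_self_of_ae_mem]
      rw [ae_iff]
      exact h
    have h2 : IntegrableOn u (F₀ : Set ℝ) m := by
      refine Measure.integrableOn_of_bounded (M := ∑ t ∈ F₀, ‖u t‖) (measure_ne_top _ _) hu.aestronglyMeasurable ?_
      rw [ae_restrict_iff' F₀.measurableSet]
      exact Eventually.of_forall fun t ht => Finset.single_le_sum (f := fun t => ‖u t‖) (fun _ _ => norm_nonneg _) ht
    rw [h1, setIntegral_finset _ h2, Finset.sum_filter]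
    refine Finset.sum_congr rfl fun t _ => ?_
    by_cases ht : m {t} = 0
    · simp [ht, measureReal_def]
    · simp [ht]
-- END fin_supp
-- BEGIN fibre
/-- assembly: apply `cont_zero`, `cd_zero` to all `u i`, `cd_null` to `N ∪ {bd ≠ b} ∪ [0, 2π)ᶜ`, `cd_fib`, `cd_atom`, `fin_supp` -/
theorem fibre {ι : Type} [Countable ι] (bd b : ℝ → ℂ) (hb : Measurable b) (C : ℝ) (hC : ∀ θ, ‖b θ‖ ≤ C)
    (hbb : ∀ᵐ θ ∂mu, bd θ = b θ) (u : ι → ℝ → ℂ) (hm : ∀ i, Measurable (u i)) (hu : ∀ i, Integrable (u i) mu)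
    (h : ∀ i, ∀ n m : ℕ, ∫ θ, b θ ^ n * conj (b θ) ^ m * u i θ ∂mu = 0) (N : Set ℝ) (hN : mu N = 0) (E : Set ℝ)
    (hE : ∀ θ ∈ E, {t : ℝ | t ∈ Set.Ico 0 (2 * Real.pi) ∧ bd t = bd θ}.Finite) :
    ∀ᵐ θ ∂mu, θ ∈ E → ∃ F : Finset ℝ, θ ∈ F ∧ (∀ t ∈ F, t ∈ Set.Ico 0 (2 * Real.pi) ∧ t ∉ N) ∧
      ∃ w : ℝ → ℝ, (∀ t ∈ F, 0 < w t) ∧ ∀ i, ∑ t ∈ F, (w t : ℂ) * u i t = 0 := by
  have a1 : ∀ᵐ θ ∂mu, ∀ i, ∫ t, u i t ∂(cd b (b θ)) = 0 :=
    ae_all_iff.2 fun i => cd_zero b hb (u i) (hu i) fun g hg => cont_zero b hb C hC (u i) (hu i) (h i) g hg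
  have hico : mu (Set.Ico 0 (2 * Real.pi))ᶜ = 0 := by
    unfold mu
    rw [Measure.restrict_apply measurableSet_Ico.compl, Set.compl_inter_self, measure_empty]
  have hN2 : mu (N ∪ {θ | ¬ bd θ = b θ} ∪ (Set.Ico 0 (2 * Real.pi))ᶜ) = 0 :=
    measure_union_null (measure_union_null hN hbb) hico
  filter_upwards [a1, cd_null b hb _ hN2, cd_fib b hb, cd_atom b hb, hbb] with θ h1 h2 h3 h4 h5 hθE
  have hfin := hE θ hθE
  have hF0 : cd b (b θ) (hfin.toFinset : Set ℝ)ᶜ = 0 := by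
    refine measure_mono_null (?_ : _ ⊆ (N ∪ {θ | ¬ bd θ = b θ} ∪ (Set.Ico 0 (2 * Real.pi))ᶜ) ∪ {t | b t ≠ b θ})
      (measure_union_null h2 h3)
    intro t ht
    rw [Set.Finite.coe_toFinset] at ht
    by_cases c1 : t ∈ Set.Ico 0 (2 * Real.pi)
    · by_cases c2 : bd t = b t
      · right
        intro c3
        exact ht ⟨c1, by rw [c2, c3, h5]⟩
      · left; left; right; exact c2
    · left; right; exact c1
  obtain ⟨F, hF1, hF2, w, hw1, hw2⟩ := fin_supp (cd b (b θ)) hfin.toFinset hF0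
  refine ⟨F, (hF2 θ).2 (h4 ⟨_, hF0⟩), fun t ht => ?_, w, hw1, fun i => ?_⟩
  · have hne := (hF2 t).1 ht
    have hnot : t ∉ (N ∪ {θ | ¬ bd θ = b θ} ∪ (Set.Ico 0 (2 * Real.pi))ᶜ) := fun hc =>
      hne (measure_mono_null (Set.singleton_subset_iff.2 hc) h2)
    refine ⟨?_, fun hc => hnot (Or.inl (Or.inl hc))⟩
    by_contra hc
    exact hnot (Or.inr hc)
  · rw [← hw2 (u i) (hm i)]
    exact h1 i
-- END fibre

end Nrd
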