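import Pool.Agent.Nrd.Defs

/-! ## Function theory in the disc: division, finite Blaschke products, factorisation -/

set_option autoImplicit false

namespace Nrd

open MeasureTheory Filter Topology
open scoped ComplexConjugate

-- BEGIN bl_den
theorem bl_den {a z : ℂ} (ha : a ∈ D) (hz : z ∈ D) : 1 - conj a * z ≠ 0 := by
  intro h
  rw [mem_D] at ha hz
  have h1 : ‖conj a * z‖ = 1 := by rw [← sub_eq_zero.1 h, norm_one]
  rw [norm_mul, Complex.norm_conj] at h1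
  nlinarith [norm_nonneg a, norm_nonneg z]
-- END bl_den

-- BEGIN bl_lt
/-- `|1 - ā z|² - |z - a|² = (1 - |a|²)(1 - |z|²)` -/
theorem bl_lt {a z : ℂ} (ha : a ∈ D) (hz : z ∈ D) : ‖z - a‖ < ‖1 - conj a * z‖ ∧ ‖bl a z‖ < 1 := by
  have h0 := bl_den ha hz
  rw [mem_D] at ha hz
  have h1 : ‖z - a‖ < ‖1 - conj a * z‖ := by
    have hsq : ‖1 - conj a * z‖ ^ 2 - ‖z - a‖ ^ 2 = (1 - ‖a‖ ^ 2) * (1 - ‖z‖ ^ 2) := by
      simp only [← Complex.normSq_eq_norm_sq, Complex.normSq_apply]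
      simp
      ring
    have hpos : 0 < (1 - ‖a‖ ^ 2) * (1 - ‖z‖ ^ 2) := by
      apply mul_pos <;> nlinarith [norm_nonneg a, norm_nonneg z]
    have : ‖z - a‖ ^ 2 < ‖1 - conj a * z‖ ^ 2 := by linarith
    exact lt_of_pow_lt_pow_left₀ 2 (norm_nonneg _) this
  refine ⟨h1, ?_⟩
  unfold bl
  rw [norm_div, div_lt_one (norm_pos_iff.2 h0)]
  exact h1
-- END bl_lt

-- BEGIN bl_symm
theorem bl_symm (a z : ℂ) : ‖bl a z‖ = ‖bl z a‖ := by
  unfold bl
  rw [norm_div, norm_div, norm_sub_rev z a]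
  congr 1
  rw [← Complex.norm_conj (1 - conj a * z)]
  simp [mul_comm]
-- END bl_symm

-- BEGIN bl_diff
theorem bl_diff {a : ℂ} (ha : a ∈ D) : DifferentiableOn ℂ (bl a) D := by
  unfold bl
  refine DifferentiableOn.div (by fun_prop) (by fun_prop) fun z hz => bl_den ha hz
-- END bl_diff

-- BEGIN bl_zero
theorem bl_zero {a z : ℂ} (ha : a ∈ D) (hz : z ∈ D) : bl a z = 0 ↔ z = a := by
  unfold bl
  rw [div_eq_zero_iff, or_iff_left (bl_den ha hz), sub_eq_zero]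
-- END bl_zero

-- BEGIN bl_inv
/-- the inverse of `bl a` is `bl (-a)` -/
theorem bl_inv {a z : ℂ} (ha : a ∈ D) (hz : z ∈ D) : bl (-a) (bl a z) = z ∧ bl a (bl (-a) z) = z := by
  have hna : -a ∈ D := by rw [mem_D, norm_neg]; exact mem_D.1 ha
  have key : ∀ a ∈ D, bl (-a) (bl a z) = z := by
    intro a ha
    have h0 := bl_den ha hz
    have h3 := bl_den ha ha
    unfold bl
    have h4 : 1 - conj (-a) * ((z - a) / (1 - conj a * z)) = (1 - conj a * a) / (1 - conj a * z) := by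
      rw [map_neg, eq_div_iff h0, sub_mul, mul_assoc, div_mul_cancel₀ _ h0]; ring
    have h5 : (z - a) / (1 - conj a * z) - -a = z * (1 - conj a * a) / (1 - conj a * z) := by
      rw [eq_div_iff h0, sub_mul, div_mul_cancel₀ _ h0]; ring
    rw [h4, h5, div_div_div_cancel_right₀ h0, mul_div_cancel_right₀ _ h3]
  refine ⟨key a ha, ?_⟩
  have := key (-a) hna
  rwa [neg_neg] at this
-- END bl_inv

-- BEGIN div_lem
private theorem div_lem_iso (d : ℂ → ℂ) (hd : DifferentiableOn ℂ d D) (h0 : ∃ z ∈ D, d z ≠ 0) {z : ℂ} (hz : z ∈ D) :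
    ∀ᶠ w in 𝓝[≠] z, d w ≠ 0 := by
  have hD : IsOpen D := Metric.isOpen_ball
  have han : AnalyticOnNhd ℂ d D := hd.analyticOnNhd hD
  rcases (han z hz).eventually_eq_zero_or_eventually_ne_zero with h | h
  · exfalso
    obtain ⟨u, hu, hu0⟩ := h0
    have := han.eqOn_zero_of_preconnected_of_eventuallyEq_zero (convex_ball (0 : ℂ) 1).isPreconnected hz h
    exact hu0 (this hu)
  · exact h

/-- bounded quotients of analytic functions are analytic: removable singularities at the (isolated) zeros of `d`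
(`Complex.differentiableOn_update_limUnder_of_bddAbove`) -/
theorem div_lem (f d : ℂ → ℂ) (hf : DifferentiableOn ℂ f D) (hd : DifferentiableOn ℂ d D) (h0 : ∃ z ∈ D, d z ≠ 0)
    (h : ∀ z ∈ D, ‖f z‖ ≤ ‖d z‖) :
    ∃ g : ℂ → ℂ, DifferentiableOn ℂ g D ∧ (∀ z ∈ D, ‖g z‖ ≤ 1) ∧ ∀ z ∈ D, f z = g z * d z := by
  classical
  have hD : IsOpen D := Metric.isOpen_ball
  let q : ℂ → ℂ := fun w => f w / d w
  let g : ℂ → ℂ := fun z => limUnder (𝓝[≠] z) q
  have hq1 : ∀ z ∈ D, ‖q z‖ ≤ 1 := by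
    intro z hz
    change ‖f z / d z‖ ≤ 1
    rw [norm_div]
    exact div_le_one_of_le₀ (h z hz) (norm_nonneg _)
  have hgq : ∀ z ∈ D, d z ≠ 0 → g z = q z := by
    intro z hz hz0
    have hc : ContinuousAt q z := by
      have h1 : ContinuousAt f z := (hf.differentiableAt (hD.mem_nhds hz)).continuousAt
      have h2 : ContinuousAt d z := (hd.differentiableAt (hD.mem_nhds hz)).continuousAt
      exact h1.div h2 hz0
    exact (hc.tendsto.mono_left nhdsWithin_le_nhds).limUnder_eq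
  have hgd : ∀ z ∈ D, DifferentiableAt ℂ g z := by
    intro z hz
    have h1 := div_lem_iso d hd h0 hz
    rw [eventually_nhdsWithin_iff] at h1
    obtain ⟨ε, hε, hb⟩ := Metric.eventually_nhds_iff_ball.1 (h1.and (hD.mem_nhds hz))
    have hBn : Metric.ball z ε ∈ 𝓝 z := Metric.ball_mem_nhds z hε
    have hqd : DifferentiableOn ℂ q (Metric.ball z ε \ {z}) := by
      intro w hw
      have hwb := hb w hw.1
      have hw0 : d w ≠ 0 := hwb.1 hw.2
      have h2 := hf.differentiableAt (hD.mem_nhds hwb.2)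
      have h3 := hd.differentiableAt (hD.mem_nhds hwb.2)
      exact (h2.div h3 hw0).differentiableWithinAt
    have hbd : BddAbove (norm ∘ q '' (Metric.ball z ε \ {z})) := by
      refine ⟨1, ?_⟩
      rintro _ ⟨w, hw, rfl⟩
      exact hq1 w (hb w hw.1).2
    have hup := Complex.differentiableOn_update_limUnder_of_bddAbove hBn hqd hbd
    have heq : ∀ w ∈ Metric.ball z ε, g w = Function.update q z (limUnder (𝓝[≠] z) q) w := by
      intro w hw
      by_cases hwz : w = z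
      · subst hwz
        simp [g]
      · rw [Function.update_of_ne hwz]
        exact hgq w (hb w hw).2 ((hb w hw).1 hwz)
    exact ((hup.congr heq).differentiableAt hBn)
  have hg1 : ∀ z ∈ D, ‖g z‖ ≤ 1 := by
    intro z hz
    have h1 := div_lem_iso d hd h0 hz
    have h2 : ∀ᶠ w in 𝓝[≠] z, ‖g w‖ ≤ 1 := by
      filter_upwards [h1, nhdsWithin_le_nhds (hD.mem_nhds hz)] with w hw hwD
      rw [hgq w hwD hw]
      exact hq1 w hwD
    have h3 : Tendsto (fun w => ‖g w‖) (𝓝[≠] z) (𝓝 ‖g z‖) :=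
      ((hgd z hz).continuousAt.norm.tendsto).mono_left nhdsWithin_le_nhds
    exact le_of_tendsto h3 h2
  refine ⟨g, fun z hz => (hgd z hz).differentiableWithinAt, hg1, fun z hz => ?_⟩
  by_cases hz0 : d z = 0
  · have h1 := h z hz
    rw [hz0, norm_zero] at h1
    rw [hz0, mul_zero]
    exact norm_le_zero_iff.1 h1
  · rw [hgq z hz hz0]
    exact (div_mul_cancel₀ _ hz0).symm
-- END div_lem
-- BEGIN schw0
/-- Schwarz-Pick at a zero: apply the Schwarz lemma to `f ∘ bl (-w)` (closed ball version: apply it to `ρ f`, `ρ < 1`) -/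
theorem schw0 (f : ℂ → ℂ) (hf : DifferentiableOn ℂ f D) (h1 : ∀ z ∈ D, ‖f z‖ ≤ 1) {w : ℂ} (hw : w ∈ D) (h0 : f w = 0) :
    ∀ z ∈ D, ‖f z‖ ≤ ‖bl w z‖ := by
  intro z hz
  have hnw : -w ∈ D := by rw [mem_D, norm_neg]; exact mem_D.1 hw
  have hmap : Set.MapsTo (bl (-w)) D D := fun u hu => mem_D.2 (bl_lt hnw hu).2
  have h00 : bl (-w) 0 = w := by
    unfold bl
    rw [mul_zero, sub_zero, div_one, zero_sub, neg_neg]
  have hu : bl w z ∈ D := mem_D.2 (bl_lt hw hz).2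
  have h2 : DifferentiableOn ℂ (fun u => f (bl (-w) u)) D := hf.comp (bl_diff hnw) hmap
  have h3 : Set.MapsTo (fun u => f (bl (-w) u)) D (Metric.closedBall 0 1) := by
    intro u hu
    rw [mem_closedBall_zero_iff]
    exact h1 _ (hmap hu)
  have h4 : (fun u => f (bl (-w) u)) 0 = 0 := by
    show f (bl (-w) 0) = 0
    rw [h00, h0]
  have h5 := Complex.norm_le_norm_of_mapsTo_ball h2 h3 h4 (mem_D.1 hu)
  have h6 : bl (-w) (bl w z) = z := (bl_inv hw hz).1
  rwa [h6] at h5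
-- END schw0
-- BEGIN schw
/-- induction on `R`, `schw0` and `div_lem` -/
theorem schw (R : Finset ℂ) (hR : (R : Set ℂ) ⊆ D) (f : ℂ → ℂ) (hf : DifferentiableOn ℂ f D)
    (h1 : ∀ z ∈ D, ‖f z‖ ≤ 1) (h0 : ∀ t ∈ R, f t = 0) :
    ∃ g : ℂ → ℂ, DifferentiableOn ℂ g D ∧ (∀ z ∈ D, ‖g z‖ ≤ 1) ∧ ∀ z ∈ D, f z = (∏ t ∈ R, bl t z) * g z := by
  classical
  induction R using Finset.induction_on generalizing f with
  | empty => exact ⟨f, hf, h1, fun z _ => by rw [Finset.prod_empty, one_mul]⟩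
  | insert w R hwR ih =>
    have hw : w ∈ D := hR (Finset.mem_coe.2 (Finset.mem_insert_self w R))
    have hR' : (R : Set ℂ) ⊆ D := fun t ht => hR (Finset.mem_coe.2 (Finset.mem_insert_of_mem ht))
    have h2 := schw0 f hf h1 hw (h0 w (Finset.mem_insert_self w R))
    have h3 : ∃ z ∈ D, bl w z ≠ 0 := by
      by_cases hw0 : w = 0
      · refine ⟨1 / 2, ?_, ?_⟩
        · rw [mem_D]
          norm_num
        · have h5 : (1 / 2 : ℂ) ∈ D := by
            rw [mem_D]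
            norm_num
          rw [Ne, bl_zero hw h5, hw0]
          norm_num
      · have h5 : (0 : ℂ) ∈ D := by rw [mem_D, norm_zero]; exact one_pos
        refine ⟨0, h5, ?_⟩
        rw [Ne, bl_zero hw h5]
        exact fun h => hw0 h.symm
    obtain ⟨g, g1, g2, g3⟩ := div_lem f (bl w) hf (bl_diff hw) h3 h2
    have h4 : ∀ t ∈ R, g t = 0 := by
      intro t ht
      have h5 : t ≠ w := fun h => hwR (h ▸ ht)
      have h6 := g3 t (hR' ht)
      rw [h0 t (Finset.mem_insert_of_mem ht)] at h6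
      exact (mul_eq_zero.1 h6.symm).resolve_right fun h => h5 ((bl_zero hw (hR' ht)).1 h)
    obtain ⟨k, k1, k2, k3⟩ := ih hR' g g1 g2 h4
    refine ⟨k, k1, k2, fun z hz => ?_⟩
    rw [Finset.prod_insert hwR, g3 z hz, k3 z hz]
    ring
-- END schw
/-- the finite Blaschke product with simple zeros `R` -/
noncomputable def BP (R : Finset ℂ) (z : ℂ) : ℂ := ∏ t ∈ R, bl t z

-- BEGIN BP_basic
theorem BP_basic (R : Finset ℂ) (hR : (R : Set ℂ) ⊆ D) (hne : R.Nonempty) :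
    DifferentiableOn ℂ (BP R) D ∧ ∀ z ∈ D, BP R z ∈ D := by
  refine ⟨?_, fun z hz => ?_⟩
  · unfold BP
    exact DifferentiableOn.fun_finsetProd fun t ht => bl_diff (hR ht)
  · rw [mem_D]
    unfold BP
    rw [norm_prod]
    obtain ⟨s, hs⟩ := hne
    rw [← Finset.mul_prod_erase R _ hs]
    refine mul_lt_one_of_nonneg_of_lt_one_left (norm_nonneg _) (bl_lt (hR hs) hz).2 ?_
    exact Finset.prod_le_one (fun _ _ => norm_nonneg _) fun t ht => (bl_lt (hR (Finset.mem_of_mem_erase ht)) hz).2.le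
-- END BP_basic

-- BEGIN BP_fib
/-- `BP R z = w` is a polynomial equation of degree `|R|` (leading coefficient `1 - w ∏ (-conj t) ≠ 0`): at most `|R|` solutions -/
theorem BP_fib (R : Finset ℂ) (hR : (R : Set ℂ) ⊆ D) (hne : R.Nonempty) {w : ℂ} (hw : w ∈ D) (Q : Finset ℂ)
    (hQ : ∀ z ∈ Q, z ∈ D ∧ BP R z = w) : Q.card ≤ R.card := by
  classical
  set P : Polynomial ℂ := (∏ t ∈ R, (Polynomial.X - Polynomial.C t)) -
    Polynomial.C w * ∏ t ∈ R, (1 - Polynomial.C (conj t) * Polynomial.X) with hP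
  have hev : ∀ z, P.eval z = (∏ t ∈ R, (z - t)) - w * ∏ t ∈ R, (1 - conj t * z) := by
    intro z
    rw [hP, Polynomial.eval_sub, Polynomial.eval_mul, Polynomial.eval_C, Polynomial.eval_prod,
      Polynomial.eval_prod]
    simp only [Polynomial.eval_sub, Polynomial.eval_X, Polynomial.eval_C, Polynomial.eval_mul,
      Polynomial.eval_one]
  have hroot : ∀ z ∈ Q, P.eval z = 0 := by
    intro z hz
    obtain ⟨h1, h2⟩ := hQ z hz
    have h3 : ∏ t ∈ R, (1 - conj t * z) ≠ 0 :=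
      Finset.prod_ne_zero_iff.2 fun t ht => bl_den (hR ht) h1
    rw [hev, sub_eq_zero, ← h2]
    unfold BP bl
    rw [Finset.prod_div_distrib, div_mul_cancel₀ _ h3]
  have hP0 : P ≠ 0 := by
    intro h0
    obtain ⟨s, hs⟩ := hne
    have h1 : ∏ t ∈ R, (s - t) = 0 := Finset.prod_eq_zero hs (sub_self s)
    have h2 := hev s
    rw [h0, Polynomial.eval_zero, h1, zero_sub] at h2
    have h3 : ∏ t ∈ R, (1 - conj t * s) ≠ 0 :=
      Finset.prod_ne_zero_iff.2 fun t ht => bl_den (hR ht) (hR hs)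
    have hw0 : w = 0 := (mul_eq_zero.1 (neg_eq_zero.1 h2.symm)).resolve_right h3
    rw [hP, hw0, Polynomial.C_0, zero_mul, sub_zero] at h0
    exact (Polynomial.monic_prod_of_monic R _ fun t _ => Polynomial.monic_X_sub_C t).ne_zero h0
  have hdeg : P.natDegree ≤ R.card := by
    refine (Polynomial.natDegree_sub_le _ _).trans (max_le ?_ ?_)
    · refine (Polynomial.natDegree_prod_le _ _).trans (le_of_eq ?_)
      rw [Finset.sum_congr rfl fun t _ => Polynomial.natDegree_X_sub_C t, Finset.sum_const,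
        smul_eq_mul, mul_one]
    · refine (Polynomial.natDegree_C_mul_le _ _).trans
        ((Polynomial.natDegree_prod_le _ _).trans ?_)
      calc ∑ t ∈ R, (1 - Polynomial.C (conj t) * Polynomial.X : Polynomial ℂ).natDegree
          ≤ ∑ t ∈ R, 1 := by
            refine Finset.sum_le_sum fun t _ => ?_
            refine (Polynomial.natDegree_sub_le _ _).trans (max_le ?_ ?_)
            · rw [Polynomial.natDegree_one]
              exact Nat.zero_le _
            · refine (Polynomial.natDegree_C_mul_le _ _).trans ?_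
              exact Polynomial.natDegree_X_le
        _ = R.card := by rw [Finset.sum_const, smul_eq_mul, mul_one]
  have hsub : Q ⊆ P.roots.toFinset := fun z hz =>
    Multiset.mem_toFinset.2 ((Polynomial.mem_roots hP0).2 (hroot z hz))
  exact (Finset.card_le_card hsub).trans ((Multiset.toFinset_card_le _).trans
    ((Polynomial.card_roots' P).trans hdeg))
-- END BP_fib
-- BEGIN BP_surj
private theorem BP_surj_sq (t x : ℂ) : ‖x - t‖ ^ 2 - ‖1 - conj t * x‖ ^ 2 = (‖x‖ ^ 2 - 1) * (1 - ‖t‖ ^ 2) := by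
  simp only [← Complex.normSq_eq_norm_sq, Complex.normSq_apply]
  simp
  ring

/-- the polynomial has a root `x`; `|x| ≥ 1` is impossible (`|x - t| ≥ |1 - conj t x|` there) -/
theorem BP_surj (R : Finset ℂ) (hR : (R : Set ℂ) ⊆ D) (hne : R.Nonempty) {w : ℂ} (hw : w ∈ D) :
    ∃ z ∈ D, BP R z = w := by
  classical
  have hw1 : ‖w‖ < 1 := mem_D.1 hw
  have hR1 : ∀ t ∈ R, ‖t‖ < 1 := fun t ht => mem_D.1 (hR ht)
  let p : Polynomial ℂ := ∏ t ∈ R, (Polynomial.X - Polynomial.C t)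
  let q : Polynomial ℂ := ∏ t ∈ R, (1 - Polynomial.C (conj t) * Polynomial.X)
  have hpc : p.coeff R.card = 1 := by
    have h := Polynomial.coeff_prod_of_natDegree_le R (fun t : ℂ => (Polynomial.X - Polynomial.C t : Polynomial ℂ)) 1
      (fun t _ => Polynomial.natDegree_X_sub_C_le t)
    rw [mul_one] at h
    rw [h]
    refine Finset.prod_eq_one fun t _ => ?_
    simp
  have hqc : q.coeff R.card = ∏ t ∈ R, (-conj t) := by
    have h := Polynomial.coeff_prod_of_natDegree_le R (fun t : ℂ => (1 - Polynomial.C (conj t) * Polynomial.X : Polynomial ℂ)) 1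
      (fun t _ => by
        refine (Polynomial.natDegree_sub_le _ _).trans (max_le (by simp) ?_)
        exact (Polynomial.natDegree_C_mul_le _ _).trans Polynomial.natDegree_X_le)
    rw [mul_one] at h
    rw [h]
    refine Finset.prod_congr rfl fun t _ => ?_
    simp [Polynomial.coeff_one]
  have hprod : ‖∏ t ∈ R, (-conj t)‖ ≤ 1 := by
    rw [norm_prod]
    refine Finset.prod_le_one (fun _ _ => norm_nonneg _) fun t ht => ?_
    rw [norm_neg, Complex.norm_conj]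
    exact (hR1 t ht).le
  have hcoef : (p - Polynomial.C w * q).coeff R.card ≠ 0 := by
    rw [Polynomial.coeff_sub, Polynomial.coeff_C_mul, hpc, hqc]
    intro h
    have h2 : ‖w * ∏ t ∈ R, (-conj t)‖ = 1 := by rw [← sub_eq_zero.1 h, norm_one]
    rw [norm_mul] at h2
    nlinarith [norm_nonneg w, norm_nonneg (∏ t ∈ R, (-conj t))]
  have hdeg : 0 < (p - Polynomial.C w * q).degree := by
    have h1 : R.card ≤ (p - Polynomial.C w * q).natDegree := Polynomial.le_natDegree_of_ne_zero hcoef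
    have h2 : 0 < R.card := Finset.card_pos.2 hne
    exact Polynomial.natDegree_pos_iff_degree_pos.1 (h2.trans_le h1)
  obtain ⟨x, hx⟩ := Complex.exists_root hdeg
  have hx1 : ∏ t ∈ R, (x - t) = w * ∏ t ∈ R, (1 - conj t * x) := by
    have h := hx
    rw [Polynomial.IsRoot.def, Polynomial.eval_sub, Polynomial.eval_mul, Polynomial.eval_C, sub_eq_zero] at h
    simpa [p, q, Polynomial.eval_prod] using h
  have hxD : x ∈ D := by
    rw [mem_D]
    by_contra hge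
    push Not at hge
    have hle : ∀ t ∈ R, ‖1 - conj t * x‖ ≤ ‖x - t‖ := by
      intro t ht
      have h1 := BP_surj_sq t x
      have h2 := hR1 t ht
      have h3 : 0 ≤ (‖x‖ ^ 2 - 1) * (1 - ‖t‖ ^ 2) := by
        apply mul_nonneg <;> nlinarith [norm_nonneg t, norm_nonneg x]
      exact le_of_sq_le_sq (by linarith) (norm_nonneg _)
    have h4 : ‖∏ t ∈ R, (1 - conj t * x)‖ ≤ ‖∏ t ∈ R, (x - t)‖ := by
      rw [norm_prod, norm_prod]
      exact Finset.prod_le_prod (fun _ _ => norm_nonneg _) hle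
    have h5 : 0 < ‖∏ t ∈ R, (x - t)‖ := by
      rw [norm_pos_iff, Finset.prod_ne_zero_iff]
      intro t ht h0
      have : x = t := sub_eq_zero.1 h0
      rw [this] at hge
      exact absurd (hR1 t ht) (not_lt.2 hge)
    have h6 : ‖∏ t ∈ R, (x - t)‖ = ‖w‖ * ‖∏ t ∈ R, (1 - conj t * x)‖ := by rw [hx1, norm_mul]
    have h7 := norm_nonneg (∏ t ∈ R, (1 - conj t * x))
    nlinarith [norm_nonneg w]
  refine ⟨x, hxD, ?_⟩
  unfold BP bl
  rw [Finset.prod_div_distrib, hx1, mul_div_cancel_right₀]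
  exact Finset.prod_ne_zero_iff.2 fun t ht => bl_den (hR ht) hxD
-- END BP_surj
-- BEGIN BP_nonconst
theorem BP_nonconst (R : Finset ℂ) (hR : (R : Set ℂ) ⊆ D) (hne : R.Nonempty) : ¬ ∃ c, ∀ z ∈ D, BP R z = c := by
  rintro ⟨c, hc⟩
  obtain ⟨z, hz, h1⟩ := BP_surj R hR hne (w := 0) (by simp)
  obtain ⟨w, hw, h2⟩ := BP_surj R hR hne (w := 1 / 2) (by rw [mem_D]; norm_num)
  rw [hc z hz] at h1
  rw [hc w hw, h1] at h2
  norm_num at h2
-- END BP_nonconst

-- BEGIN open_D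
/-- open mapping (`AnalyticOnNhd.is_constant_or_isOpen`) -/
theorem open_D (B : ℂ → ℂ) (hB : DifferentiableOn ℂ B D) (hn : ¬ ∃ c, ∀ z ∈ D, B z = c) (U : Set ℂ) (hU : IsOpen U)
    (hUD : U ⊆ D) : IsOpen (B '' U) := by
  have h1 : AnalyticOnNhd ℂ B D := hB.analyticOnNhd Metric.isOpen_ball
  rcases h1.is_constant_or_isOpen (convex_ball (0 : ℂ) 1).isPreconnected with h | h
  · exact absurd h hn
  · exact h U hUD hU
-- END open_D
-- BEGIN fac_const
/-- if `φ` is constant on the fibres of `B` through a dense set, then on all fibres (`open_D`, continuity) -/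
theorem fac_const (B φ : ℂ → ℂ) (hB : DifferentiableOn ℂ B D) (hn : ¬ ∃ c, ∀ z ∈ D, B z = c)
    (hφ : DifferentiableOn ℂ φ D) (G : Set ℂ) (hG : G ⊆ D) (hG1 : D ⊆ closure G)
    (h : ∀ z ∈ G, ∀ t ∈ D, B t = B z → φ t = φ z) : ∀ z ∈ D, ∀ t ∈ D, B t = B z → φ t = φ z := by
  intro z hz t ht htz
  by_contra hne
  obtain ⟨O1, O2, h1, h2, m1, m2, hd⟩ := t2_separation hne
  have hD : IsOpen D := Metric.isOpen_ball
  have hV : IsOpen (D ∩ φ ⁻¹' O1) := hφ.continuousOn.isOpen_inter_preimage hD h1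
  have hU : IsOpen (D ∩ φ ⁻¹' O2) := hφ.continuousOn.isOpen_inter_preimage hD h2
  have hBV : IsOpen (B '' (D ∩ φ ⁻¹' O1)) := open_D B hB hn _ hV Set.inter_subset_left
  have hW : IsOpen (D ∩ B ⁻¹' (B '' (D ∩ φ ⁻¹' O1))) := hB.continuousOn.isOpen_inter_preimage hD hBV
  have hX : IsOpen ((D ∩ φ ⁻¹' O2) ∩ (D ∩ B ⁻¹' (B '' (D ∩ φ ⁻¹' O1)))) := hU.inter hW
  have hzX : z ∈ (D ∩ φ ⁻¹' O2) ∩ (D ∩ B ⁻¹' (B '' (D ∩ φ ⁻¹' O1))) :=
    ⟨⟨hz, m2⟩, hz, t, ⟨ht, m1⟩, htz⟩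
  obtain ⟨g, ⟨⟨hgD, hg2⟩, -, v, ⟨hvD, hv1⟩, hvg⟩, hgG⟩ := mem_closure_iff.1 (hG1 hz) _ hX hzX
  have h3 := h g hgG v hvD hvg
  refine Set.disjoint_left.1 hd hv1 ?_
  show φ v ∈ O2
  rw [h3]
  exact hg2
-- END fac_const
-- BEGIN crit_countable
/-- critical values -/
theorem crit_countable (B : ℂ → ℂ) (hB : DifferentiableOn ℂ B D) (hn : ¬ ∃ c, ∀ z ∈ D, B z = c) :
    (B '' {z | z ∈ D ∧ deriv B z = 0}).Countable := by
  refine Set.Countable.image ?_ _
  have hD : IsOpen D := Metric.isOpen_ball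
  have hDp : IsPreconnected D := (convex_ball (0 : ℂ) 1).isPreconnected
  have h1 : AnalyticOnNhd ℂ B D := hB.analyticOnNhd hD
  have h2 : AnalyticOnNhd ℂ (deriv B) D := h1.deriv
  have h3 : DiscreteTopology {z | z ∈ D ∧ deriv B z = 0} := by
    rw [discreteTopology_subtype_iff]
    rintro z ⟨hz, hz'⟩
    rcases (h2 z hz).eventually_eq_zero_or_eventually_ne_zero with h4 | h4
    · exfalso
      have h5 : Set.EqOn (deriv B) 0 D := h2.eqOn_zero_of_preconnected_of_eventuallyEq_zero hDp hz h4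
      exact hn ⟨B 0, fun w hw => hD.is_const_of_deriv_eq_zero hDp hB h5 hw (by simp)⟩
    · rw [Filter.inf_principal_eq_bot]
      filter_upwards [h4] with w hw
      rintro ⟨-, hw'⟩
      exact hw hw'
  rw [← Set.countable_coe_iff]
  exact (TopologicalSpace.separableSpace_iff_countable).1 inferInstance
-- END crit_countable
-- BEGIN fac_cont
/-- `ψ` is continuous: `ψ⁻¹(U) ∩ D = B(φ⁻¹(U) ∩ D)` is open -/
theorem fac_cont (B φ ψ : ℂ → ℂ) (hB : DifferentiableOn ℂ B D) (hn : ¬ ∃ c, ∀ z ∈ D, B z = c)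
    (hφ : DifferentiableOn ℂ φ D) (hBD : ∀ z ∈ D, B z ∈ D) (hs : ∀ w ∈ D, ∃ z ∈ D, B z = w)
    (h : ∀ z ∈ D, φ z = ψ (B z)) : ContinuousOn ψ D := by
  have hD : IsOpen D := Metric.isOpen_ball
  rw [continuousOn_open_iff hD]
  intro O hO
  have h1 : IsOpen (B '' (D ∩ φ ⁻¹' O)) :=
    open_D B hB hn _ (hφ.continuousOn.isOpen_inter_preimage hD hO) Set.inter_subset_left
  have h2 : D ∩ ψ ⁻¹' O = B '' (D ∩ φ ⁻¹' O) := by
    ext w
    constructor
    · rintro ⟨hw, hw'⟩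
      obtain ⟨z, hz, rfl⟩ := hs w hw
      refine ⟨z, ⟨hz, ?_⟩, rfl⟩
      show φ z ∈ O
      rw [h z hz]
      exact hw'
    · rintro ⟨z, ⟨hz, hz'⟩, rfl⟩
      refine ⟨hBD z hz, ?_⟩
      show ψ (B z) ∈ O
      rw [← h z hz]
      exact hz'
  rw [h2]
  exact h1
-- END fac_cont
-- BEGIN fac_diff
/-- `ψ` is differentiable at `B z` when `B' z ≠ 0` (local inverse: `HasStrictDerivAt.localInverse` /
`HasStrictDerivAt.to_localInverse`) -/
theorem fac_diff (B φ ψ : ℂ → ℂ) (hB : DifferentiableOn ℂ B D) (hφ : DifferentiableOn ℂ φ D)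
    (hBD : ∀ z ∈ D, B z ∈ D) (h : ∀ z ∈ D, φ z = ψ (B z)) {z : ℂ} (hz : z ∈ D) (hd : deriv B z ≠ 0) :
    DifferentiableAt ℂ ψ (B z) := by
  have hD : IsOpen D := Metric.isOpen_ball
  have h1 : HasStrictDerivAt B (deriv B z) z :=
    ((hB.analyticOnNhd hD) z hz).hasStrictDerivAt
  have h2 := h1.hasStrictFDerivAt_equiv hd
  have h3 := h2.eventually_right_inverse
  have h4 := h2.localInverse_apply_image
  have h5 := h2.localInverse_continuousAt
  have h6 : DifferentiableAt ℂ (h2.localInverse _ _ _) (B z) :=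
    h2.to_localInverse.hasFDerivAt.differentiableAt
  have h7 : DifferentiableAt ℂ φ (h2.localInverse _ _ _ (B z)) := by
    rw [h4]
    exact hφ.differentiableAt (hD.mem_nhds hz)
  refine (h7.comp (B z) h6).congr_of_eventuallyEq ?_
  have h8 : ∀ᶠ y in 𝓝 (B z), h2.localInverse _ _ _ y ∈ D :=
    h5.eventually (by rw [h4]; exact hD.mem_nhds hz)
  filter_upwards [h3, h8] with y hy hy'
  show ψ y = φ (h2.localInverse _ _ _ y)
  rw [h _ hy', hy]
-- END fac_diff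
-- BEGIN fac
/-- factorisation: `ψ` is continuous, differentiable off a countable set
(`Complex.hasFPowerSeriesOnBall_of_differentiable_off_countable`) -/
theorem fac (B φ : ℂ → ℂ) (hB : DifferentiableOn ℂ B D) (hn : ¬ ∃ c, ∀ z ∈ D, B z = c)
    (hφ : DifferentiableOn ℂ φ D) (C : ℝ) (hC : ∀ z ∈ D, ‖φ z‖ ≤ C) (hBD : ∀ z ∈ D, B z ∈ D)
    (hs : ∀ w ∈ D, ∃ z ∈ D, B z = w) (h : ∀ z ∈ D, ∀ t ∈ D, B t = B z → φ t = φ z) :
    ∃ ψ : ℂ → ℂ, DifferentiableOn ℂ ψ D ∧ (∀ w ∈ D, ‖ψ w‖ ≤ C) ∧ ∀ z ∈ D, φ z = ψ (B z) := by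
  classical
  have hD : IsOpen D := Metric.isOpen_ball
  let ψ : ℂ → ℂ := fun w => if hw : w ∈ D then φ (hs w hw).choose else 0
  have hψ : ∀ z ∈ D, φ z = ψ (B z) := by
    intro z hz
    have h1 := (hs (B z) (hBD z hz)).choose_spec
    simp only [ψ, dif_pos (hBD z hz)]
    exact (h z hz _ h1.1 h1.2).symm
  have hcont := fac_cont B φ ψ hB hn hφ hBD hs hψ
  refine ⟨ψ, ?_, ?_, hψ⟩
  · intro w hw
    obtain ⟨r, hr, hrD⟩ := Metric.nhds_basis_closedBall.mem_iff.1 (hD.mem_nhds hw)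
    lift r to NNReal using hr.le
    have h1 := Complex.hasFPowerSeriesOnBall_of_differentiable_off_countable (R := r) (c := w) (f := ψ)
      (crit_countable B hB hn) (hcont.mono hrD) (fun v hv => ?_) (by exact_mod_cast hr)
    · exact h1.differentiableOn.differentiableAt (Metric.eball_mem_nhds w (by exact_mod_cast hr)) |>.differentiableWithinAt
    · obtain ⟨z, hz, rfl⟩ := hs v (hrD (Metric.ball_subset_closedBall hv.1))
      refine fac_diff B φ ψ hB hφ hBD hψ hz fun hd => hv.2 ⟨z, ⟨hz, hd⟩, rfl⟩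
  · intro w hw
    obtain ⟨z, hz, rfl⟩ := hs w hw
    rw [← hψ z hz]
    exact hC z hz
-- END fac
/-- an abstract system of classes -/
structure Cla (φ : ℂ → ℂ) (G : Set ℂ) (c : ℂ → Finset ℂ) (κ : ℕ) : Prop where
  sub : G ⊆ D
  dense : D ⊆ closure G
  one : 1 ≤ κ
  card : ∀ z ∈ G, (c z).card = κ
  self : ∀ z ∈ G, z ∈ c z
  cl : ∀ z ∈ G, ∀ t ∈ c z, t ∈ G ∧ c t = c z ∧ φ t = φ z
  ana : ∀ a ∈ D, ∃ h : ℂ → ℂ, DifferentiableOn ℂ h D ∧ (∀ z ∈ D, ‖h z‖ ≤ 1) ∧ ∀ z ∈ G, h z = ∏ t ∈ c z, bl a t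

section
variable {φ : ℂ → ℂ} {G : Set ℂ} {c : ℂ → Finset ℂ} {κ : ℕ}

-- BEGIN le_sym
/-- Schwarz: `|h_a(z)| ≤ ∏_{t ∈ c a} |bl t z|` (`schw`; `h_a` vanishes on `c a`) -/
theorem le_sym (hc : Cla φ G c κ) {a z : ℂ} (ha : a ∈ G) (hz : z ∈ G) :
    ∏ t ∈ c z, ‖bl a t‖ ≤ ∏ t ∈ c a, ‖bl t z‖ := by
  obtain ⟨h, h1, h2, h3⟩ := hc.ana a (hc.sub ha)
  have hca : ((c a : Finset ℂ) : Set ℂ) ⊆ D := fun t ht => hc.sub (hc.cl a ha t ht).1
  have h0 : ∀ t ∈ c a, h t = 0 := by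
    intro t ht
    obtain ⟨g1, g2, g3⟩ := hc.cl a ha t ht
    rw [h3 t g1, g2]
    exact Finset.prod_eq_zero (hc.self a ha) ((bl_zero (hc.sub ha) (hc.sub ha)).2 rfl)
  obtain ⟨g, g1, g2, g3⟩ := schw (c a) hca h h1 h2 h0
  rw [← norm_prod, ← h3 z hz, g3 z (hc.sub hz), norm_mul, norm_prod]
  exact mul_le_of_le_one_right (Finset.prod_nonneg fun _ _ => norm_nonneg _) (g2 z (hc.sub hz))
-- END le_sym

-- BEGIN eq_sym
/-- `le_sym` twice and `bl_symm` -/
theorem eq_sym (hc : Cla φ G c κ) {a z : ℂ} (ha : a ∈ G) (hz : z ∈ G) :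
    ∏ t ∈ c z, ‖bl a t‖ = ∏ t ∈ c a, ‖bl t z‖ := by
  refine le_antisymm (le_sym hc ha hz) ?_
  calc ∏ t ∈ c a, ‖bl t z‖ = ∏ t ∈ c a, ‖bl z t‖ := Finset.prod_congr rfl fun t _ => bl_symm t z
    _ ≤ ∏ t ∈ c z, ‖bl t a‖ := le_sym hc hz ha
    _ = ∏ t ∈ c z, ‖bl a t‖ := Finset.prod_congr rfl fun t _ => bl_symm t a
-- END eq_sym

-- BEGIN h_eq
/-- `h_a = BP (c a) g`, `|g| ≤ 1`, `|g| = 1` at some point (a point of `G` outside `c a`), so `g` is constant (maximum principle) -/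
theorem h_eq (hc : Cla φ G c κ) {a : ℂ} (ha : a ∈ G) :
    ∃ u : ℂ, ‖u‖ = 1 ∧ ∀ z ∈ G, ∏ t ∈ c z, bl a t = u * BP (c a) z := by
  obtain ⟨h, h1, h2, h3⟩ := hc.ana a (hc.sub ha)
  have hca : ((c a : Finset ℂ) : Set ℂ) ⊆ D := fun t ht => hc.sub (hc.cl a ha t ht).1
  have h0 : ∀ t ∈ c a, h t = 0 := by
    intro t ht
    obtain ⟨g1, g2, g3⟩ := hc.cl a ha t ht
    rw [h3 t g1, g2]
    exact Finset.prod_eq_zero (hc.self a ha) ((bl_zero (hc.sub ha) (hc.sub ha)).2 rfl)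
  obtain ⟨g, g1, g2, g3⟩ := schw (c a) hca h h1 h2 h0
  -- a point of `G` outside `c a`
  have hex : ∃ z ∈ G, z ∉ c a := by
    by_contra hcon
    push Not at hcon
    have h4 : (D : Set ℂ) ⊆ (c a : Set ℂ) := by
      have h5 : closure G ⊆ closure ((c a : Finset ℂ) : Set ℂ) := closure_mono fun z hz => hcon z hz
      rw [(c a).finite_toSet.isClosed.closure_eq] at h5
      exact hc.dense.trans h5
    have h5 : (D : Set ℂ).Finite := (c a).finite_toSet.subset h4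
    exact (infinite_of_mem_nhds (0 : ℂ) (Metric.ball_mem_nhds 0 one_pos)) h5
  obtain ⟨z0, hz0, hz0c⟩ := hex
  have hz0D := hc.sub hz0
  have hB0 : ∏ t ∈ c a, bl t z0 ≠ 0 := by
    refine Finset.prod_ne_zero_iff.2 fun t ht h4 => hz0c ?_
    rw [(bl_zero (hca ht) hz0D).1 h4]
    exact ht
  have hg0 : ‖g z0‖ = 1 := by
    have h4 := eq_sym hc ha hz0
    have h5 : ‖h z0‖ = ‖∏ t ∈ c a, bl t z0‖ := by
      rw [h3 z0 hz0, norm_prod, norm_prod, h4]
    rw [g3 z0 hz0D, norm_mul] at h5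
    have h6 : ‖∏ t ∈ c a, bl t z0‖ ≠ 0 := norm_ne_zero_iff.2 hB0
    have h7 : ‖∏ t ∈ c a, bl t z0‖ * ‖g z0‖ = ‖∏ t ∈ c a, bl t z0‖ * 1 := by rw [h5, mul_one]
    exact mul_left_cancel₀ h6 h7
  have hconst : Set.EqOn g (Function.const ℂ (g z0)) D := by
    refine Complex.eqOn_of_isPreconnected_of_isMaxOn_norm
      (convex_ball (0 : ℂ) 1).isPreconnected Metric.isOpen_ball g1 hz0D fun z hz => ?_
    show ‖g z‖ ≤ ‖g z0‖
    rw [hg0]
    exact g2 z hz
  refine ⟨g z0, hg0, fun z hz => ?_⟩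
  rw [← h3 z hz, g3 z (hc.sub hz), hconst (hc.sub hz), mul_comm]
  rfl
-- END h_eq
-- BEGIN BP_cls
theorem BP_cls (hc : Cla φ G c κ) {a z t : ℂ} (ha : a ∈ G) (hz : z ∈ G) (ht : t ∈ c z) : BP (c a) t = BP (c a) z := by
  obtain ⟨u, hu, h⟩ := h_eq hc ha
  obtain ⟨h1, h2, h3⟩ := hc.cl z hz t ht
  have e1 := h t h1
  rw [h2, h z hz] at e1
  have hu0 : u ≠ 0 := by intro h0; rw [h0, norm_zero] at hu; exact zero_ne_one hu
  exact (mul_left_cancel₀ hu0 e1).symm
-- END BP_cls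

-- BEGIN BP_phi
/-- the fibre of `BP (c a)` through `z ∈ G` is `c z` (`BP_fib`: it has at most `κ` points) -/
theorem BP_phi (hc : Cla φ G c κ) {a z t : ℂ} (ha : a ∈ G) (hz : z ∈ G) (ht : t ∈ D) (h : BP (c a) t = BP (c a) z) :
    φ t = φ z := by
  classical
  by_cases htz : t ∈ c z
  · exact (hc.cl z hz t htz).2.2
  · exfalso
    have hca : ((c a : Finset ℂ) : Set ℂ) ⊆ D := fun t ht => hc.sub (hc.cl a ha t ht).1
    have hne : (c a).Nonempty := ⟨a, hc.self a ha⟩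
    have := BP_fib (c a) hca hne ((BP_basic (c a) hca hne).2 z (hc.sub hz)) (insert t (c z)) (by
      intro s hs
      rcases Finset.mem_insert.1 hs with rfl | hs
      · exact ⟨ht, h⟩
      · exact ⟨hc.sub (hc.cl z hz s hs).1, BP_cls hc ha hz hs⟩)
    rw [Finset.card_insert_of_notMem htz, hc.card z hz, hc.card a ha] at this
    omega
-- END BP_phi

-- BEGIN geom
/-- assembly: `B = BP (c a)` for any `a ∈ G`, `fac_const`, `fac`; enumerate `c a` by `Fin κ` -/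
theorem geom (hc : Cla φ G c κ) (hφ : DifferentiableOn ℂ φ D) (C : ℝ) (hC : ∀ z ∈ D, ‖φ z‖ ≤ C) :
    ∃ a : Fin κ → ℂ, (∀ i, ‖a i‖ < 1) ∧ ∃ ψ : ℂ → ℂ, DifferentiableOn ℂ ψ D ∧ (∀ w ∈ D, ‖ψ w‖ ≤ C) ∧
      ∀ z ∈ D, φ z = ψ (∏ i, (z - a i) / (1 - conj (a i) * z)) := by
  obtain ⟨a, ha⟩ : G.Nonempty := by
    by_contra h
    rw [Set.not_nonempty_iff_eq_empty] at h
    have := hc.dense (show (0 : ℂ) ∈ D by simp)
    rw [h, closure_empty] at this
    exact this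
  have hca : ((c a : Finset ℂ) : Set ℂ) ⊆ D := fun t ht => hc.sub (hc.cl a ha t ht).1
  have hne : (c a).Nonempty := ⟨a, hc.self a ha⟩
  obtain ⟨b1, b2⟩ := BP_basic (c a) hca hne
  have hn := BP_nonconst (c a) hca hne
  obtain ⟨ψ, h1, h2, h3⟩ := fac (BP (c a)) φ b1 hn hφ C hC b2 (fun w hw => BP_surj (c a) hca hne hw)
    (fac_const (BP (c a)) φ b1 hn hφ G hc.sub hc.dense fun z hz t ht h => BP_phi hc ha hz ht h)
  let eq : Fin κ ≃ (c a) := ((c a).equivFinOfCardEq (hc.card a ha)).symm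
  refine ⟨fun i => (eq i : ℂ), fun i => mem_D.1 (hca (eq i).2), ψ, h1, h2, fun z hz => ?_⟩
  rw [h3 z hz]
  congr 1
  unfold BP
  rw [← Finset.prod_coe_sort (c a) (fun t => bl t z)]
  exact (Fintype.prod_equiv eq _ _ fun i => rfl).symm
-- END geom

end

end Nrd
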