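import Pool.Agent.Nrd.Wrd

/-! ## The interior: the cyclic spaces `L_z` and the classes -/

set_option autoImplicit false

namespace Nrd

open MeasureTheory Filter Topology
open scoped ComplexConjugate InnerProductSpace

/-- the smallest space containing the kernel and invariant under `P` and the backward shift -/
noncomputable def L (P : H →L[ℂ] H) (z : ℂ) : Submodule ℂ H :=
  Submodule.span ℂ (Set.range fun l : List Bool => opA P l (ker z))

-- BEGIN L_ker
theorem L_ker (P : H →L[ℂ] H) (z : ℂ) : ker z ∈ L P z :=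
  Submodule.subset_span ⟨[], rfl⟩
-- END L_ker

-- BEGIN L_inv
theorem L_inv (P : H →L[ℂ] H) (z : ℂ) {v : H} (hv : v ∈ L P z) : P v ∈ L P z ∧ Sd v ∈ L P z := by
  have hP : L P z ≤ (L P z).comap (P : H →ₗ[ℂ] H) := by
    refine Submodule.span_le.2 ?_
    rintro _ ⟨l, rfl⟩
    exact Submodule.subset_span ⟨true :: l, rfl⟩
  have hS : L P z ≤ (L P z).comap (Sd : H →ₗ[ℂ] H) := by
    refine Submodule.span_le.2 ?_
    rintro _ ⟨l, rfl⟩
    exact Submodule.subset_span ⟨false :: l, rfl⟩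
  exact ⟨hP hv, hS hv⟩
-- END L_inv

-- BEGIN L_min
theorem L_min (P : H →L[ℂ] H) (t : ℂ) (W : Submodule ℂ H) (hP : ∀ v ∈ W, P v ∈ W) (hS : ∀ v ∈ W, Sd v ∈ W)
    (hk : ker t ∈ W) : L P t ≤ W := by
  refine Submodule.span_le.2 ?_
  rintro _ ⟨l, rfl⟩
  change opA P l (ker t) ∈ W
  induction l with
  | nil => exact hk
  | cons x l ih =>
    cases x with
    | true => exact hP _ ih
    | false => exact hS _ ih
-- END L_min

-- BEGIN zeros_countable
/-- zeros of analytic functions are countable (isolated, `D` is second countable) -/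
theorem zeros_countable (f : ℂ → ℂ) (hf : DifferentiableOn ℂ f D) (h : ∃ z ∈ D, f z ≠ 0) :
    {z | z ∈ D ∧ f z = 0}.Countable := by
  have hD : IsOpen D := Metric.isOpen_ball
  have hA : AnalyticOnNhd ℂ f D := hf.analyticOnNhd hD
  have hpc : IsPreconnected D := (convex_ball (0 : ℂ) 1).isPreconnected
  obtain ⟨w, hw, hfw⟩ := h
  have hdisc : DiscreteTopology {z | z ∈ D ∧ f z = 0} := by
    rw [discreteTopology_subtype_iff]
    intro x hx
    rw [Filter.inf_principal_eq_bot]
    rcases (hA x hx.1).eventually_eq_zero_or_eventually_ne_zero with h0 | h0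
    · exact absurd (hA.eqOn_zero_of_preconnected_of_eventuallyEq_zero hpc hx.1 h0 hw) hfw
    · filter_upwards [h0] with z hz hz2
      exact hz hz2.2
  exact Set.countable_coe_iff.1 countable_of_Lindelof_of_discrete
-- END zeros_countable
-- BEGIN ent_diff
/-- minors are analytic -/
theorem ent_diff (P : H →L[ℂ] H) (l : List Bool) (n : ℕ) : DifferentiableOn ℂ (ent P l n) D := ev_diff _
-- END ent_diff

-- BEGIN ent_inner
theorem ent_inner (P : H →L[ℂ] H) (hP : ∀ a b : H, ⟪P a, b⟫_ℂ = ⟪a, P b⟫_ℂ) {z : ℂ} (hz : z ∈ D) (l : List Bool) (n : ℕ) :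
    ent P l n z = ⟪opA P l (ker z), e n⟫_ℂ := by
  rw [op_adj P hP, inner_ker hz]; rfl
-- END ent_inner

-- BEGIN minor_ne
/-- independent vectors have a nonzero minor: the columns `(⟪v i, e n⟫)_i` span `ℂ^N` (a functional which kills them all gives a
relation between the `v i`), choose a basis among them -/
theorem minor_ne {N : ℕ} (v : Fin N → H) (hv : LinearIndependent ℂ v) :
    ∃ n : Fin N → ℕ, (Matrix.of fun i j => ⟪v i, e (n j)⟫_ℂ).det ≠ 0 := by
  classical
  obtain ⟨col, hcol⟩ : ∃ col : ℕ → (Fin N → ℂ), col = fun m i => ⟪v i, e m⟫_ℂ := ⟨_, rfl⟩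
  have hspan : Submodule.span ℂ (Set.range col) = ⊤ := by
    by_contra hne
    obtain ⟨f, hf0, hf⟩ := Submodule.exists_le_ker_of_lt_top _ (lt_top_iff_ne_top.2 hne)
    have hfcol : ∀ m, f (col m) = 0 := fun m => hf (Submodule.subset_span ⟨m, rfl⟩)
    have hfc : ∀ x : Fin N → ℂ, f x = ∑ i, f (Pi.single i 1) * x i := by
      intro x
      have hx : x = ∑ i, x i • (Pi.single i (1 : ℂ) : Fin N → ℂ) := by
        ext j
        rw [Finset.sum_apply, Finset.sum_eq_single j]
        · simp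
        · intro i _ hij
          simp [Pi.single_eq_of_ne (Ne.symm hij)]
        · intro hj
          exact absurd (Finset.mem_univ j) hj
      conv_lhs => rw [hx]
      rw [map_sum]
      refine Finset.sum_congr rfl fun i _ => ?_
      rw [map_smul, smul_eq_mul, mul_comm]
    have hz : ∑ i, conj (f (Pi.single i 1)) • v i = 0 := by
      ext m
      rw [← inner_e, inner_sum]
      have h1 : ∑ i, ⟪e m, conj (f (Pi.single i 1)) • v i⟫_ℂ =
          conj (∑ i, f (Pi.single i 1) * ⟪v i, e m⟫_ℂ) := by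
        rw [map_sum]
        refine Finset.sum_congr rfl fun i _ => ?_
        rw [inner_smul_right, map_mul, inner_conj_symm]
      rw [h1]
      have h2 : ∑ i, f (Pi.single i 1) * ⟪v i, e m⟫_ℂ = f (col m) := by
        rw [hfc (col m), hcol]
      rw [h2, hfcol, map_zero]
      rfl
    have h3 := Fintype.linearIndependent_iff.1 hv _ hz
    apply hf0
    refine LinearMap.ext fun x => ?_
    rw [hfc x, LinearMap.zero_apply]
    refine Finset.sum_eq_zero fun i _ => ?_
    have h4 : f (Pi.single i 1) = 0 := by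
      have h5 := h3 i
      rwa [map_eq_zero] at h5
    rw [h4, zero_mul]
  obtain ⟨κ, a, -, hsp, hli⟩ := exists_linearIndependent' ℂ col
  rw [hspan] at hsp
  have hfin : Finite κ := hli.finite
  have hft : Fintype κ := Fintype.ofFinite κ
  have hcard : Fintype.card κ = N := by
    have h1 := finrank_span_eq_card hli
    rw [hsp, finrank_top, Module.finrank_fin_fun] at h1
    exact h1.symm
  obtain ⟨σ⟩ : Nonempty (Fin N ≃ κ) := ⟨(Fintype.equivFinOfCardEq hcard).symm⟩
  refine ⟨fun j => a (σ j), ?_⟩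
  have h2 : LinearIndependent ℂ (Matrix.of fun i j => ⟪v i, e (a (σ j))⟫_ℂ).col := by
    have h3 := hli.comp σ σ.injective
    have h4 : (Matrix.of fun i j => ⟪v i, e (a (σ j))⟫_ℂ).col = (col ∘ a) ∘ σ := by
      ext j i
      rw [hcol]
      rfl
    rw [h4]
    exact h3
  have h5 := Matrix.linearIndependent_cols_iff_isUnit.1 h2
  exact ((Matrix.isUnit_iff_isUnit_det _).1 h5).ne_zero
-- END minor_ne
-- BEGIN L_fin
/-- if all minors of size `N + 1` vanish at `z`, then `dim L_z ≤ N` (`minor_ne`; a span whose generating family has no `N + 1`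
independent members) -/
theorem L_fin (P : H →L[ℂ] H) (hP : ∀ a b : H, ⟪P a, b⟫_ℂ = ⟪a, P b⟫_ℂ) {z : ℂ} (hz : z ∈ D) (N : ℕ)
    (h : ∀ (l : Fin (N + 1) → List Bool) (n : Fin (N + 1) → ℕ), (Matrix.of fun i j => ent P (l i) (n j) z).det = 0) :
    FiniteDimensional ℂ (L P z) ∧ Module.finrank ℂ (L P z) ≤ N := by
  classical
  obtain ⟨κ, a, -, hsp, hli⟩ := exists_linearIndependent' ℂ (fun l : List Bool => opA P l (ker z))
  have hno : ¬ ∃ s : Fin (N + 1) → κ, Function.Injective s := by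
    rintro ⟨s, hs⟩
    obtain ⟨n, hn⟩ := minor_ne _ (hli.comp s hs)
    apply hn
    rw [← h (fun i => a (s i)) n]
    congr 1
    ext i j
    rw [Matrix.of_apply, Matrix.of_apply, ent_inner P hP hz]
    rfl
  have hfin : Finite κ := by
    by_contra hc
    rw [not_finite_iff_infinite] at hc
    refine hno ⟨fun i => Infinite.natEmbedding κ i, fun i j hij => ?_⟩
    exact Fin.ext ((Infinite.natEmbedding κ).injective hij)
  have hft : Fintype κ := Fintype.ofFinite κ
  have hcard : Fintype.card κ ≤ N := by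
    by_contra hc
    push Not at hc
    refine hno ⟨fun i => (Fintype.equivFin κ).symm (Fin.castLE hc i), fun i j hij => ?_⟩
    have h1 := (Fintype.equivFin κ).symm.injective hij
    exact Fin.castLE_injective hc h1
  have hL : L P z = Submodule.span ℂ (Set.range ((fun l : List Bool => opA P l (ker z)) ∘ a)) :=
    hsp.symm
  rw [hL]
  exact ⟨FiniteDimensional.span_of_finite ℂ (Set.finite_range _),
    (finrank_span_eq_card hli).le.trans hcard⟩
-- END L_fin
-- BEGIN L_low
/-- a nonzero minor of size `N` gives `N ≤ dim L_z` -/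
theorem L_low (P : H →L[ℂ] H) (hP : ∀ a b : H, ⟪P a, b⟫_ℂ = ⟪a, P b⟫_ℂ) {z : ℂ} (hz : z ∈ D) (N : ℕ)
    (l : Fin N → List Bool) (n : Fin N → ℕ) (h : (Matrix.of fun i j => ent P (l i) (n j) z).det ≠ 0)
    [FiniteDimensional ℂ (L P z)] : N ≤ Module.finrank ℂ (L P z) := by
  let v : Fin N → L P z := fun i => ⟨opA P (l i) (ker z), Submodule.subset_span ⟨l i, rfl⟩⟩
  have hv : LinearIndependent ℂ v := by
    rw [Fintype.linearIndependent_iff]
    intro g hg
    have h1 : ∑ i, g i • opA P (l i) (ker z) = 0 := by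
      have := congrArg (Subtype.val) hg
      simpa [v] using this
    have h2 : Matrix.vecMul (fun i => conj (g i)) (Matrix.of fun i j => ent P (l i) (n j) z) = 0 := by
      funext j
      have h3 : ⟪∑ i, g i • opA P (l i) (ker z), e (n j)⟫_ℂ = 0 := by rw [h1, inner_zero_left]
      rw [sum_inner] at h3
      change ∑ i, conj (g i) * ent P (l i) (n j) z = 0
      rw [← h3]
      refine Finset.sum_congr rfl fun i _ => ?_
      rw [inner_smul_left, ent_inner P hP hz]
    have h4 := Matrix.eq_zero_of_vecMul_eq_zero h h2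
    intro i
    have := congrFun h4 i
    simpa using this
  have := hv.fintype_card_le_finrank
  rwa [Fintype.card_fin] at this
-- END L_low

-- BEGIN kappa
/-- the largest size of a minor which is not identically zero (`≥ 1`: `ent P [] 0 = 1`; vanishing at size `N` implies vanishing
at size `N + 1` by expansion along a row) -/
theorem kappa (P : H →L[ℂ] H)
    (h : ∃ N : ℕ, ∀ (l : Fin N → List Bool) (n : Fin N → ℕ), ∀ z ∈ D, (Matrix.of fun i j => ent P (l i) (n j) z).det = 0) :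
    ∃ (κ : ℕ) (l : Fin κ → List Bool) (n : Fin κ → ℕ), 1 ≤ κ ∧
      (∃ z ∈ D, (Matrix.of fun i j => ent P (l i) (n j) z).det ≠ 0) ∧
      ∀ (l' : Fin (κ + 1) → List Bool) (n' : Fin (κ + 1) → ℕ), ∀ z ∈ D,
        (Matrix.of fun i j => ent P (l' i) (n' j) z).det = 0 := by
  classical
  have h0 : (0 : ℂ) ∈ D := by simp
  have hN := Nat.find_spec h
  have hmin := fun m hm => Nat.find_min h (m := m) hm
  set N := Nat.find h with hNdef
  have hN2 : 2 ≤ N := by
    by_contra hlt
    have h01 : N = 0 ∨ N = 1 := by omega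
    rcases h01 with h1 | h1
    · rw [h1] at hN
      have := hN (fun i => i.elim0) (fun i => i.elim0) 0 h0
      simp at this
    · rw [h1] at hN
      have := hN (fun _ => []) (fun _ => 0) 0 h0
      rw [Matrix.det_fin_one] at this
      change ev (opB P [] (e 0)) 0 = 0 at this
      change ev (e 0) 0 = 0 at this
      rw [ev_e, pow_zero] at this
      exact one_ne_zero this
  obtain ⟨κ, hκ⟩ : ∃ κ, N = κ + 1 := ⟨N - 1, by omega⟩
  have hk := hmin κ (by omega)
  push Not at hk
  obtain ⟨l, n, z, hz, hne⟩ := hk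
  rw [hκ] at hN
  exact ⟨κ, l, n, by omega, ⟨z, hz, hne⟩, hN⟩
-- END kappa

/-- the standing hypotheses of the interior part -/
structure Dat (φ : ℂ → ℂ) (P : H →L[ℂ] H) (T : H → H) (κ : ℕ) (l : Fin κ → List Bool) (n : Fin κ → ℕ) : Prop where
  dφ : DifferentiableOn ℂ φ D
  nc : ¬ ∃ c, ∀ z ∈ D, φ z = c
  sym : ∀ a b : H, ⟪P a, b⟫_ℂ = ⟪a, P b⟫_ℂ
  idem : ∀ a : H, P (P a) = P a
  hT : ∀ a, ∀ z ∈ D, φ z * ev a z = ev (T a) z
  hPT : ∀ a, P (T a) = T (P a)
  one : 1 ≤ κ
  ne : ∃ z ∈ D, (Matrix.of fun i j => ent P (l i) (n j) z).det ≠ 0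
  van : ∀ (l' : Fin (κ + 1) → List Bool) (n' : Fin (κ + 1) → ℕ), ∀ z ∈ D,
    (Matrix.of fun i j => ent P (l' i) (n' j) z).det = 0

/-- the exceptional points -/
def Bad (φ : ℂ → ℂ) (P : H →L[ℂ] H) {κ : ℕ} (l : Fin κ → List Bool) (n : Fin κ → ℕ) : Set ℂ :=
  {z | z ∈ D ∧ ((Matrix.of fun i j => ent P (l i) (n j) z).det = 0 ∨ deriv φ z = 0)}

/-- the generic points -/
def Gen (φ : ℂ → ℂ) (P : H →L[ℂ] H) {κ : ℕ} (l : Fin κ → List Bool) (n : Fin κ → ℕ) : Set ℂ :=
  {z | z ∈ D ∧ ∀ t ∈ Bad φ P l n, φ z ≠ φ t}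

/-- the class of `z` -/
def cls (P : H →L[ℂ] H) (z : ℂ) : Set ℂ := {t | t ∈ D ∧ ker t ∈ L P z}

open Classical in
/-- the class as a finite set -/
noncomputable def cf (P : H →L[ℂ] H) (z : ℂ) : Finset ℂ := if h : (cls P z).Finite then h.toFinset else ∅

section
variable {φ : ℂ → ℂ} {P : H →L[ℂ] H} {T : H → H} {κ : ℕ} {l : Fin κ → List Bool} {n : Fin κ → ℕ}

-- BEGIN T_one
/-- `T (e 0)` has the function `φ`; `S` commutes with `T` (`ev_inj`, `ev_S`) -/
theorem T_one (hd : Dat φ P T κ l n) : (∀ z ∈ D, ev (T (e 0)) z = φ z) ∧ ∀ a, S (T a) = T (S a) := by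
  refine ⟨fun z hz => ?_, fun a => ev_inj fun z hz => ?_⟩
  · rw [← hd.hT _ z hz, ev_e, pow_zero, mul_one]
  · rw [ev_S hz, ← hd.hT _ z hz, ← hd.hT _ z hz, ev_S hz]; ring
-- END T_one

-- BEGIN L_T
/-- `op_T`, `op_adj`, `inner_ker`, span induction -/
theorem L_T (hd : Dat φ P T κ l n) {z : ℂ} (hz : z ∈ D) {v : H} (hv : v ∈ L P z) (a : H) :
    ⟪v, T a⟫_ℂ = φ z * ⟪v, a⟫_ℂ := by
  induction hv using Submodule.span_induction with
  | mem x hx =>
    obtain ⟨m, rfl⟩ := hx
    change ⟪opA P m (ker z), T a⟫_ℂ = φ z * ⟪opA P m (ker z), a⟫_ℂ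
    rw [op_adj P hd.sym, op_adj P hd.sym, inner_ker hz, inner_ker hz, op_T P T hd.hPT (T_one hd).2, hd.hT _ z hz]
  | zero => simp
  | add x y _ _ hx hy => rw [inner_add_left, inner_add_left, hx, hy]; ring
  | smul c x _ hx => rw [inner_smul_left, inner_smul_left, hx]; ring
-- END L_T

-- BEGIN cls_phi
theorem cls_phi (hd : Dat φ P T κ l n) {z t : ℂ} (hz : z ∈ D) (ht : t ∈ cls P z) : φ t = φ z := by
  have h := L_T hd hz ht.2 (e 0)
  rw [inner_ker ht.1, inner_ker ht.1, (T_one hd).1 t ht.1, ev_e, pow_zero, mul_one] at h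
  exact h
-- END cls_phi

-- BEGIN Bad_countable
/-- `zeros_countable` for the minor and for `deriv φ` (not identically zero, since `φ` is not constant) -/
theorem Bad_countable (hd : Dat φ P T κ l n) : (Bad φ P l n).Countable := by
  have hdet : DifferentiableOn ℂ
      (fun z => (Matrix.of fun i j => ent P (l i) (n j) z).det) D := by
    simp only [Matrix.det_apply, Matrix.of_apply]
    refine DifferentiableOn.fun_sum fun σ _ => ?_
    refine DifferentiableOn.const_smul ?_ _
    exact DifferentiableOn.fun_finsetProd fun i _ => ent_diff P _ _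
  have h1 := zeros_countable _ hdet hd.ne
  have h2 : {z | z ∈ D ∧ deriv φ z = 0}.Countable := by
    refine zeros_countable _ (hd.dφ.deriv Metric.isOpen_ball) ?_
    by_contra hcon
    push Not at hcon
    refine hd.nc ⟨φ 0, fun z hz => ?_⟩
    exact Metric.isOpen_ball.is_const_of_deriv_eq_zero
      (convex_ball (0 : ℂ) 1).isPreconnected hd.dφ (fun x hx => hcon x hx) hz
      (Metric.mem_ball_self zero_lt_one)
  refine (h1.union h2).mono ?_
  rintro z ⟨hz, h | h⟩
  · exact Or.inl ⟨hz, h⟩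
  · exact Or.inr ⟨hz, h⟩
-- END Bad_countable
-- BEGIN Gen_co
/-- a countable union of level sets of `φ` -/
theorem Gen_co (hd : Dat φ P T κ l n) : (D \ Gen φ P l n).Countable := by
  have h1 : (⋃ t ∈ Bad φ P l n, {z | z ∈ D ∧ φ z - φ t = 0}).Countable := by
    refine (Bad_countable hd).biUnion fun t _ => ?_
    refine zeros_countable _ (hd.dφ.sub_const _) ?_
    by_contra hcon
    push Not at hcon
    exact hd.nc ⟨φ t, fun z hz => sub_eq_zero.1 (hcon z hz)⟩
  refine h1.mono ?_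
  rintro z ⟨hz, hz2⟩
  have h2 : ∃ t ∈ Bad φ P l n, φ z = φ t := by
    by_contra hcon
    push Not at hcon
    exact hz2 ⟨hz, hcon⟩
  obtain ⟨t, ht, htz⟩ := h2
  exact Set.mem_biUnion ht ⟨hz, sub_eq_zero.2 htz⟩
-- END Gen_co
-- BEGIN Gen_dense
/-- a nonempty open subset of `ℂ` is not countable -/
theorem Gen_dense (hd : Dat φ P T κ l n) : D ⊆ closure (Gen φ P l n) := by
  have h1 : Dense ((D \ Gen φ P l n)ᶜ) := (Gen_co hd).dense_compl ℂ
  refine (h1.open_subset_closure_inter Metric.isOpen_ball).trans (closure_mono ?_)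
  rintro z ⟨hz, hz2⟩
  by_contra h
  exact hz2 ⟨hz, h⟩
-- END Gen_dense
-- BEGIN Gen_ne
theorem Gen_ne {z : ℂ} (hz : z ∈ Gen φ P l n) :
    (Matrix.of fun i j => ent P (l i) (n j) z).det ≠ 0 ∧ deriv φ z ≠ 0 := by
  refine ⟨fun h => hz.2 z ⟨hz.1, Or.inl h⟩ rfl, fun h => hz.2 z ⟨hz.1, Or.inr h⟩ rfl⟩
-- END Gen_ne

-- BEGIN rank_Gen
/-- `L_fin`, `L_low` -/
theorem rank_Gen (hd : Dat φ P T κ l n) {z : ℂ} (hz : z ∈ Gen φ P l n) :
    FiniteDimensional ℂ (L P z) ∧ Module.finrank ℂ (L P z) = κ := by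
  obtain ⟨h1, h2⟩ := L_fin P hd.sym hz.1 κ (fun l' n' => hd.van l' n' z hz.1)
  exact ⟨h1, le_antisymm h2 (L_low P hd.sym hz.1 κ l n (Gen_ne hz).1)⟩
-- END rank_Gen

-- BEGIN cls_Gen
/-- `cls_phi`, `L_min`, equality of dimensions (`Submodule.eq_of_le_of_finrank_eq`) -/
theorem cls_Gen (hd : Dat φ P T κ l n) {z t : ℂ} (hz : z ∈ Gen φ P l n) (ht : t ∈ cls P z) :
    t ∈ Gen φ P l n ∧ L P t = L P z := by
  have h1 : t ∈ Gen φ P l n := ⟨ht.1, fun s hs => by rw [cls_phi hd hz.1 ht]; exact hz.2 s hs⟩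
  refine ⟨h1, ?_⟩
  obtain ⟨f1, r1⟩ := rank_Gen hd hz
  obtain ⟨f2, r2⟩ := rank_Gen hd h1
  refine Submodule.eq_of_le_of_finrank_eq ?_ (r2.trans r1.symm)
  exact L_min P t _ (fun v hv => (L_inv P z hv).1) (fun v hv => (L_inv P z hv).2) ht.2
-- END cls_Gen

-- BEGIN diag
private theorem diag_ker {P : H →L[ℂ] H} {z c : ℂ} {u : H} (hu : u ≠ 0) (huL : u ∈ L P z)
    (he : u = u 0 • ker (conj c)) : u 0 ≠ 0 ∧ ker (conj c) ∈ L P z := by
  have h0 : u 0 ≠ 0 := by
    intro h
    rw [h, zero_smul] at he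
    exact hu he
  refine ⟨h0, ?_⟩
  have h1 : (u 0)⁻¹ • u = ker (conj c) :=
    calc (u 0)⁻¹ • u = (u 0)⁻¹ • (u 0 • ker (conj c)) := congrArg _ he
      _ = ker (conj c) := inv_smul_smul₀ h0 _
  rw [← h1]
  exact Submodule.smul_mem _ _ huL

private theorem diag_two (hd : Dat φ P T κ l n) {z : ℂ} (hz : z ∈ Gen φ P l n) {v : H}
    (hv : v ∈ L P z) (c : ℂ) (h2 : Sd (Sd v - c • v) = c • (Sd v - c • v)) : Sd v = c • v := by
  by_contra hne
  obtain ⟨u, hu⟩ : ∃ u, u = Sd v - c • v := ⟨_, rfl⟩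
  have hu0 : u ≠ 0 := by
    rw [hu]
    exact sub_ne_zero.2 hne
  rw [← hu] at h2
  have huL : u ∈ L P z := by
    rw [hu]
    exact Submodule.sub_mem _ (L_inv P z hv).2 (Submodule.smul_mem _ _ hv)
  obtain ⟨ht, he⟩ := eig u c hu0 h2
  obtain ⟨h3, h4⟩ := diag_ker hu0 huL he
  have hcls : conj c ∈ cls P z := ⟨ht, h4⟩
  have hphi := cls_phi hd hz.1 hcls
  have hder := (Gen_ne (cls_Gen hd hz hcls).1).2
  have hS : Sd v = conj (conj c) • v + u 0 • ker (conj c) := by
    rw [Complex.conj_conj, ← he, hu]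
    abel
  have hin : ⟪v, T (e 0)⟫_ℂ = φ (conj c) * ⟪v, e 0⟫_ℂ := by
    rw [hphi]
    exact L_T hd hz.1 hv (e 0)
  exact h3 (jord φ (T (e 0)) (T_one hd).1 ht v (u 0) hS hin hder)

/-- the backward shift is diagonalisable on `L_z`: every generalised eigenvector is an eigenvector (`eig`, `jord` with
`b = T (e 0)`, `cls_phi`, `cls_Gen`, `Gen_ne`), `Module.End.iSup_maxGenEigenspace_eq_top` -/
theorem diag (hd : Dat φ P T κ l n) {z : ℂ} (hz : z ∈ Gen φ P l n) : L P z = Submodule.span ℂ (ker '' cls P z) := by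
  obtain ⟨hfd, -⟩ := rank_Gen hd hz
  refine le_antisymm ?_ (Submodule.span_le.2 ?_)
  · intro v hv
    obtain ⟨f, hf⟩ : ∃ f : Module.End ℂ (L P z), ∀ w : L P z, ((f w : L P z) : H) = Sd (w : H) :=
      ⟨(Sd : H →ₗ[ℂ] H).restrict (fun w hw => (L_inv P z hw).2), fun w => rfl⟩
    have hg : ∀ (μ : ℂ) (w : L P z), (((f - μ • (1 : Module.End ℂ (L P z))) w : L P z) : H) =
        Sd (w : H) - μ • (w : H) := by
      intro μ w
      rw [LinearMap.sub_apply, LinearMap.smul_apply, Module.End.one_apply, Submodule.coe_sub,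
        Submodule.coe_smul, hf]
    have hred : ∀ (μ : ℂ) (k : ℕ) (w : L P z), ((f - μ • (1 : Module.End ℂ (L P z))) ^ k) w = 0 →
        Sd (w : H) = μ • (w : H) := by
      intro μ k
      induction k with
      | zero =>
        intro w hw
        have h1 : w = 0 := by
          rwa [pow_zero, Module.End.one_apply] at hw
        rw [h1, Submodule.coe_zero, map_zero, smul_zero]
      | succ k ih =>
        intro w hw
        rw [pow_succ, Module.End.mul_apply] at hw
        have h1 := ih _ hw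
        rw [hg] at h1
        exact diag_two hd hz w.2 μ h1
    have hmem : (⟨v, hv⟩ : L P z) ∈ ⨆ μ, f.maxGenEigenspace μ := by
      rw [Module.End.iSup_maxGenEigenspace_eq_top f]
      exact Submodule.mem_top
    have hfinal : ((⟨v, hv⟩ : L P z) : H) ∈ Submodule.span ℂ (ker '' cls P z) := by
      refine Submodule.iSup_induction (fun μ => f.maxGenEigenspace μ)
        (motive := fun w : L P z => (w : H) ∈ Submodule.span ℂ (ker '' cls P z)) hmem ?_ ?_ ?_
      · intro μ w hw
        rw [Module.End.mem_maxGenEigenspace] at hw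
        obtain ⟨k, hk⟩ := hw
        have h3 := hred μ k w hk
        by_cases hw0 : (w : H) = 0
        · rw [hw0]
          exact Submodule.zero_mem _
        · obtain ⟨ht, he⟩ := eig (w : H) μ hw0 h3
          obtain ⟨-, h4⟩ := diag_ker hw0 w.2 he
          rw [he]
          exact Submodule.smul_mem _ _ (Submodule.subset_span ⟨conj μ, ⟨ht, h4⟩, rfl⟩)
      · rw [Submodule.coe_zero]
        exact Submodule.zero_mem _
      · intro x y hx hy
        rw [Submodule.coe_add]
        exact Submodule.add_mem _ hx hy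
    exact hfinal
  · rintro _ ⟨t, ht, rfl⟩
    exact ht.2
-- END diag
-- BEGIN cls_card
/-- `diag`, `ker_li`, `rank_Gen` -/
theorem cls_card (hd : Dat φ P T κ l n) {z : ℂ} (hz : z ∈ Gen φ P l n) : (cls P z).Finite ∧ (cls P z).ncard = κ := by
  classical
  obtain ⟨hf, hr⟩ := rank_Gen hd hz
  have hdg := diag hd hz
  have hli : LinearIndependent ℂ (fun t : cls P z => ker (t : ℂ)) := by
    rw [linearIndependent_iff']
    intro s g hg i hi
    have hR : ((s.image (fun t : cls P z => (t : ℂ)) : Finset ℂ) : Set ℂ) ⊆ D := by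
      intro t ht
      rw [Finset.coe_image] at ht
      obtain ⟨x, _, rfl⟩ := ht
      exact x.2.1
    have h1 := ker_li (s.image (fun t : cls P z => (t : ℂ))) hR
      (fun t => if h : t ∈ cls P z then g ⟨t, h⟩ else 0) (by
        rw [Finset.sum_image (fun x _ y _ hxy => Subtype.ext hxy), ← hg]
        refine Finset.sum_congr rfl fun x _ => ?_
        rw [dif_pos x.2]) (i : ℂ) (Finset.mem_image_of_mem _ hi)
    rw [dif_pos i.2] at h1
    exact h1
  have hspan : Submodule.span ℂ (Set.range fun t : cls P z => ker (t : ℂ)) = L P z := by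
    rw [hdg, ← Set.image_eq_range]
  have b : Module.Basis (cls P z) ℂ (L P z) :=
    (Module.Basis.span hli).map (LinearEquiv.ofEq _ _ hspan)
  have hfin : Finite (cls P z) := Module.Finite.finite_basis b
  have hft : Fintype (cls P z) := Fintype.ofFinite _
  refine ⟨Set.toFinite _, ?_⟩
  rw [← hr, Module.finrank_eq_card_basis b, ← Nat.card_coe_set_eq, Nat.card_eq_fintype_card]
-- END cls_card

-- BEGIN cf_spec
theorem cf_spec (hd : Dat φ P T κ l n) {z : ℂ} (hz : z ∈ Gen φ P l n) :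
    (cf P z).card = κ ∧ z ∈ cf P z ∧ ∀ t, t ∈ cf P z ↔ t ∈ cls P z := by
  obtain ⟨hf, hc⟩ := cls_card hd hz
  have h1 : cf P z = hf.toFinset := by unfold cf; rw [dif_pos hf]
  refine ⟨?_, ?_, ?_⟩
  · rw [h1, ← hc, Set.ncard_eq_toFinset_card _ hf]
  · rw [h1, Set.Finite.mem_toFinset]; exact ⟨hz.1, L_ker P z⟩
  · intro t; rw [h1, Set.Finite.mem_toFinset]
-- END cf_spec

-- BEGIN cf_cls
theorem cf_cls (hd : Dat φ P T κ l n) {z : ℂ} (hz : z ∈ Gen φ P l n) :
    ∀ t ∈ cf P z, t ∈ Gen φ P l n ∧ cf P t = cf P z ∧ φ t = φ z := by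
  intro t ht
  have ht' : t ∈ cls P z := ((cf_spec hd hz).2.2 t).1 ht
  obtain ⟨h1, h2⟩ := cls_Gen hd hz ht'
  refine ⟨h1, ?_, cls_phi hd hz.1 ht'⟩
  have : cls P t = cls P z := by unfold cls; rw [h2]
  unfold cf
  rw [this]
-- END cf_cls

-- BEGIN rep
/-- `opA P m (ker z) ∈ L_z = span of the kernels`; `⟪ker t, e k⟫ = t^k` -/
theorem rep (hd : Dat φ P T κ l n) {z : ℂ} (hz : z ∈ Gen φ P l n) :
    ∃ α : List Bool → ℂ → ℂ, ∀ m k, ent P m k z = ∑ t ∈ cf P z, α m t * t ^ k := by
  classical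
  have hcf := (cf_spec hd hz).2.2
  have hmem : ∀ m : List Bool, ∃ β : ℂ → ℂ, opA P m (ker z) = ∑ t ∈ cf P z, β t • ker t := by
    intro m
    have h1 : opA P m (ker z) ∈ L P z := Submodule.subset_span ⟨m, rfl⟩
    rw [diag hd hz] at h1
    have h2 : cls P z = ((cf P z : Finset ℂ) : Set ℂ) := by
      ext t; exact (hcf t).symm
    rw [h2] at h1
    obtain ⟨β, hβ⟩ := (Submodule.mem_span_image_finset_iff_exists_fun' ℂ).1 h1
    exact ⟨β, hβ.symm⟩
  choose β hβ using hmem
  refine ⟨fun m t => conj (β m t), fun m k => ?_⟩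
  rw [ent_inner P hd.sym hz.1, hβ, sum_inner]
  refine Finset.sum_congr rfl fun t ht => ?_
  rw [inner_smul_left, inner_ker (((hcf t).1 ht).1), ev_e]
-- END rep

-- BEGIN det_fac
/-- `A * diagonal g * V` for square matrices -/
theorem det_fac (R : Finset ℂ) (hR : R.card = κ) (α : Fin κ → ℂ → ℂ) (g : ℂ → ℂ) :
    (Matrix.of fun i j => ∑ t ∈ R, α i t * (g t * t ^ (n j))).det =
      (∏ t ∈ R, g t) * (Matrix.of fun i j => ∑ t ∈ R, α i t * t ^ (n j)).det := by
  classical
  let eq : Fin κ ≃ R := (R.equivFinOfCardEq hR).symm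
  have hsum : ∀ f : ℂ → ℂ, ∑ t ∈ R, f t = ∑ k, f (eq k) := by
    intro f
    rw [← Finset.sum_coe_sort R f]
    exact (Fintype.sum_equiv eq _ _ fun i => rfl).symm
  have hprod : ∏ t ∈ R, g t = ∏ k, g (eq k) := by
    rw [← Finset.prod_coe_sort R g]
    exact (Fintype.prod_equiv eq _ _ fun i => rfl).symm
  have h1 : (Matrix.of fun i j => ∑ t ∈ R, α i t * (g t * t ^ (n j))) =
      (Matrix.of fun i k => α i (eq k)) * Matrix.diagonal (fun k => g (eq k)) * (Matrix.of fun k j => (eq k : ℂ) ^ (n j)) := by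
    ext i j
    rw [Matrix.mul_apply, Matrix.of_apply, hsum]
    refine Finset.sum_congr rfl fun k _ => ?_
    rw [Matrix.mul_diagonal, Matrix.of_apply, Matrix.of_apply]; ring
  have h2 : (Matrix.of fun i j => ∑ t ∈ R, α i t * t ^ (n j)) =
      (Matrix.of fun i k => α i (eq k)) * (Matrix.of fun k j => (eq k : ℂ) ^ (n j)) := by
    ext i j
    rw [Matrix.mul_apply, Matrix.of_apply, hsum]
    rfl
  rw [h1, h2, Matrix.det_mul, Matrix.det_mul, Matrix.det_mul, Matrix.det_diagonal, hprod]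
  ring
-- END det_fac

-- BEGIN num_den
/-- `rep`, `det_fac` with `g t = t - a` and with `g t = 1 - conj a * t` -/
theorem num_den (hd : Dat φ P T κ l n) {z : ℂ} (hz : z ∈ Gen φ P l n) (a : ℂ) :
    (Matrix.of fun i j => ent P (l i) (n j + 1) z - a * ent P (l i) (n j) z).det =
        (∏ t ∈ cf P z, (t - a)) * (Matrix.of fun i j => ent P (l i) (n j) z).det ∧
    (Matrix.of fun i j => ent P (l i) (n j) z - conj a * ent P (l i) (n j + 1) z).det =
        (∏ t ∈ cf P z, (1 - conj a * t)) * (Matrix.of fun i j => ent P (l i) (n j) z).det := by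
  obtain ⟨α, hα⟩ := rep hd hz
  have hc := (cf_spec hd hz).1
  have h0 : (Matrix.of fun i j => ent P (l i) (n j) z) =
      Matrix.of fun i j => ∑ t ∈ cf P z, α (l i) t * t ^ (n j) := by
    ext i j; exact hα (l i) (n j)
  constructor
  · rw [h0, ← det_fac (cf P z) hc (fun i => α (l i)) (fun t => t - a)]
    congr 1
    ext i j
    rw [Matrix.of_apply, Matrix.of_apply, hα, hα, Finset.mul_sum, ← Finset.sum_sub_distrib]
    refine Finset.sum_congr rfl fun t _ => ?_
    rw [pow_succ]; ring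
  · rw [h0, ← det_fac (cf P z) hc (fun i => α (l i)) (fun t => 1 - conj a * t)]
    congr 1
    ext i j
    rw [Matrix.of_apply, Matrix.of_apply, hα, hα, Finset.mul_sum, ← Finset.sum_sub_distrib]
    refine Finset.sum_congr rfl fun t _ => ?_
    rw [pow_succ]; ring
-- END num_den

-- BEGIN one_ne
/-- `κ = 1`: `L_z = ℂ k_z`, so `ev (P a) = p · ev a` on `Gen`, hence on `D`, `p = ev (P e_0)`, `p² = p`, `p = 0` or `p = 1` -/
theorem one_ne (hd : Dat φ P T κ l n) (h1 : κ = 1) : (∀ a, P a = 0) ∨ ∀ a, P a = a := by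
  classical
  have hgen : ∀ z ∈ Gen φ P l n, ∀ a : H, ev (P a) z = ev (P (e 0)) z * ev a z := by
    intro z hz a
    have hc := (cf_spec hd hz)
    have hcf : cf P z = {z} := by
      obtain ⟨x, hx⟩ := Finset.card_eq_one.1 (hc.1.trans h1)
      have := hc.2.1
      rw [hx, Finset.mem_singleton] at this
      rw [hx, this]
    have hcls : cls P z = {z} := by
      ext t
      rw [← hc.2.2 t, hcf, Finset.mem_singleton]; rfl
    have hP : P (ker z) ∈ L P z := (L_inv P z (L_ker P z)).1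
    rw [diag hd hz, hcls, Set.image_singleton] at hP
    obtain ⟨c, hc'⟩ := Submodule.mem_span_singleton.1 hP
    have hev : ∀ b : H, ev (P b) z = conj c * ev b z := by
      intro b
      rw [← inner_ker hz.1, ← hd.sym, ← hc', inner_smul_left, inner_ker hz.1]
    rw [hev a, hev (e 0), ev_e, pow_zero, mul_one]
  have hall : ∀ z ∈ D, ∀ a : H, ev (P a) z = ev (P (e 0)) z * ev a z := by
    intro z hz a
    have hcl := Gen_dense hd hz
    have hc1 : ContinuousOn (fun w => ev (P a) w) D := (ev_diff _).continuousOn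
    have hc2 : ContinuousOn (fun w => ev (P (e 0)) w * ev a w) D :=
      (ev_diff _).continuousOn.mul (ev_diff _).continuousOn
    have hsub : Gen φ P l n ⊆ D := fun w hw => hw.1
    exact tendsto_nhds_unique_of_frequently_eq (hc1.continuousAt (Metric.isOpen_ball.mem_nhds hz))
      (hc2.continuousAt (Metric.isOpen_ball.mem_nhds hz))
      ((mem_closure_iff_frequently.1 hcl).mono fun w hw => hgen w hw a)
  have hsq : ∀ z ∈ D, ev (P (e 0)) z * (ev (P (e 0)) z - 1) = 0 := by
    intro z hz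
    have := hall z hz (P (e 0))
    rw [hd.idem] at this
    rw [mul_sub, mul_one, ← this, sub_self]
  have han1 : AnalyticOnNhd ℂ (ev (P (e 0))) D := (ev_diff _).analyticOnNhd Metric.isOpen_ball
  have hpre : IsPreconnected D := (convex_ball (0 : ℂ) 1).isPreconnected
  have hdich : (∀ z ∈ D, ev (P (e 0)) z = 0) ∨ ∀ z ∈ D, ev (P (e 0)) z = 1 := by
    have han2 : AnalyticOnNhd ℂ (fun z => ev (P (e 0)) z - 1) D := han1.sub analyticOnNhd_const
    rcases han1.eq_zero_or_eq_zero_of_mul_eq_zero han2 hsq hpre with h | h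
    · exact Or.inl h
    · exact Or.inr fun z hz => sub_eq_zero.1 (h z hz)
  rcases hdich with h | h
  · left
    intro a
    refine ev_inj fun z hz => ?_
    have h0 : ev (0 : H) z = 0 := by rw [← inner_ker hz, inner_zero_right]
    rw [hall z hz a, h z hz, zero_mul, h0]
  · right
    intro a
    refine ev_inj fun z hz => ?_
    rw [hall z hz a, h z hz, one_mul]
-- END one_ne

end

end Nrd
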