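import Pool.Agent.Nrd.Mid
import Pool.Agent.Nrd.Int
import Pool.Agent.Nrd.Geo

/-! ## Assembly -/

set_option autoImplicit false

namespace Nrd

open MeasureTheory Filter Topology
open scoped ComplexConjugate InnerProductSpace

section
variable {φ : ℂ → ℂ} {P : H →L[ℂ] H} {T : H → H} {κ : ℕ} {l : Fin κ → List Bool} {n : Fin κ → ℕ}

-- BEGIN ana_h
/-- `num_den`, `bl_lt` (`|N_a| ≤ |D_a|` on `Gen`, by density and continuity on `D`), `div_lem` -/
theorem ana_h (hd : Dat φ P T κ l n) {a : ℂ} (ha : a ∈ D) :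
    ∃ h : ℂ → ℂ, DifferentiableOn ℂ h D ∧ (∀ z ∈ D, ‖h z‖ ≤ 1) ∧
      ∀ z ∈ Gen φ P l n, h z = ∏ t ∈ cf P z, bl a t := by
  set N : ℂ → ℂ := fun z => (Matrix.of fun i j => ent P (l i) (n j + 1) z - a * ent P (l i) (n j) z).det with hN
  set Dn : ℂ → ℂ := fun z => (Matrix.of fun i j => ent P (l i) (n j) z - conj a * ent P (l i) (n j + 1) z).det with hDn
  have dN : DifferentiableOn ℂ N D :=
    det_diff (fun i j z => ent P (l i) (n j + 1) z - a * ent P (l i) (n j) z)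
      fun i j => (ent_diff P (l i) (n j + 1)).sub ((ent_diff P (l i) (n j)).const_mul a)
  have dD : DifferentiableOn ℂ Dn D :=
    det_diff (fun i j z => ent P (l i) (n j) z - conj a * ent P (l i) (n j + 1) z)
      fun i j => (ent_diff P (l i) (n j)).sub ((ent_diff P (l i) (n j + 1)).const_mul (conj a))
  have hcf : ∀ z ∈ Gen φ P l n, ∀ t ∈ cf P z, t ∈ D := fun z hz t ht => (((cf_spec hd hz).2.2 t).1 ht).1
  have hG : ∀ z ∈ Gen φ P l n, ‖N z‖ ≤ ‖Dn z‖ := by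
    intro z hz
    obtain ⟨h1, h2⟩ := num_den hd hz a
    change ‖(Matrix.of fun i j => ent P (l i) (n j + 1) z - a * ent P (l i) (n j) z).det‖ ≤
      ‖(Matrix.of fun i j => ent P (l i) (n j) z - conj a * ent P (l i) (n j + 1) z).det‖
    rw [h1, h2, norm_mul, norm_mul, norm_prod, norm_prod]
    refine mul_le_mul_of_nonneg_right ?_ (norm_nonneg _)
    exact Finset.prod_le_prod (fun _ _ => norm_nonneg _) fun t ht => (bl_lt ha (hcf z hz t ht)).1.le
  have hle : ∀ z ∈ D, ‖N z‖ ≤ ‖Dn z‖ := by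
    intro z hz
    have hcl := Gen_dense hd hz
    rw [mem_closure_iff_seq_limit] at hcl
    obtain ⟨x, hx, hxl⟩ := hcl
    have hcN : ContinuousAt N z := dN.continuousOn.continuousAt (Metric.isOpen_ball.mem_nhds hz)
    have hcD : ContinuousAt Dn z := dD.continuousOn.continuousAt (Metric.isOpen_ball.mem_nhds hz)
    exact le_of_tendsto_of_tendsto' ((hcN.tendsto.comp hxl).norm) ((hcD.tendsto.comp hxl).norm) fun k => hG _ (hx k)
  have hden : ∀ z ∈ Gen φ P l n, Dn z ≠ 0 := by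
    intro z hz
    change (Matrix.of fun i j => ent P (l i) (n j) z - conj a * ent P (l i) (n j + 1) z).det ≠ 0
    rw [(num_den hd hz a).2]
    refine mul_ne_zero (Finset.prod_ne_zero_iff.2 fun t ht => bl_den ha (hcf z hz t ht)) (Gen_ne hz).1
  obtain ⟨z0, hz0⟩ : (Gen φ P l n).Nonempty := by
    rw [← closure_nonempty_iff]
    exact ⟨0, Gen_dense hd (by simp)⟩
  obtain ⟨g, g1, g2, g3⟩ := div_lem N Dn dN dD ⟨z0, hz0.1, hden z0 hz0⟩ hle
  refine ⟨g, g1, g2, fun z hz => ?_⟩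
  have h3 := g3 z hz.1
  have h4 : N z = (∏ t ∈ cf P z, bl a t) * Dn z := by
    change (Matrix.of fun i j => ent P (l i) (n j + 1) z - a * ent P (l i) (n j) z).det = (∏ t ∈ cf P z, bl a t) *
      (Matrix.of fun i j => ent P (l i) (n j) z - conj a * ent P (l i) (n j + 1) z).det
    rw [(num_den hd hz a).1, (num_den hd hz a).2, ← mul_assoc, ← Finset.prod_mul_distrib]
    congr 1
    refine Finset.prod_congr rfl fun t ht => ?_
    unfold bl
    rw [div_mul_cancel₀ _ (bl_den ha (hcf z hz t ht))]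
  rw [h4] at h3
  exact (mul_right_cancel₀ (hden z hz) h3).symm
-- END ana_h
-- BEGIN cla
theorem cla (hd : Dat φ P T κ l n) : Cla φ (Gen φ P l n) (cf P) κ where
  sub := fun z hz => hz.1
  dense := Gen_dense hd
  one := hd.one
  card := fun z hz => (cf_spec hd hz).1
  self := fun z hz => (cf_spec hd hz).2.1
  cl := fun z hz => cf_cls hd hz
  ana := fun a ha => ana_h hd ha
-- END cla

end

-- BEGIN exists_T
/-- multiplication by `φ` as a map of `H²`, and the projection -/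
theorem exists_T (φ : ℂ → ℂ) (M : Submodule ℂ H) (hM : IsClosed (M : Set H))
    (h1 : ∀ a ∈ M, ∃ b ∈ M, ∀ z ∈ D, φ z * ev a z = ev b z) (h2 : ∀ a ∈ Mᗮ, ∃ b ∈ Mᗮ, ∀ z ∈ D, φ z * ev a z = ev b z) :
    ∃ (P : H →L[ℂ] H) (T : H → H), (∀ a b : H, ⟪P a, b⟫_ℂ = ⟪a, P b⟫_ℂ) ∧ (∀ a, P (P a) = P a) ∧
      (∀ a, ∀ z ∈ D, φ z * ev a z = ev (T a) z) ∧ (∀ a, P (T a) = T (P a)) ∧
      ((∀ a, P a = 0) → M = ⊥) ∧ ((∀ a, P a = a) → M = ⊤) := by
  have hc : CompleteSpace M := hM.completeSpace_coe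
  have hm : ∀ a : H, M.starProjection a ∈ M := fun a => M.starProjection_apply_mem a
  have ho : ∀ a : H, a - M.starProjection a ∈ Mᗮ := fun a => Submodule.sub_starProjection_mem_orthogonal a
  have hadd : ∀ (a b : H), ∀ z ∈ D, ev (a + b) z = ev a z + ev b z := by
    intro a b z hz
    have h := ev_lin hz 1 1 a b
    rwa [one_smul, one_smul, one_mul, one_mul] at h
  have key : ∀ a : H, ∃ b : H, (∀ z ∈ D, φ z * ev a z = ev b z) ∧
      ∀ z ∈ D, φ z * ev (M.starProjection a) z = ev (M.starProjection b) z := by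
    intro a
    obtain ⟨b₁, hb₁, e₁⟩ := h1 _ (hm a)
    obtain ⟨b₂, hb₂, e₂⟩ := h2 _ (ho a)
    refine ⟨b₁ + b₂, ?_, ?_⟩
    · intro z hz
      have h3 : ev a z = ev (M.starProjection a) z + ev (a - M.starProjection a) z := by
        rw [← hadd _ _ z hz, add_sub_cancel]
      rw [h3, mul_add, e₁ z hz, e₂ z hz, hadd _ _ z hz]
    · intro z hz
      rw [map_add, Submodule.starProjection_eq_self_iff.2 hb₁,
        (Submodule.starProjection_apply_eq_zero_iff M).2 hb₂, add_zero]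
      exact e₁ z hz
  choose T hT hPT using key
  refine ⟨M.starProjection, T, fun a b => M.inner_starProjection_left_eq_right a b,
    fun a => Submodule.starProjection_eq_self_iff.2 (hm a), hT, fun a => ?_, fun h => ?_, fun h => ?_⟩
  · refine ev_inj fun z hz => ?_
    rw [← hPT a z hz, hT _ z hz]
  · refine (Submodule.eq_bot_iff M).2 fun a ha => ?_
    rw [← Submodule.starProjection_eq_self_iff.2 ha]
    exact h a
  · refine (Submodule.eq_top_iff').2 fun a => ?_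
    rw [← h a]
    exact hm a
-- END exists_T
-- BEGIN main
/-- the theorem -/
theorem main (φ : ℂ → ℂ) (hφ : DifferentiableOn ℂ φ D) (C : ℝ) (hC : ∀ z ∈ D, ‖φ z‖ ≤ C) (bd : ℝ → ℂ)
    (hbd : ∀ᵐ θ : ℝ, Tendsto (fun r : ℝ => φ (r * ex θ)) (𝓝[<] 1) (𝓝 (bd θ))) (E : Set ℝ)
    (hE1 : E ⊆ Set.Ico 0 (2 * Real.pi)) (hE0 : volume E ≠ 0)
    (hE : ∀ θ ∈ E, {t : ℝ | t ∈ Set.Ico 0 (2 * Real.pi) ∧ bd t = bd θ}.Finite)
    (M : Submodule ℂ H) (hM : IsClosed (M : Set H))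
    (h1 : ∀ a ∈ M, ∃ b ∈ M, ∀ z ∈ D, φ z * ev a z = ev b z) (h2 : ∀ a ∈ Mᗮ, ∃ b ∈ Mᗮ, ∀ z ∈ D, φ z * ev a z = ev b z)
    (hb : M ≠ ⊥) (ht : M ≠ ⊤) :
    ∃ κ : ℕ, 2 ≤ κ ∧ ∃ a : Fin κ → ℂ, (∀ i, ‖a i‖ < 1) ∧ ∃ ψ : ℂ → ℂ, DifferentiableOn ℂ ψ D ∧ (∀ w ∈ D, ‖ψ w‖ ≤ C) ∧
      ∀ z ∈ D, φ z = ψ (∏ i, (z - a i) / (1 - conj (a i) * z)) := by
  obtain ⟨P, T, hP, hidem, hT, hPT, hbot, htop⟩ := exists_T φ M hM h1 h2
  have hnc := nonconst φ bd hbd E hE1 hE0 hE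
  obtain ⟨κ, l, n, hκ, hne, hvan⟩ := kappa P (minors φ hφ C hC bd hbd E hE1 hE0 hE P hP T hT hPT)
  have hd : Dat φ P T κ l n := ⟨hφ, hnc, hP, hidem, hT, hPT, hκ, hne, hvan⟩
  refine ⟨κ, ?_, geom (cla hd) hφ C hC⟩
  rcases Nat.lt_or_ge κ 2 with h | h
  · exfalso
    rcases one_ne hd (by omega) with h | h
    · exact hb (hbot h)
    · exact ht (htop h)
  · exact h
-- END main

end Nrd
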