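import Pool.Agent.Nrd.Bdy

/-! ## Words in `P` and the shift, the algebra on one fibre -/

set_option autoImplicit false

namespace Nrd

open MeasureTheory Filter Topology
open scoped ComplexConjugate InnerProductSpace

/-- words in `P` and the backward shift -/
noncomputable def opA (P : H →L[ℂ] H) : List Bool → H →L[ℂ] H
  | [] => ContinuousLinearMap.id ℂ H
  | true :: l => P.comp (opA P l)
  | false :: l => Sd.comp (opA P l)

/-- their adjoints -/
noncomputable def opB (P : H →L[ℂ] H) : List Bool → H →L[ℂ] H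
  | [] => ContinuousLinearMap.id ℂ H
  | true :: l => (opB P l).comp P
  | false :: l => (opB P l).comp S

/-- words in `P` and `S`, letters acting on the left -/
noncomputable def opC (P : H →L[ℂ] H) : List Bool → H →L[ℂ] H
  | [] => ContinuousLinearMap.id ℂ H
  | true :: l => P.comp (opC P l)
  | false :: l => S.comp (opC P l)

/-- the countable family: all words applied to all `e n` -/
def Fam (P : H →L[ℂ] H) : Set H := Set.range fun p : List Bool × ℕ => opC P p.1 (e p.2)

theorem Fam_countable (P : H →L[ℂ] H) : (Fam P).Countable := Set.countable_range _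

-- BEGIN Fam_mem
theorem Fam_mem (P : H →L[ℂ] H) (n : ℕ) : e n ∈ Fam P := ⟨([], n), rfl⟩
-- END Fam_mem

-- BEGIN Fam_cl
theorem Fam_cl (P : H →L[ℂ] H) {h : H} (hh : h ∈ Fam P) : P h ∈ Fam P ∧ S h ∈ Fam P := by
  obtain ⟨⟨l, n⟩, rfl⟩ := hh
  exact ⟨⟨(true :: l, n), rfl⟩, ⟨(false :: l, n), rfl⟩⟩
-- END Fam_cl

-- BEGIN Fam_opB
theorem Fam_opB (P : H →L[ℂ] H) {h : H} (hh : h ∈ Fam P) (l : List Bool) : opB P l h ∈ Fam P := by
  induction l generalizing h with
  | nil => exact hh
  | cons b l ih =>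
    cases b with
    | true => exact ih (Fam_cl P hh).1
    | false => exact ih (Fam_cl P hh).2
-- END Fam_opB

-- BEGIN op_adj
theorem op_adj (P : H →L[ℂ] H) (hP : ∀ a b : H, ⟪P a, b⟫_ℂ = ⟪a, P b⟫_ℂ) (l : List Bool) (a b : H) :
    ⟪opA P l a, b⟫_ℂ = ⟪a, opB P l b⟫_ℂ := by
  induction l generalizing b with
  | nil => rfl
  | cons x l ih =>
    cases x with
    | true =>
      change ⟪P (opA P l a), b⟫_ℂ = ⟪a, opB P l (P b)⟫_ℂ
      rw [hP, ih]
    | false =>
      change ⟪Sd (opA P l a), b⟫_ℂ = ⟪a, opB P l (S b)⟫_ℂ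
      rw [Sd_inner, ih]
-- END op_adj

-- BEGIN op_T
/-- words commute with multiplication by `φ` -/
theorem op_T (P : H →L[ℂ] H) (T : H → H) (hPT : ∀ a, P (T a) = T (P a)) (hST : ∀ a, S (T a) = T (S a)) (l : List Bool)
    (a : H) : opB P l (T a) = T (opB P l a) := by
  induction l generalizing a with
  | nil => rfl
  | cons x l ih =>
    cases x with
    | true =>
      change opB P l (P (T a)) = T (opB P l (P a))
      rw [hPT, ih]
    | false =>
      change opB P l (S (T a)) = T (opB P l (S a))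
      rw [hST, ih]
-- END op_T

/-- the matrix entries -/
noncomputable def ent (P : H →L[ℂ] H) (l : List Bool) (n : ℕ) (z : ℂ) : ℂ := ev (opB P l (e n)) z

/-- boundary matrix entries -/
noncomputable def entb (P : H →L[ℂ] H) (l : List Bool) (n : ℕ) (θ : ℝ) : ℂ := bv (opB P l (e n)) θ

-- BEGIN vand
private theorem vand_inj {s t : ℝ} (hs : s ∈ Set.Ico 0 (2 * Real.pi)) (ht : t ∈ Set.Ico 0 (2 * Real.pi))
    (h : ex s = ex t) : s = t := by
  unfold ex at h
  rw [Complex.exp_eq_exp_iff_exists_int] at h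
  obtain ⟨n, hn⟩ := h
  have h1 : (s : ℂ) * Complex.I = ((t : ℂ) + n * (2 * Real.pi)) * Complex.I := by
    rw [hn]; ring
  have h2 := mul_right_cancel₀ Complex.I_ne_zero h1
  have h3 : s = t + n * (2 * Real.pi) := by exact_mod_cast h2
  have hp : 0 < 2 * Real.pi := by positivity
  have h4 : (n : ℝ) < 1 := by
    by_contra h5
    push Not at h5
    have := mul_le_mul_of_nonneg_right h5 hp.le
    linarith [hs.2, ht.1]
  have h5 : (-1 : ℝ) < n := by
    by_contra h6
    push Not at h6
    have := mul_le_mul_of_nonneg_right h6 hp.le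
    linarith [hs.1, ht.2]
  have h6 : n = 0 := by
    have h7 : n < 1 := by exact_mod_cast h4
    have h8 : -1 < n := by exact_mod_cast h5
    omega
  rw [h3, h6]
  simp

/-- Vandermonde: the `e^{it}`, `t ∈ F`, are distinct, the powers `0, ..., |F| - 1` separate them
(`Matrix.det_vandermonde_ne_zero_iff`) -/
theorem vand (F : Finset ℝ) (hF : ∀ t ∈ F, t ∈ Set.Ico 0 (2 * Real.pi)) (x : ℝ → ℂ)
    (h : ∀ n < F.card, ∑ t ∈ F, x t * conj (ex t ^ n) = 0) : ∀ t ∈ F, x t = 0 := by
  set q := F.equivFin.symm with hq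
  have h1 : (fun j : Fin F.card => x (q j)) = 0 := by
    refine Matrix.eq_zero_of_forall_pow_sum_mul_pow_eq_zero
      (f := fun j : Fin F.card => conj (ex (q j))) ?_ ?_
    · intro i j hij
      have h2 : ex (q i) = ex (q j) := (starRingEnd ℂ).injective hij
      exact q.injective (Subtype.ext (vand_inj (hF _ (q i).2) (hF _ (q j).2) h2))
    · intro i
      have h3 := h i i.isLt
      rw [← Finset.sum_coe_sort F (fun t => x t * conj (ex t ^ (i : ℕ)))] at h3
      rw [← h3, ← Equiv.sum_comp q]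
      refine Finset.sum_congr rfl fun j _ => ?_
      rw [map_pow]
  intro t ht
  have h4 := congrFun h1 (F.equivFin ⟨t, ht⟩)
  simpa [hq] using h4
-- END vand
-- BEGIN vand_dual
/-- dual form: a function on `F` is determined by its moments, so the value at `s ∈ F` is a combination of the moments -/
theorem vand_dual (F : Finset ℝ) (hF : ∀ t ∈ F, t ∈ Set.Ico 0 (2 * Real.pi)) (s : ℝ) (hs : s ∈ F) :
    ∃ y : ℕ → ℂ, ∀ x : ℝ → ℂ, ∑ n ∈ Finset.range F.card, y n * ∑ t ∈ F, x t * conj (ex t ^ n) = x s := by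
  classical
  -- Lagrange polynomial
  have hinj : Set.InjOn (fun t : ℝ => conj (ex t)) (F : Set ℝ) := by
    intro a ha b hb hab
    have hab' : ex a = ex b := (starRingEnd ℂ).injective hab
    unfold ex at hab'
    rw [Complex.exp_eq_exp_iff_exists_int] at hab'
    obtain ⟨n, hn⟩ := hab'
    have h1 : a = b + n * (2 * Real.pi) := by
      have h2 : ((a : ℂ)) * Complex.I = ((b : ℂ) + n * (2 * Real.pi)) * Complex.I := by
        rw [hn]; ring
      have h3 := mul_right_cancel₀ Complex.I_ne_zero h2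
      exact_mod_cast h3
    have ha' := hF a ha
    have hb' := hF b hb
    have hpi := Real.pi_pos
    have hn0 : n = 0 := by
      have u1 : (n : ℝ) < 1 := by
        by_contra hc
        push Not at hc
        have := ha'.2; have := hb'.1
        nlinarith
      have u2 : (-1 : ℝ) < n := by
        by_contra hc
        push Not at hc
        have := ha'.1; have := hb'.2
        nlinarith
      have v1 : n < 1 := by exact_mod_cast u1
      have v2 : -1 < n := by exact_mod_cast u2
      omega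
    rw [h1, hn0]; simp
  set p : Polynomial ℂ := Lagrange.basis F (fun t : ℝ => conj (ex t)) s with hp
  have hdeg : p.natDegree < F.card := by
    rw [hp, Lagrange.natDegree_basis hinj hs]
    have : 0 < F.card := Finset.card_pos.2 ⟨s, hs⟩
    omega
  refine ⟨fun n => p.coeff n, fun x => ?_⟩
  have h1 : ∀ t ∈ F, ∑ n ∈ Finset.range F.card, p.coeff n * conj (ex t) ^ n = if t = s then 1 else 0 := by
    intro t ht
    rw [← Polynomial.eval_eq_sum_range' hdeg]
    by_cases hts : t = s
    · subst hts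
      rw [if_pos rfl, hp]
      exact Lagrange.eval_basis_self (v := fun t : ℝ => conj (ex t)) hinj ht
    · rw [if_neg hts, hp]
      exact Lagrange.eval_basis_of_ne (v := fun t : ℝ => conj (ex t)) (Ne.symm hts) ht
  calc ∑ n ∈ Finset.range F.card, p.coeff n * ∑ t ∈ F, x t * conj (ex t ^ n)
      = ∑ t ∈ F, x t * ∑ n ∈ Finset.range F.card, p.coeff n * conj (ex t) ^ n := by
        simp only [Finset.mul_sum]
        rw [Finset.sum_comm]
        refine Finset.sum_congr rfl fun t _ => Finset.sum_congr rfl fun n _ => ?_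
        rw [map_pow]; ring
    _ = ∑ t ∈ F, x t * (if t = s then 1 else 0) := Finset.sum_congr rfl fun t ht => by rw [h1 t ht]
    _ = x s := by simp [hs]
-- END vand_dual
/-- The good points of a fibre: finite, in `[0, 2π)`, all the a.e. relations hold at its points, and the weighted
identity holds (with the functions `f h = h*`). -/
structure Good (P : H →L[ℂ] H) (F : Finset ℝ) (w : ℝ → ℝ) : Prop where
  ico : ∀ t ∈ F, t ∈ Set.Ico 0 (2 * Real.pi)
  pos : ∀ t ∈ F, 0 < w t
  he : ∀ t ∈ F, ∀ n : ℕ, bv (e n) t = ex t ^ n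
  hS : ∀ t ∈ F, ∀ h ∈ Fam P, bv (S h) t = ex t * bv h t
  idt : ∀ h ∈ Fam P, ∀ k ∈ Fam P,
    ∑ t ∈ F, (w t : ℂ) * (bv (P h) t * conj (bv k t) - bv h t * conj (bv (P k) t)) = 0

-- BEGIN fib_P
/-- `P` acts on the fibre by a matrix (`k = e n`, `n < |F|`, and `vand_dual` for `x t = w t * bv (P h) t`) -/
theorem fib_P {P : H →L[ℂ] H} {F : Finset ℝ} {w : ℝ → ℝ} (hg : Good P F w) :
    ∃ C : ℝ → ℝ → ℂ, ∀ h ∈ Fam P, ∀ t ∈ F, bv (P h) t = ∑ s ∈ F, C t s * bv h s := by
  classical
  have hy : ∀ s : ℝ, ∃ y : ℕ → ℂ, s ∈ F → ∀ x : ℝ → ℂ,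
      ∑ n ∈ Finset.range F.card, y n * ∑ t ∈ F, x t * conj (ex t ^ n) = x s := by
    intro s
    by_cases hs : s ∈ F
    · obtain ⟨y, hy⟩ := vand_dual F hg.ico s hs
      exact ⟨y, fun _ => hy⟩
    · exact ⟨0, fun h => absurd h hs⟩
  choose y hy using hy
  refine ⟨fun t s => (w t : ℂ)⁻¹ * ∑ n ∈ Finset.range F.card, y t n * ((w s : ℂ) * conj (bv (P (e n)) s)), ?_⟩
  intro h hh t ht
  have h1 := hy t ht (fun s => (w s : ℂ) * bv (P h) s)
  have h2 : ∀ n : ℕ, ∑ s ∈ F, (w s : ℂ) * bv (P h) s * conj (ex s ^ n) =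
      ∑ s ∈ F, (w s : ℂ) * bv h s * conj (bv (P (e n)) s) := by
    intro n
    have := hg.idt h hh (e n) (Fam_mem P n)
    rw [← sub_eq_zero, ← Finset.sum_sub_distrib, ← this]
    refine Finset.sum_congr rfl fun s hs => ?_
    rw [hg.he s hs n]; ring
  simp only [h2] at h1
  have hw : (w t : ℂ) ≠ 0 := by exact_mod_cast (hg.pos t ht).ne'
  have h3 : bv (P h) t = (w t : ℂ)⁻¹ * ((w t : ℂ) * bv (P h) t) := by
    rw [inv_mul_cancel_left₀ hw]
  rw [h3, ← h1, Finset.mul_sum]
  simp only [Finset.mul_sum, Finset.sum_mul]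
  rw [Finset.sum_comm]
  refine Finset.sum_congr rfl fun s _ => Finset.sum_congr rfl fun n _ => ?_
  ring
-- END fib_P

-- BEGIN fib_word
/-- every word acts on the fibre by a matrix: induction on `l`, for all `h ∈ Fam P` -/
theorem fib_word {P : H →L[ℂ] H} {F : Finset ℝ} {w : ℝ → ℝ} (hg : Good P F w) (l : List Bool) :
    ∃ C : ℝ → ℝ → ℂ, ∀ h ∈ Fam P, ∀ t ∈ F, bv (opB P l h) t = ∑ s ∈ F, C t s * bv h s := by
  classical
  induction l with
  | nil =>
    refine ⟨fun t s => if s = t then 1 else 0, fun h _ t ht => ?_⟩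
    simp [ht]
    rfl
  | cons x l ih =>
    obtain ⟨C, hC⟩ := ih
    cases x with
    | true =>
      obtain ⟨C1, hC1⟩ := fib_P hg
      refine ⟨fun t s => ∑ r ∈ F, C t r * C1 r s, fun h hh t ht => ?_⟩
      change bv (opB P l (P h)) t = _
      rw [hC _ (Fam_cl P hh).1 t ht]
      simp only [Finset.sum_mul]
      rw [Finset.sum_comm]
      refine Finset.sum_congr rfl fun r hr => ?_
      rw [hC1 h hh r hr, Finset.mul_sum]
      refine Finset.sum_congr rfl fun s _ => by ring
    | false =>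
      refine ⟨fun t s => C t s * ex s, fun h hh t ht => ?_⟩
      change bv (opB P l (S h)) t = _
      rw [hC _ (Fam_cl P hh).2 t ht]
      refine Finset.sum_congr rfl fun s hs => ?_
      rw [hg.hS s hs h hh]; ring
-- END fib_word

-- BEGIN det_small
/-- a matrix which factors through `ℂ^F`, `|F| < N`, has determinant `0` (`Matrix.rank_mul_le_left`, `Matrix.rank_le_card_width`) -/
theorem det_small {N : ℕ} (F : Finset ℝ) (hF : F.card < N) (A : Fin N → ℝ → ℂ) (B : ℝ → Fin N → ℂ) :
    (Matrix.of fun i j => ∑ s ∈ F, A i s * B s j).det = 0 := by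
  classical
  by_contra hne
  have hM : (Matrix.of fun i j => ∑ s ∈ F, A i s * B s j) =
      (Matrix.of fun (i : Fin N) (s : F) => A i s) * (Matrix.of fun (s : F) (j : Fin N) => B s j) := by
    ext i j
    rw [Matrix.mul_apply, Matrix.of_apply, ← Finset.sum_coe_sort F]
    rfl
  have h1 : (Matrix.of fun i j => ∑ s ∈ F, A i s * B s j).rank = N := by
    rw [Matrix.rank_of_isUnit _ ((Matrix.isUnit_iff_isUnit_det _).2 (isUnit_iff_ne_zero.2 hne)), Fintype.card_fin]
  have h2 : (Matrix.of fun i j => ∑ s ∈ F, A i s * B s j).rank ≤ F.card := by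
    rw [hM]
    refine (Matrix.rank_mul_le_left _ _).trans ((Matrix.rank_le_card_width _).trans ?_)
    rw [Fintype.card_coe]
  omega
-- END det_small

-- BEGIN fib_det
theorem fib_det {P : H →L[ℂ] H} {F : Finset ℝ} {w : ℝ → ℝ} (hg : Good P F w) {θ : ℝ} (hθ : θ ∈ F) {N : ℕ}
    (hN : F.card < N) (l : Fin N → List Bool) (n : Fin N → ℕ) :
    (Matrix.of fun i j => entb P (l i) (n j) θ).det = 0 := by
  choose C hC using fun i : Fin N => fib_word hg (l i)
  rw [← det_small F hN (fun i s => C i θ s) (fun s j => bv (e (n j)) s)]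
  congr 1
  ext i j
  rw [Matrix.of_apply, Matrix.of_apply]
  exact hC i (e (n j)) (Fam_mem P (n j)) θ hθ
-- END fib_det

end Nrd
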