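import Pool.Agent.Nrd.Uni
import Pool.Agent.Nrd.Wrd
import Pool.Agent.Nrd.Fib

/-! ## All large minors vanish in the disc -/

set_option autoImplicit false

namespace Nrd

open MeasureTheory Filter Topology
open scoped ComplexConjugate InnerProductSpace

-- BEGIN bd_meas
/-- a bounded measurable version of the boundary function (a.e. limit of the continuous functions `φ(r_j e^{iθ})`, `r_j = 1 - 1/(j+2)`:
`aemeasurable_of_tendsto_metrizable_ae`; cut off at `C`) -/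
theorem bd_meas (φ : ℂ → ℂ) (hφ : DifferentiableOn ℂ φ D) (C : ℝ) (hC : ∀ z ∈ D, ‖φ z‖ ≤ C) (bd : ℝ → ℂ)
    (hbd : ∀ᵐ θ : ℝ, Tendsto (fun r : ℝ => φ (r * ex θ)) (𝓝[<] 1) (𝓝 (bd θ))) :
    ∃ b : ℝ → ℂ, Measurable b ∧ (∀ θ, ‖b θ‖ ≤ C) ∧ ∀ᵐ θ ∂mu, bd θ = b θ := by
  classical
  have hr0 : ∀ j : ℕ, (0 : ℝ) ≤ 1 - 1 / ((j : ℝ) + 2) := by
    intro j
    have h1 : (0 : ℝ) < (j : ℝ) + 2 := by positivity
    rw [sub_nonneg, div_le_one h1]
    have : (0 : ℝ) ≤ (j : ℝ) := Nat.cast_nonneg j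
    linarith
  have hr1 : ∀ j : ℕ, 1 - 1 / ((j : ℝ) + 2) < 1 := by
    intro j
    have h1 : (0 : ℝ) < 1 / ((j : ℝ) + 2) := by positivity
    linarith
  have hlim0 : Tendsto (fun j : ℕ => 1 - 1 / ((j : ℝ) + 2)) atTop (𝓝 1) := by
    have h1 : Tendsto (fun j : ℕ => 1 / ((j : ℝ) + 2)) atTop (𝓝 0) :=
      (tendsto_const_nhds.div_atTop (tendsto_atTop_add_const_right _ 2 tendsto_natCast_atTop_atTop))
    have h2 := tendsto_const_nhds (x := (1 : ℝ)) (f := (atTop : Filter ℕ)) |>.sub h1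
    rw [sub_zero] at h2
    exact h2
  have hlim : Tendsto (fun j : ℕ => 1 - 1 / ((j : ℝ) + 2)) atTop (𝓝[<] 1) :=
    tendsto_nhdsWithin_iff.mpr ⟨hlim0, Eventually.of_forall hr1⟩
  have hcont : ∀ j : ℕ, Continuous (fun θ : ℝ => φ (((1 - 1 / ((j : ℝ) + 2) : ℝ) : ℂ) * ex θ)) := by
    intro j
    refine hφ.continuousOn.comp_continuous (continuous_const.mul ex_cont) ?_
    intro θ
    exact mem_r (hr0 j) (hr1 j) θ
  have hae : ∀ᵐ θ : ℝ, Tendsto (fun j : ℕ => φ (((1 - 1 / ((j : ℝ) + 2) : ℝ) : ℂ) * ex θ)) atTop (𝓝 (bd θ)) := by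
    filter_upwards [hbd] with θ hθ
    exact hθ.comp hlim
  have hm : AEMeasurable bd volume :=
    aemeasurable_of_tendsto_metrizable_ae atTop (fun j => (hcont j).measurable.aemeasurable) hae
  have hC0 : 0 ≤ C := (norm_nonneg _).trans (hC 0 (by rw [mem_D, norm_zero]; exact one_pos))
  have hbC : ∀ᵐ θ : ℝ, ‖bd θ‖ ≤ C := by
    filter_upwards [hae] with θ hθ
    exact le_of_tendsto hθ.norm (Eventually.of_forall fun j => hC _ (mem_r (hr0 j) (hr1 j) θ))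
  have hset : MeasurableSet {θ : ℝ | ‖hm.mk bd θ‖ ≤ C} :=
    measurableSet_le hm.measurable_mk.norm measurable_const
  refine ⟨fun θ => if ‖hm.mk bd θ‖ ≤ C then hm.mk bd θ else 0,
    Measurable.ite hset hm.measurable_mk measurable_const, ?_, ?_⟩
  · intro θ
    by_cases h : ‖hm.mk bd θ‖ ≤ C
    · simp only [h, if_true]
    · simp only [h, if_false, norm_zero]
      exact hC0
  · unfold mu
    refine ae_restrict_of_ae ?_
    filter_upwards [hbC, hm.ae_eq_mk] with θ h1 h2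
    rw [← h2, if_pos h1]
-- END bd_meas
-- BEGIN bv_iter
/-- `bv (T^[n] a) = bd^n bv a` a.e. (induction, `bv_T`) -/
theorem bv_iter (φ : ℂ → ℂ) (bd : ℝ → ℂ)
    (hbd : ∀ᵐ θ : ℝ, Tendsto (fun r : ℝ => φ (r * ex θ)) (𝓝[<] 1) (𝓝 (bd θ))) (T : H → H)
    (hT : ∀ a, ∀ z ∈ D, φ z * ev a z = ev (T a) z) (a : H) (n : ℕ) :
    ∀ᵐ θ ∂mu, bv (T^[n] a) θ = bd θ ^ n * bv a θ := by
  induction n with
  | zero =>
    refine Eventually.of_forall fun θ => ?_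
    rw [pow_zero, one_mul]
    rfl
  | succ n ih =>
    have h1 := bv_T φ bd hbd (T^[n] a) (T (T^[n] a)) (hT (T^[n] a))
    filter_upwards [ih, h1] with θ h2 h3
    rw [Function.iterate_succ_apply', h3, h2, pow_succ]
    ring
-- END bv_iter
-- BEGIN ident
/-- the identity: `∫ bd^n conj bd^m ((Ph)* conj k* - h* conj (Pk)*) = 2π (⟪T^m k, T^n P h⟫ - ⟪T^m P k, T^n h⟫) = 0` -/
theorem ident (φ : ℂ → ℂ) (bd : ℝ → ℂ)
    (hbd : ∀ᵐ θ : ℝ, Tendsto (fun r : ℝ => φ (r * ex θ)) (𝓝[<] 1) (𝓝 (bd θ))) (P : H →L[ℂ] H)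
    (hP : ∀ a b : H, ⟪P a, b⟫_ℂ = ⟪a, P b⟫_ℂ) (T : H → H) (hT : ∀ a, ∀ z ∈ D, φ z * ev a z = ev (T a) z)
    (hPT : ∀ a, P (T a) = T (P a)) (h k : H) (n m : ℕ) :
    ∫ θ, bd θ ^ n * conj (bd θ) ^ m * (bv (P h) θ * conj (bv k θ) - bv h θ * conj (bv (P k) θ)) ∂mu = 0 := by
  have hPTn : ∀ (a : H) (i : ℕ), T^[i] (P a) = P (T^[i] a) := by
    intro a i
    induction i with
    | zero => rfl
    | succ i ih => rw [Function.iterate_succ_apply', Function.iterate_succ_apply', ih, hPT]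
  have hint : ∀ a b : H, Integrable (fun θ => bv a θ * conj (bv b θ)) mu := by
    intro a b
    have h1 : MemLp (fun θ => conj (bv b θ)) 2 mu := by
      refine (bv_mem b).mono (Complex.continuous_conj.measurable.comp (bv_meas b)).aestronglyMeasurable ?_
      exact Eventually.of_forall fun θ => by rw [Complex.norm_conj]
    exact (bv_mem a).integrable_mul h1
  have h1 := bv_iter φ bd hbd T hT (P h) n
  have h2 := bv_iter φ bd hbd T hT k m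
  have h3 := bv_iter φ bd hbd T hT h n
  have h4 := bv_iter φ bd hbd T hT (P k) m
  have h5 : ∫ θ, bd θ ^ n * conj (bd θ) ^ m * (bv (P h) θ * conj (bv k θ) - bv h θ * conj (bv (P k) θ)) ∂mu =
      ∫ θ, (bv (T^[n] (P h)) θ * conj (bv (T^[m] k) θ) -
        bv (T^[n] h) θ * conj (bv (T^[m] (P k)) θ)) ∂mu := by
    refine integral_congr_ae ?_
    filter_upwards [h1, h2, h3, h4] with θ e1 e2 e3 e4
    rw [e1, e2, e3, e4, map_mul, map_mul, map_pow]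
    ring
  rw [h5, integral_sub (hint _ _) (hint _ _), bv_pars, bv_pars, hPTn, hPTn, hP, sub_self]
-- END ident
-- BEGIN u_int
/-- products of two `L²` functions -/
theorem u_int (a b c d : H) : Integrable (fun θ => bv a θ * conj (bv b θ) - bv c θ * conj (bv d θ)) mu := by
  have h1 : ∀ a b : H, Integrable (fun θ => bv a θ * conj (bv b θ)) mu := by
    intro a b
    have h2 : MemLp (star (bv b)) 2 mu := (bv_mem b).star
    exact (bv_mem a).integrable_mul h2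
  exact (h1 a b).sub (h1 c d)
-- END u_int
-- BEGIN good_ae
/-- `fibre` with index type `Fam P × Fam P`, `N` = the set where one of the countably many relations `bv_e`, `bv_S` fails -/
theorem good_ae (φ : ℂ → ℂ) (hφ : DifferentiableOn ℂ φ D) (C : ℝ) (hC : ∀ z ∈ D, ‖φ z‖ ≤ C) (bd : ℝ → ℂ)
    (hbd : ∀ᵐ θ : ℝ, Tendsto (fun r : ℝ => φ (r * ex θ)) (𝓝[<] 1) (𝓝 (bd θ))) (E : Set ℝ)
    (hE : ∀ θ ∈ E, {t : ℝ | t ∈ Set.Ico 0 (2 * Real.pi) ∧ bd t = bd θ}.Finite) (P : H →L[ℂ] H)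
    (hP : ∀ a b : H, ⟪P a, b⟫_ℂ = ⟪a, P b⟫_ℂ) (T : H → H) (hT : ∀ a, ∀ z ∈ D, φ z * ev a z = ev (T a) z)
    (hPT : ∀ a, P (T a) = T (P a)) :
    ∀ᵐ θ ∂mu, θ ∈ E → ∃ (F : Finset ℝ) (w : ℝ → ℝ), θ ∈ F ∧ Good P F w := by
  obtain ⟨b, hb1, hb2, hb3⟩ := bd_meas φ hφ C hC bd hbd
  have hcount : Countable (Fam P) := (Fam_countable P).to_subtype
  have hN : ∀ᵐ θ ∂mu, (∀ n : ℕ, bv (e n) θ = ex θ ^ n) ∧ ∀ h : Fam P, bv (S (h : H)) θ = ex θ * bv (h : H) θ := by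
    have h1 : ∀ᵐ θ ∂mu, ∀ n : ℕ, bv (e n) θ = ex θ ^ n := ae_all_iff.2 fun n => bv_e n
    have h2 : ∀ᵐ θ ∂mu, ∀ h : Fam P, bv (S (h : H)) θ = ex θ * bv (h : H) θ := ae_all_iff.2 fun h => bv_S _
    filter_upwards [h1, h2] with θ a1 a2 using ⟨a1, a2⟩
  have key := fibre (ι := Fam P × Fam P) bd b hb1 C hb2 hb3
    (fun p θ => bv (P (p.1 : H)) θ * conj (bv (p.2 : H) θ) - bv (p.1 : H) θ * conj (bv (P (p.2 : H)) θ))
    (fun p => ((bv_meas _).mul (Complex.continuous_conj.measurable.comp (bv_meas _))).sub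
      ((bv_meas _).mul (Complex.continuous_conj.measurable.comp (bv_meas _))))
    (fun p => u_int _ _ _ _)
    (fun p n m => by
      rw [← ident φ bd hbd P hP T hT hPT (p.1 : H) (p.2 : H) n m]
      refine integral_congr_ae ?_
      filter_upwards [hb3] with θ hθ
      rw [hθ])
    {θ | ¬ ((∀ n : ℕ, bv (e n) θ = ex θ ^ n) ∧ ∀ h : Fam P, bv (S (h : H)) θ = ex θ * bv (h : H) θ)} hN E hE
  filter_upwards [key] with θ hθ hE'
  obtain ⟨F, hF1, hF2, w, hw1, hw2⟩ := hθ hE'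
  refine ⟨F, w, hF1, ?_⟩
  have hrel : ∀ t ∈ F, (∀ n : ℕ, bv (e n) t = ex t ^ n) ∧ ∀ h : Fam P, bv (S (h : H)) t = ex t * bv (h : H) t := by
    intro t ht
    have := (hF2 t ht).2
    simp only [Set.mem_setOf_eq, not_not] at this
    exact this
  exact ⟨fun t ht => (hF2 t ht).1, hw1, fun t ht n => (hrel t ht).1 n, fun t ht h hh => (hrel t ht).2 ⟨h, hh⟩,
    fun h hh k hk => hw2 (⟨h, hh⟩, ⟨k, hk⟩)⟩
-- END good_ae

/-- the set where all boundary minors of size `N` vanish -/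
def VV (P : H →L[ℂ] H) (N : ℕ) : Set ℝ :=
  {θ | ∀ (l : Fin N → List Bool) (n : Fin N → ℕ), (Matrix.of fun i j => entb P (l i) (n j) θ).det = 0}

-- BEGIN VV_meas
theorem VV_meas (P : H →L[ℂ] H) (N : ℕ) : MeasurableSet (VV P N) := by
  have h1 : VV P N = ⋂ (l : Fin N → List Bool) (n : Fin N → ℕ),
      {θ | (Matrix.of fun i j => entb P (l i) (n j) θ).det = 0} := by
    ext θ
    simp [VV]
  rw [h1]
  refine MeasurableSet.iInter fun l => MeasurableSet.iInter fun n => ?_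
  have h2 : Measurable fun θ => (Matrix.of fun i j => entb P (l i) (n j) θ).det := by
    simp only [Matrix.det_apply, Matrix.of_apply]
    refine Finset.measurable_sum _ fun σ _ => ?_
    refine Measurable.const_smul ?_ _
    exact Finset.measurable_prod _ fun i _ => bv_meas _
  exact h2 (measurableSet_singleton 0)
-- END VV_meas
-- BEGIN VV_pos
/-- countable subadditivity of the outer measure: `E ⊆ null set ∪ ⋃ VV P N` -/
theorem VV_pos (P : H →L[ℂ] H) (E : Set ℝ) (hE1 : E ⊆ Set.Ico 0 (2 * Real.pi)) (hE0 : volume E ≠ 0)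
    (h : ∀ᵐ θ ∂mu, θ ∈ E → ∃ (F : Finset ℝ) (w : ℝ → ℝ), θ ∈ F ∧ Good P F w) : ∃ N, mu (VV P N) ≠ 0 := by
  by_contra hN
  push_neg at hN
  apply hE0
  have hEmu : volume E = mu E := by
    unfold mu
    rw [Measure.restrict_apply' measurableSet_Ico, Set.inter_eq_left.2 hE1]
  rw [hEmu]
  have hsub : E ⊆ {θ | ¬ (θ ∈ E → ∃ (F : Finset ℝ) (w : ℝ → ℝ), θ ∈ F ∧ Good P F w)} ∪ ⋃ N, VV P N := by
    intro θ hθ
    by_cases hx : ∃ (F : Finset ℝ) (w : ℝ → ℝ), θ ∈ F ∧ Good P F w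
    · right
      obtain ⟨F, w, hF, hg⟩ := hx
      exact Set.mem_iUnion.2 ⟨F.card + 1, fun l n => fib_det hg hF (Nat.lt_succ_self _) l n⟩
    · left
      exact fun hc => hx (hc hθ)
  refine measure_mono_null hsub (measure_union_null ?_ (measure_iUnion_null hN))
  exact h
-- END VV_pos

-- BEGIN minors
/-- from `good_ae`, `VV_pos`, `uni_det` -/
theorem minors (φ : ℂ → ℂ) (hφ : DifferentiableOn ℂ φ D) (C : ℝ) (hC : ∀ z ∈ D, ‖φ z‖ ≤ C) (bd : ℝ → ℂ)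
    (hbd : ∀ᵐ θ : ℝ, Tendsto (fun r : ℝ => φ (r * ex θ)) (𝓝[<] 1) (𝓝 (bd θ))) (E : Set ℝ)
    (hE1 : E ⊆ Set.Ico 0 (2 * Real.pi)) (hE0 : volume E ≠ 0)
    (hE : ∀ θ ∈ E, {t : ℝ | t ∈ Set.Ico 0 (2 * Real.pi) ∧ bd t = bd θ}.Finite) (P : H →L[ℂ] H)
    (hP : ∀ a b : H, ⟪P a, b⟫_ℂ = ⟪a, P b⟫_ℂ) (T : H → H) (hT : ∀ a, ∀ z ∈ D, φ z * ev a z = ev (T a) z)
    (hPT : ∀ a, P (T a) = T (P a)) :
    ∃ N : ℕ, ∀ (l : Fin N → List Bool) (n : Fin N → ℕ), ∀ z ∈ D, (Matrix.of fun i j => ent P (l i) (n j) z).det = 0 := by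
  obtain ⟨N, hN⟩ := VV_pos P E hE1 hE0 (good_ae φ hφ C hC bd hbd E hE P hP T hT hPT)
  refine ⟨N, fun l n z hz => ?_⟩
  exact uni_det (fun i j => opB P (l i) (e (n j))) (VV P N) (VV_meas P N) hN
    (Filter.Eventually.of_forall fun θ hθ => hθ l n) z hz
-- END minors

-- BEGIN nonconst
/-- a constant `φ` has an a.e. constant boundary function, and then only a null set of `θ` has finite fibres (none) -/
theorem nonconst (φ : ℂ → ℂ) (bd : ℝ → ℂ)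
    (hbd : ∀ᵐ θ : ℝ, Tendsto (fun r : ℝ => φ (r * ex θ)) (𝓝[<] 1) (𝓝 (bd θ))) (E : Set ℝ)
    (hE1 : E ⊆ Set.Ico 0 (2 * Real.pi)) (hE0 : volume E ≠ 0)
    (hE : ∀ θ ∈ E, {t : ℝ | t ∈ Set.Ico 0 (2 * Real.pi) ∧ bd t = bd θ}.Finite) : ¬ ∃ c, ∀ z ∈ D, φ z = c := by
  rintro ⟨c, hc⟩
  have h1 : ∀ᵐ θ : ℝ, bd θ = c := by
    filter_upwards [hbd] with θ hθ
    have h2 : (fun r : ℝ => φ (r * ex θ)) =ᶠ[𝓝[<] 1] fun _ => c := by
      have h3 : Set.Ioo (0 : ℝ) 1 ∈ 𝓝[<] (1 : ℝ) := Ioo_mem_nhdsLT zero_lt_one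
      filter_upwards [h3] with r hr
      exact hc _ (mem_r hr.1.le hr.2 θ)
    exact tendsto_nhds_unique hθ (tendsto_const_nhds.congr' h2.symm)
  have h4 : volume {θ : ℝ | ¬ bd θ = c} = 0 := ae_iff.1 h1
  obtain ⟨θ, hθ, hθ2⟩ : ∃ θ ∈ E, bd θ = c := by
    by_contra hcon
    push Not at hcon
    exact hE0 (measure_mono_null (fun θ hθ => hcon θ hθ) h4)
  have h5 := hE θ hθ
  rw [hθ2] at h5
  have h6 : Set.Ico 0 (2 * Real.pi) ⊆ {t : ℝ | t ∈ Set.Ico 0 (2 * Real.pi) ∧ bd t = c} ∪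
      {θ : ℝ | ¬ bd θ = c} := by
    intro t ht
    by_cases h : bd t = c
    · exact Or.inl ⟨ht, h⟩
    · exact Or.inr h
  have h7 : volume (Set.Ico 0 (2 * Real.pi)) = 0 :=
    measure_mono_null h6 (measure_union_null (h5.measure_zero volume) h4)
  rw [Real.volume_Ico, ENNReal.ofReal_eq_zero] at h7
  linarith [Real.pi_pos]
-- END nonconst
end Nrd
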