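import Pool.Agent.Nrd.Fin

/-!
# Reducing subspaces of analytic Toeplitz operators (MP_cca8cd_an): the definitions of the statement
-/

set_option autoImplicit false

namespace Nrd

open MeasureTheory Filter Topology
open scoped ComplexConjugate InnerProductSpace

/-- Bounded analytic functions on the unit disc. -/
def Hinf (φ : ℂ → ℂ) : Prop := DifferentiableOn ℂ φ D ∧ ∃ C : ℝ, ∀ z ∈ D, ‖φ z‖ ≤ C

/-- `bd` is the boundary function: `φ(r e^{iθ}) → bd θ` as `r → 1` from below, for almost every real `θ`. -/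
def IsBdry (φ : ℂ → ℂ) (bd : ℝ → ℂ) : Prop :=
  ∀ᵐ θ : ℝ, Tendsto (fun r : ℝ => φ (r * ex θ)) (𝓝[<] 1) (𝓝 (bd θ))

/-- The sequence `a` is square summable: the function `∑ a_n zⁿ` is in `H²`. -/
def L2 (a : ℕ → ℂ) : Prop := Summable fun n : ℕ => ‖a n‖ ^ 2

/-- The value at `z` of the function with Taylor coefficients `a`. -/
noncomputable def fn (a : ℕ → ℂ) (z : ℂ) : ℂ := ∑' n : ℕ, a n * z ^ n

/-- `M` is a closed linear subspace of `H²`, given by the sequences of Taylor coefficients. -/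
def ClosedSub (M : Set (ℕ → ℂ)) : Prop :=
  (∀ a ∈ M, L2 a) ∧ 0 ∈ M ∧ (∀ a ∈ M, ∀ b ∈ M, a + b ∈ M) ∧ (∀ c : ℂ, ∀ a ∈ M, c • a ∈ M) ∧
    ∀ a, L2 a → (∀ ε : ℝ, 0 < ε → ∃ b ∈ M, ∑' n : ℕ, ‖a n - b n‖ ^ 2 < ε) → a ∈ M

/-- The orthogonal complement of `M` in `H²`. -/
def Perp (M : Set (ℕ → ℂ)) : Set (ℕ → ℂ) := {b | L2 b ∧ ∀ a ∈ M, ∑' n : ℕ, conj (a n) * b n = 0}

/-- Multiplication by `φ` maps the functions of `M` to functions of `M`. -/
def Inv (φ : ℂ → ℂ) (M : Set (ℕ → ℂ)) : Prop := ∀ a ∈ M, ∃ b ∈ M, ∀ z ∈ D, φ z * fn a z = fn b z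

/-- `M` is a closed reducing subspace of multiplication by `φ` on `H²`, other than `0` and `H²`. -/
def Reduces (φ : ℂ → ℂ) (M : Set (ℕ → ℂ)) : Prop :=
  ClosedSub M ∧ Inv φ M ∧ Inv φ (Perp M) ∧ (∃ a ∈ M, a ≠ 0) ∧ ∃ a, L2 a ∧ a ∉ M

theorem L2_iff (a : ℕ → ℂ) : L2 a ↔ Memℓp a 2 := by
  rw [memℓp_gen_iff (by norm_num)]
  unfold L2
  rw [ENNReal.toReal_ofNat]
  simp only [Real.rpow_ofNat]

/-- square summable sequences as elements of `lp` -/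
noncomputable def mk (a : ℕ → ℂ) (h : L2 a) : H := ⟨a, (L2_iff a).1 h⟩

theorem L2_coe (a : H) : L2 (fun n => a n) := (L2_iff _).2 (lp.memℓp a)

theorem norm_sq_H (a : H) : ‖a‖ ^ 2 = ∑' n : ℕ, ‖a n‖ ^ 2 := by
  have h := lp.norm_rpow_eq_tsum (p := 2) (by norm_num) a
  rw [ENNReal.toReal_ofNat] at h
  simp only [Real.rpow_ofNat] at h
  exact h

theorem reduces_sub (φ : ℂ → ℂ) (M : Set (ℕ → ℂ)) (hM : Reduces φ M) :
    ∃ N : Submodule ℂ H, IsClosed (N : Set H) ∧ (∀ a ∈ N, ∃ b ∈ N, ∀ z ∈ D, φ z * ev a z = ev b z) ∧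
      (∀ a ∈ Nᗮ, ∃ b ∈ Nᗮ, ∀ z ∈ D, φ z * ev a z = ev b z) ∧ N ≠ ⊥ ∧ N ≠ ⊤ := by
  obtain ⟨⟨hL, h0, hadd, hsmul, hcl⟩, h1, h2, ⟨a, haM, ha0⟩, b, hb, hbM⟩ := hM
  let N : Submodule ℂ H :=
    { carrier := {a : H | (fun n => a n) ∈ M}
      add_mem' := fun {a b} ha hb => hadd _ ha _ hb
      zero_mem' := h0
      smul_mem' := fun c a ha => hsmul c _ ha }
  have hN : ∀ x : H, x ∈ N ↔ (fun n => x n) ∈ M := fun x => Iff.rfl
  have hperp : ∀ x : H, x ∈ Nᗮ ↔ (fun n => x n) ∈ Perp M := by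
    intro x
    rw [Submodule.mem_orthogonal]
    constructor
    · intro h
      refine ⟨L2_coe x, fun a ha => ?_⟩
      have h3 := h (mk a (hL a ha)) ha
      rw [lp.inner_eq_tsum] at h3
      rw [← h3]
      refine tsum_congr fun n => ?_
      change conj (a n) * x n = ⟪a n, x n⟫_ℂ
      simp [mul_comm]
    · rintro ⟨_, h⟩ u hu
      have h3 := h _ hu
      rw [lp.inner_eq_tsum, ← h3]
      refine tsum_congr fun n => ?_
      simp [mul_comm]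
  refine ⟨N, ?_, ?_, ?_, ?_, ?_⟩
  · refine isClosed_of_closure_subset fun x hx => ?_
    refine hcl _ (L2_coe x) fun ε hε => ?_
    obtain ⟨y, hy, hxy⟩ := Metric.mem_closure_iff.1 hx (Real.sqrt ε) (Real.sqrt_pos.2 hε)
    refine ⟨_, hy, ?_⟩
    have h3 := norm_sq_H (x - y)
    have h4 : ∑' n : ℕ, ‖x n - y n‖ ^ 2 = ‖x - y‖ ^ 2 := by
      rw [h3]; rfl
    rw [dist_eq_norm] at hxy
    change ∑' n : ℕ, ‖x n - y n‖ ^ 2 < ε
    rw [h4]
    calc ‖x - y‖ ^ 2 < Real.sqrt ε ^ 2 := by gcongr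
      _ = ε := Real.sq_sqrt hε.le
  · intro x hx
    obtain ⟨y, hy, hxy⟩ := h1 _ hx
    exact ⟨mk y (hL y hy), hy, hxy⟩
  · intro x hx
    obtain ⟨y, hy, hxy⟩ := h2 _ ((hperp x).1 hx)
    exact ⟨mk y hy.1, (hperp _).2 hy, hxy⟩
  · intro h
    have h3 : mk a (hL a haM) ∈ N := haM
    rw [h] at h3
    have h4 := (Submodule.mem_bot ℂ).1 h3
    apply ha0
    funext n
    have h5 : (mk a (hL a haM)) n = (0 : H) n := by rw [h4]
    exact h5
  · intro h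
    have h3 : mk b hb ∈ N := by rw [h]; exact Submodule.mem_top
    exact hbM h3

end Nrd
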