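import Pool.Agent.Nrd.Bdy

/-! ## Uniqueness: determinants of `H²` functions which vanish on a boundary set of positive measure -/

set_option autoImplicit false

namespace Nrd

open MeasureTheory Filter Topology
open scoped ComplexConjugate InnerProductSpace

-- BEGIN ui
private theorem ui_int {f : ℝ → ℝ} (hm : Measurable f) (h0 : ∀ θ, 0 ≤ f θ)
    (hi : Integrable (fun θ => f θ ^ 2) mu) : Integrable f mu := by
  refine ((integrable_const (1 : ℝ)).add hi).mono' hm.aestronglyMeasurable (Eventually.of_forall fun θ => ?_)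
  rw [Real.norm_of_nonneg (h0 θ), Pi.add_apply]
  nlinarith [sq_nonneg (f θ - 1), h0 θ]

/-- truncate: `x ≤ min x K + x² / K` -/
theorem ui (x : ℕ → ℝ → ℝ) (hm : ∀ j, Measurable (x j)) (h0 : ∀ j θ, 0 ≤ x j θ) (K : ℝ)
    (hi : ∀ j, Integrable (fun θ => x j θ ^ 2) mu) (hK : ∀ j, ∫ θ, x j θ ^ 2 ∂mu ≤ K) (V : Set ℝ)
    (hV : MeasurableSet V) (h : ∀ᵐ θ ∂mu, θ ∈ V → Tendsto (fun j => x j θ) atTop (𝓝 0)) :
    Tendsto (fun j => ∫ θ in V, x j θ ∂mu) atTop (𝓝 0) := by
  have hK0 : 0 ≤ K := (integral_nonneg fun θ => sq_nonneg (x 0 θ)).trans (hK 0)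
  rw [Metric.tendsto_atTop]
  intro ε hε
  obtain ⟨L, hL⟩ : ∃ L : ℝ, L = 2 * K / ε + 1 := ⟨_, rfl⟩
  have hL0 : 0 < L := by
    rw [hL]
    positivity
  have hKL : K / L < ε / 2 := by
    rw [div_lt_iff₀ hL0, hL]
    have h1 : ε / 2 * (2 * K / ε + 1) = K + ε / 2 := by
      field_simp
    rw [h1]
    linarith
  have hlim : Tendsto (fun j => ∫ θ in V, min (x j θ) L ∂mu) atTop (𝓝 (∫ θ in V, (0 : ℝ) ∂mu)) := by
    refine tendsto_integral_of_dominated_convergence (fun _ => L)
      (fun j => ((hm j).min measurable_const).aestronglyMeasurable) (integrable_const _)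
      (fun j => Eventually.of_forall fun θ => ?_) ?_
    · rw [Real.norm_of_nonneg (le_min (h0 j θ) hL0.le)]
      exact min_le_right _ _
    · refine (ae_restrict_iff' hV).2 (h.mono fun θ hθ hθV => ?_)
      have h2 := (hθ hθV).min (tendsto_const_nhds (x := L))
      rwa [min_eq_left hL0.le] at h2
  rw [integral_zero, Metric.tendsto_atTop] at hlim
  obtain ⟨N, hN⟩ := hlim (ε / 2) (half_pos hε)
  refine ⟨N, fun j hj => ?_⟩
  have h3 := hN j hj
  rw [Real.dist_eq, sub_zero] at h3 ⊢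
  have h4 : 0 ≤ ∫ θ in V, x j θ ∂mu := integral_nonneg fun θ => h0 j θ
  rw [abs_of_nonneg h4]
  have hmin : Integrable (fun θ => min (x j θ) L) (mu.restrict V) := by
    refine (integrable_const L).mono' ((hm j).min measurable_const).aestronglyMeasurable
      (Eventually.of_forall fun θ => ?_)
    rw [Real.norm_of_nonneg (le_min (h0 j θ) hL0.le)]
    exact min_le_right _ _
  have hsq : Integrable (fun θ => x j θ ^ 2 / L) (mu.restrict V) := ((hi j).integrableOn).div_const L
  have h5 : ∫ θ in V, x j θ ∂mu ≤ ∫ θ in V, (min (x j θ) L + x j θ ^ 2 / L) ∂mu := by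
    refine integral_mono (ui_int (hm j) (h0 j) (hi j)).integrableOn (hmin.add hsq) fun θ => ?_
    beta_reduce
    rcases le_total (x j θ) L with h6 | h6
    · rw [min_eq_left h6]
      have h7 : 0 ≤ x j θ ^ 2 / L := by positivity
      linarith
    · rw [min_eq_right h6]
      have h7 : x j θ ≤ x j θ ^ 2 / L := by
        rw [le_div_iff₀ hL0]
        nlinarith [h0 j θ]
      linarith
  rw [integral_add hmin hsq] at h5
  have h6 : ∫ θ in V, x j θ ^ 2 / L ∂mu ≤ K / L := by
    rw [integral_div]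
    refine div_le_div_of_nonneg_right ?_ hL0.le
    exact (setIntegral_le_integral (hi j) (Eventually.of_forall fun θ => sq_nonneg _)).trans (hK j)
  have h7 := le_abs_self (∫ θ in V, min (x j θ) L ∂mu)
  linarith
-- END ui
-- BEGIN jen_int
/-- `log ‖g‖` is integrable on circles (`circleIntegrable_log_norm_meromorphicOn`) -/
theorem jen_int (g : ℂ → ℂ) (hg : DifferentiableOn ℂ g D) {r : ℝ} (h0 : 0 < r) (h1 : r < 1) :
    Integrable (fun θ : ℝ => Real.log ‖g (r * ex θ)‖) mu := by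
  have han : MeromorphicOn g (Metric.sphere (0 : ℂ) |r|) := by
    intro z hz
    have hzD : z ∈ D := by
      rw [mem_D]
      rw [mem_sphere_zero_iff_norm, abs_of_pos h0] at hz
      rw [hz]
      exact h1
    exact (hg.analyticAt (Metric.isOpen_ball.mem_nhds hzD)).meromorphicAt
  have h2 := han.circleIntegrable_log_norm
  unfold CircleIntegrable at h2
  rw [intervalIntegrable_iff_integrableOn_Ico_of_le (by positivity)] at h2
  refine h2.congr (Eventually.of_forall fun θ => ?_)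
  unfold circleMap ex
  beta_reduce
  rw [zero_add]
-- END jen_int
-- BEGIN jen
/-- Jensen's inequality (`AnalyticOnNhd.circleAverage_log_norm` or `MeromorphicOn.circleAverage_log_norm`) -/
theorem jen (g : ℂ → ℂ) (hg : DifferentiableOn ℂ g D) (hg0 : g 0 ≠ 0) {r : ℝ} (h0 : 0 < r) (h1 : r < 1) :
    2 * Real.pi * Real.log ‖g 0‖ ≤ ∫ θ, Real.log ‖g (r * ex θ)‖ ∂mu := by
  have han : AnalyticOnNhd ℂ g (Metric.closedBall 0 |r|) := by
    refine (hg.analyticOnNhd Metric.isOpen_ball).mono ?_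
    rw [abs_of_pos h0]
    exact Metric.closedBall_subset_ball h1
  have h2 := han.circleAverage_log_norm h0.ne' hg0
  have h3 : 0 ≤ ∑ᶠ u, (MeromorphicOn.divisor g (Metric.closedBall 0 |r|) u : ℝ) *
      Real.log (r * ‖(0 : ℂ) - u‖⁻¹) := by
    refine finsum_nonneg fun u => ?_
    by_cases hu : u ∈ Metric.closedBall (0 : ℂ) |r|
    · refine mul_nonneg (mod_cast MeromorphicOn.AnalyticOnNhd.divisor_nonneg han u) ?_
      rcases eq_or_ne u 0 with rfl | hu0
      · simp
      · refine Real.log_nonneg ?_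
        rw [zero_sub, norm_neg, ← div_eq_mul_inv, one_le_div (norm_pos_iff.2 hu0)]
        rwa [Metric.mem_closedBall, dist_zero_right, abs_of_pos h0] at hu
    · rw [Function.locallyFinsuppWithin.apply_eq_zero_of_notMem _ hu]
      simp
  have h4 : Real.circleAverage (fun z => Real.log ‖g z‖) 0 r =
      (2 * Real.pi)⁻¹ * ∫ θ, Real.log ‖g (r * ex θ)‖ ∂mu := by
    rw [Real.circleAverage_def, smul_eq_mul,
      intervalIntegral.integral_of_le (by positivity), ← integral_Ico_eq_integral_Ioc]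
    unfold mu
    congr 1
    refine integral_congr_ae (Filter.Eventually.of_forall fun θ => ?_)
    beta_reduce
    rw [circleMap_zero]
    rfl
  rw [h4] at h2
  have h5 : Real.log ‖g 0‖ ≤ (2 * Real.pi)⁻¹ * ∫ θ, Real.log ‖g (r * ex θ)‖ ∂mu := by
    rw [h2]
    linarith
  have h6 : (0 : ℝ) < 2 * Real.pi := by positivity
  calc 2 * Real.pi * Real.log ‖g 0‖
      ≤ 2 * Real.pi * ((2 * Real.pi)⁻¹ * ∫ θ, Real.log ‖g (r * ex θ)‖ ∂mu) :=
        mul_le_mul_of_nonneg_left h5 h6.le
    _ = ∫ θ, Real.log ‖g (r * ex θ)‖ ∂mu := by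
        rw [← mul_assoc, mul_inv_cancel₀ h6.ne', one_mul]
-- END jen
-- BEGIN uni_zero
private theorem uni_zero_ae (g : ℂ → ℂ) (hg : DifferentiableOn ℂ g D) (hg0 : g 0 ≠ 0) {r : ℝ}
    (h0 : 0 < r) (h1 : r < 1) : ∀ᵐ θ ∂mu, g (r * ex θ) ≠ 0 := by
  have hD : IsConnected D := by
    refine (convex_ball (0 : ℂ) 1).isConnected ⟨0, by simp⟩
  have h2 := (hg.analyticOnNhd Metric.isOpen_ball).preimage_zero_mem_codiscreteWithin hg0
    (by simp) hD
  have h3 : g ⁻¹' {0}ᶜ ∈ codiscreteWithin (Metric.sphere (0 : ℂ) |r|) := by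
    refine codiscreteWithin_mono ?_ h2
    intro z hz
    rw [mem_sphere_zero_iff_norm, abs_of_pos h0] at hz
    rw [mem_D, hz]
    exact h1
  have h4 : (circleMap 0 r) ⁻¹' (g ⁻¹' {0}ᶜ) ∈ codiscrete ℝ :=
    circleMap_preimage_codiscrete h0.ne' h3
  have h5 : (circleMap 0 r) ⁻¹' (g ⁻¹' {0}ᶜ) ∈ codiscreteWithin (Set.Ico 0 (2 * Real.pi)) :=
    codiscreteWithin_mono (Set.subset_univ _) h4
  have h6 := ae_restrict_le_codiscreteWithin (μ := volume) (measurableSet_Ico (a := (0 : ℝ)) (b := 2 * Real.pi)) h5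
  filter_upwards [h6] with θ hθ
  simpa [circleMap, ex] using hθ

/-- with `y = ‖g(r_j e^{iθ})‖ ≤ x^N`: `log y ≤ N log x`, `log x ≤ L x - log L` on `V` and `log x ≤ x` off `V` (for `x = 0` we have `y = 0`, and
`Real.log 0 = 0`: use `log ‖g‖ ≤ N log x` only where `g ≠ 0`, which is a.e.; or replace `x` by `x + η` and let `η → 0`); then
`jen`, `ui`, `∫ x ≤ ∫ (1 + x²)`; `L → ∞` -/
theorem uni_zero (g : ℂ → ℂ) (hg : DifferentiableOn ℂ g D) (N : ℕ) (hN : 0 < N) (r : ℕ → ℝ)
    (hr : ∀ j, 1 / 2 ≤ r j ∧ r j < 1) (x : ℕ → ℝ → ℝ) (hm : ∀ j, Measurable (x j)) (h0 : ∀ j θ, 0 ≤ x j θ) (K : ℝ)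
    (hi : ∀ j, Integrable (fun θ => x j θ ^ 2) mu) (hK : ∀ j, ∫ θ, x j θ ^ 2 ∂mu ≤ K) (V : Set ℝ)
    (hV : MeasurableSet V) (hV0 : mu V ≠ 0) (h : ∀ᵐ θ ∂mu, θ ∈ V → Tendsto (fun j => x j θ) atTop (𝓝 0))
    (hgx : ∀ j θ, ‖g (r j * ex θ)‖ ≤ x j θ ^ N) : g 0 = 0 := by
  by_contra hg0
  have hmu : mu.real Set.univ = 2 * Real.pi := by
    unfold mu
    rw [measureReal_restrict_apply_univ, Real.volume_real_Ico_of_le (by positivity), sub_zero]
  have hxi : ∀ j, Integrable (x j) mu := by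
    intro j
    refine Integrable.mono' ((integrable_const (1 : ℝ)).add (hi j)) (hm j).aestronglyMeasurable
      (Eventually.of_forall fun θ => ?_)
    rw [Real.norm_of_nonneg (h0 j θ), Pi.add_apply]
    nlinarith [sq_nonneg (x j θ - 1), h0 j θ]
  have hx1 : ∀ j, ∫ θ, x j θ ∂mu ≤ 2 * Real.pi + K := by
    intro j
    have h1 : ∫ θ, x j θ ∂mu ≤ ∫ θ, (1 + x j θ ^ 2) ∂mu := by
      refine integral_mono (hxi j) ((integrable_const (1 : ℝ)).add (hi j)) fun θ => ?_
      simp only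
      nlinarith [sq_nonneg (x j θ - 1), h0 j θ]
    rw [integral_add (integrable_const _) (hi j), integral_const, hmu, smul_eq_mul, mul_one] at h1
    linarith [hK j]
  have hv : 0 < mu.real V := by
    rw [measureReal_def]
    exact ENNReal.toReal_pos hV0 (measure_ne_top _ _)
  have hmain : ∀ t : ℝ, 2 * Real.pi * Real.log ‖g 0‖ ≤
      N * (2 * Real.pi + K - mu.real V * t) := by
    intro t
    have hj : ∀ j, 2 * Real.pi * Real.log ‖g 0‖ ≤
        N * (2 * Real.pi + K + Real.exp t * ∫ θ in V, x j θ ∂mu - mu.real V * t) := by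
      intro j
      have hr0 : 0 < r j := by linarith [(hr j).1]
      refine (jen g hg hg0 hr0 (hr j).2).trans ?_
      have hint : Integrable (fun θ => (N : ℝ) * (x j θ + V.indicator (fun θ => Real.exp t * x j θ - t) θ)) mu := by
        refine ((hxi j).add ?_).const_mul _
        exact (((hxi j).const_mul _).sub (integrable_const _)).indicator hV
      have h1 : ∫ θ, Real.log ‖g (r j * ex θ)‖ ∂mu ≤
          ∫ θ, (N : ℝ) * (x j θ + V.indicator (fun θ => Real.exp t * x j θ - t) θ) ∂mu := by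
        refine integral_mono_ae (jen_int g hg hr0 (hr j).2) hint ?_
        filter_upwards [uni_zero_ae g hg hg0 hr0 (hr j).2] with θ hθ
        have hy : 0 < ‖g (r j * ex θ)‖ := norm_pos_iff.2 hθ
        have hxp : 0 < x j θ := by
          rcases (h0 j θ).lt_or_eq with h2 | h2
          · exact h2
          · exfalso
            have h3 := hgx j θ
            rw [← h2, zero_pow hN.ne'] at h3
            linarith
        have h2 : Real.log ‖g (r j * ex θ)‖ ≤ N * Real.log (x j θ) := by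
          rw [← Real.log_pow]
          exact Real.log_le_log hy (hgx j θ)
        have h3 : Real.log (x j θ) ≤ x j θ + V.indicator (fun θ => Real.exp t * x j θ - t) θ := by
          by_cases hθV : θ ∈ V
          · rw [Set.indicator_of_mem hθV]
            have h4 : Real.log (Real.exp t * x j θ) ≤ Real.exp t * x j θ - 1 :=
              Real.log_le_sub_one_of_pos (by positivity)
            rw [Real.log_mul (Real.exp_ne_zero t) hxp.ne', Real.log_exp] at h4
            linarith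
          · rw [Set.indicator_of_notMem hθV, add_zero]
            linarith [Real.log_le_sub_one_of_pos hxp]
        exact h2.trans (mul_le_mul_of_nonneg_left h3 (Nat.cast_nonneg N))
      refine h1.trans ?_
      rw [integral_const_mul]
      refine mul_le_mul_of_nonneg_left ?_ (Nat.cast_nonneg N)
      have hind : Integrable (V.indicator (fun θ => Real.exp t * x j θ - t)) mu :=
        (((hxi j).const_mul _).sub (integrable_const _)).indicator hV
      rw [integral_add (hxi j) hind, integral_indicator hV, integral_sub ((hxi j).const_mul _).integrableOn (integrable_const _).integrableOn,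
        integral_const_mul, setIntegral_const, smul_eq_mul]
      linarith [hx1 j]
    have hu := ui x hm h0 K hi hK V hV h
    have hl : Tendsto (fun j => (N : ℝ) * (2 * Real.pi + K + Real.exp t * ∫ θ in V, x j θ ∂mu - mu.real V * t))
        atTop (𝓝 (N * (2 * Real.pi + K + Real.exp t * 0 - mu.real V * t))) :=
      (((tendsto_const_nhds).add (hu.const_mul _)).sub tendsto_const_nhds).const_mul _
    have := ge_of_tendsto' hl hj
    simpa using this
  have hN1 : (1 : ℝ) ≤ N := by exact_mod_cast hN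
  have h1 := hmain ((2 * Real.pi + K + (|2 * Real.pi * Real.log ‖g 0‖| + 1)) / mu.real V)
  rw [mul_div_cancel₀ _ hv.ne'] at h1
  have h2 := neg_abs_le (2 * Real.pi * Real.log ‖g 0‖)
  nlinarith [abs_nonneg (2 * Real.pi * Real.log ‖g 0‖)]
-- END uni_zero
-- BEGIN uni_gen
/-- if `g` is not `0`, then `g = z^k g₁` with `g₁(0) ≠ 0`, and `‖g₁‖ ≤ 2^k ‖g‖ ≤ (2^k x)^N` on `‖z‖ ≥ 1/2` -/
theorem uni_gen (g : ℂ → ℂ) (hg : DifferentiableOn ℂ g D) (N : ℕ) (hN : 0 < N) (r : ℕ → ℝ)
    (hr : ∀ j, 1 / 2 ≤ r j ∧ r j < 1) (x : ℕ → ℝ → ℝ) (hm : ∀ j, Measurable (x j)) (h0 : ∀ j θ, 0 ≤ x j θ) (K : ℝ)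
    (hi : ∀ j, Integrable (fun θ => x j θ ^ 2) mu) (hK : ∀ j, ∫ θ, x j θ ^ 2 ∂mu ≤ K) (V : Set ℝ)
    (hV : MeasurableSet V) (hV0 : mu V ≠ 0) (h : ∀ᵐ θ ∂mu, θ ∈ V → Tendsto (fun j => x j θ) atTop (𝓝 0))
    (hgx : ∀ j θ, ‖g (r j * ex θ)‖ ≤ x j θ ^ N) : ∀ z ∈ D, g z = 0 := by
  classical
  have hD : IsOpen D := Metric.isOpen_ball
  have h0D : (0 : ℂ) ∈ D := by simp
  have han : AnalyticOnNhd ℂ g D := hg.analyticOnNhd hD
  by_cases hz : ∀ᶠ z in 𝓝 (0 : ℂ), g z = 0
  · intro z hzD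
    exact han.eqOn_zero_of_preconnected_of_eventuallyEq_zero (convex_ball (0 : ℂ) 1).isPreconnected h0D hz hzD
  · exfalso
    obtain ⟨k, f, hfa, hf0, hfe⟩ := (han 0 h0D).exists_eventuallyEq_pow_smul_nonzero_iff.2 hz
    let g1 : ℂ → ℂ := fun z => if z = 0 then f 0 else g z / z ^ k
    have hg1 : DifferentiableOn ℂ g1 D := by
      intro z hzD
      by_cases hz0 : z = 0
      · subst hz0
        have he : g1 =ᶠ[𝓝 0] f := by
          filter_upwards [hfe] with w hw
          by_cases hw0 : w = 0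
          · subst hw0
            simp [g1]
          · have : g1 w = g w / w ^ k := if_neg hw0
            rw [this, hw, sub_zero, smul_eq_mul, mul_div_cancel_left₀ _ (pow_ne_zero k hw0)]
        exact (he.differentiableAt_iff.2 hfa.differentiableAt).differentiableWithinAt
      · have he : g1 =ᶠ[𝓝 z] fun w => g w / w ^ k := by
          filter_upwards [isOpen_ne.mem_nhds hz0] with w hw
          exact if_neg hw
        have h2 : DifferentiableAt ℂ (fun w => g w / w ^ k) z :=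
          (hg.differentiableAt (hD.mem_nhds hzD)).div (by fun_prop) (pow_ne_zero k hz0)
        exact (he.differentiableAt_iff.2 h2).differentiableWithinAt
    have hC : (1 : ℝ) ≤ 2 ^ k := one_le_pow₀ (by norm_num)
    have key := uni_zero g1 hg1 N hN r hr (fun j θ => 2 ^ k * x j θ) (fun j => (hm j).const_mul _)
      (fun j θ => mul_nonneg (by positivity) (h0 j θ)) ((2 ^ k) ^ 2 * K)
      (fun j => by
        have : (fun θ => (2 ^ k * x j θ) ^ 2) = fun θ => (2 ^ k) ^ 2 * x j θ ^ 2 := by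
          funext θ; ring
        rw [this]
        exact (hi j).const_mul _)
      (fun j => by
        have : (fun θ => (2 ^ k * x j θ) ^ 2) = fun θ => (2 ^ k) ^ 2 * x j θ ^ 2 := by
          funext θ; ring
        rw [this, integral_const_mul]
        exact mul_le_mul_of_nonneg_left (hK j) (by positivity))
      V hV hV0
      (by
        filter_upwards [h] with θ hθ hθV
        have := (hθ hθV).const_mul ((2 : ℝ) ^ k)
        rwa [mul_zero] at this)
      (by
        intro j θ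
        have hr1 := (hr j).1
        have hrp : 0 < r j := by linarith
        have hn0 : (r j : ℂ) * ex θ ≠ 0 := mul_ne_zero (by exact_mod_cast hrp.ne') (ex_ne θ)
        have h1 : g1 (r j * ex θ) = g (r j * ex θ) / (r j * ex θ) ^ k := if_neg hn0
        have h2 : ‖(r j : ℂ) * ex θ‖ = r j := by
          rw [norm_mul, norm_ex, mul_one, Complex.norm_real, Real.norm_of_nonneg hrp.le]
        rw [h1, norm_div, norm_pow, h2, div_le_iff₀ (pow_pos hrp k), mul_pow]
        have h3 : (1 : ℝ) ≤ 2 ^ k * r j ^ k := by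
          rw [← mul_pow]
          exact one_le_pow₀ (by linarith)
        have h4 : (2 : ℝ) ^ k ≤ (2 ^ k) ^ N := le_self_pow₀ hC hN.ne'
        have h5 : 0 ≤ x j θ ^ N := pow_nonneg (h0 j θ) N
        have h6 : 0 < r j ^ k := pow_pos hrp k
        calc ‖g (r j * ex θ)‖ ≤ x j θ ^ N := hgx j θ
          _ ≤ (2 ^ k * r j ^ k) * x j θ ^ N := le_mul_of_one_le_left h5 h3
          _ ≤ ((2 ^ k) ^ N * r j ^ k) * x j θ ^ N := by gcongr
          _ = (2 ^ k) ^ N * x j θ ^ N * r j ^ k := by ring)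
    have : g1 0 = f 0 := if_pos rfl
    rw [this] at key
    exact hf0 key
-- END uni_gen
-- BEGIN det_le
/-- `‖det A‖ ≤ N! max^N ≤ (N ∑ ‖A_ij‖)^N` -/
theorem det_le {N : ℕ} (A : Matrix (Fin N) (Fin N) ℂ) : ‖A.det‖ ≤ (N * ∑ i, ∑ j, ‖A i j‖) ^ N := by
  have h0 : ∀ i j, ‖A i j‖ ≤ ∑ i, ∑ j, ‖A i j‖ := by
    intro i j
    have h1 : ‖A i j‖ ≤ ∑ j, ‖A i j‖ :=
      Finset.single_le_sum (f := fun j => ‖A i j‖) (fun j _ => norm_nonneg _) (Finset.mem_univ j)
    exact h1.trans (Finset.single_le_sum (f := fun i => ∑ j, ‖A i j‖)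
      (fun i _ => Finset.sum_nonneg fun j _ => norm_nonneg _) (Finset.mem_univ i))
  have h1 := Matrix.det_le (A := A) (abv := NormedField.toAbsoluteValue ℂ)
    (x := ∑ i, ∑ j, ‖A i j‖) h0
  rw [Fintype.card_fin, nsmul_eq_mul] at h1
  refine le_trans h1 ?_
  rw [mul_pow]
  refine mul_le_mul_of_nonneg_right ?_ (pow_nonneg (Finset.sum_nonneg fun i _ =>
    Finset.sum_nonneg fun j _ => norm_nonneg _) _)
  exact_mod_cast Nat.factorial_le_pow N
-- END det_le
-- BEGIN det_diff
/-- determinants of analytic functions are analytic (`Matrix.det_apply`, finite sums and products) -/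
theorem det_diff {N : ℕ} (f : Fin N → Fin N → ℂ → ℂ) (hf : ∀ i j, DifferentiableOn ℂ (f i j) D) :
    DifferentiableOn ℂ (fun z => (Matrix.of fun i j => f i j z).det) D := by
  simp only [Matrix.det_apply, Matrix.of_apply]
  refine DifferentiableOn.fun_sum fun σ _ => ?_
  refine DifferentiableOn.const_smul ?_ _
  exact DifferentiableOn.fun_finsetProd fun i _ => hf _ _
-- END det_diff
-- BEGIN uni_det
/-- `g = det`, `x j θ = ‖g(r_j e^{iθ})‖^{1/N}` (real power) for the sequence of `bv_seq`, `K` from `det_le` and `l2_bound`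
(`x ≤ N ∑ ‖a_ij(r_j e^{iθ})‖`, `(∑_{N² terms})² ≤ N² ∑ squares`); `N = 0` is impossible: the determinant is `1` -/
theorem uni_det {N : ℕ} (a : Fin N → Fin N → H) (V : Set ℝ) (hV : MeasurableSet V) (hV0 : mu V ≠ 0)
    (h : ∀ᵐ θ ∂mu, θ ∈ V → (Matrix.of fun i j => bv (a i j) θ).det = 0) :
    ∀ z ∈ D, (Matrix.of fun i j => ev (a i j) z).det = 0 := by
  classical
  rcases Nat.eq_zero_or_pos N with hN | hN
  · subst hN
    exfalso
    apply hV0
    have h1 : ∀ᵐ θ ∂mu, θ ∉ V := by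
      filter_upwards [h] with θ hθ hθV
      have := hθ hθV
      rw [Matrix.det_fin_zero] at this
      exact one_ne_zero this
    have h2 := ae_iff.1 h1
    simpa using h2
  obtain ⟨r, hr, hr1, hae⟩ := bv_seq (fun p : Fin N × Fin N => a p.1 p.2)
  let g : ℂ → ℂ := fun z => (Matrix.of fun i j => ev (a i j) z).det
  have hg : DifferentiableOn ℂ g D := det_diff (fun i j => ev (a i j)) fun i j => ev_diff (a i j)
  have hNR : (0 : ℝ) < N := by exact_mod_cast hN
  have hcont : ∀ j, Continuous fun θ : ℝ => g (r j * ex θ) := by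
    intro j
    have h1 : 0 ≤ r j := by linarith [(hr j).1]
    refine Continuous.matrix_det ?_
    refine continuous_matrix fun i l => ?_
    exact ev_r_cont (a i l) h1 (hr j).2
  let x : ℕ → ℝ → ℝ := fun j θ => ‖g (r j * ex θ)‖ ^ (1 / (N : ℝ))
  have hxc : ∀ j, Continuous (x j) := by
    intro j
    exact (hcont j).norm.rpow_const fun θ => Or.inr (by positivity)
  have hx0 : ∀ j θ, 0 ≤ x j θ := fun j θ => Real.rpow_nonneg (norm_nonneg _) _
  have hxN : ∀ j θ, x j θ ^ N = ‖g (r j * ex θ)‖ := by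
    intro j θ
    change (‖g (r j * ex θ)‖ ^ (1 / (N : ℝ))) ^ N = _
    rw [← Real.rpow_natCast, ← Real.rpow_mul (norm_nonneg _), one_div, inv_mul_cancel₀ hNR.ne', Real.rpow_one]
  have hint : ∀ f : ℝ → ℝ, Continuous f → Integrable f mu := by
    intro f hf
    have h1 := (cont_int (fun θ => ((f θ : ℝ) : ℂ)) (Complex.continuous_ofReal.comp hf)).re
    simpa using h1
  have hxi : ∀ j, Integrable (fun θ => x j θ ^ 2) mu := fun j => hint _ ((hxc j).pow 2)
  have hxle : ∀ j θ, x j θ ^ 2 ≤ ((N : ℝ) ^ 2 * (N * N)) * ∑ i, ∑ l, ‖ev (a i l) (r j * ex θ)‖ ^ 2 := by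
    intro j θ
    have h1 : x j θ ≤ N * ∑ i, ∑ l, ‖ev (a i l) (r j * ex θ)‖ := by
      have h2 := det_le (Matrix.of fun i l => ev (a i l) (r j * ex θ))
      have h3 : x j θ ^ N ≤ (N * ∑ i, ∑ l, ‖ev (a i l) (r j * ex θ)‖) ^ N := by
        rw [hxN]
        exact h2
      exact le_of_pow_le_pow_left₀ hN.ne' (by positivity) h3
    have h4 : (∑ i : Fin N, ∑ l : Fin N, ‖ev (a i l) (r j * ex θ)‖) ^ 2 ≤
        ((N : ℝ) * N) * ∑ i : Fin N, ∑ l : Fin N, ‖ev (a i l) (r j * ex θ)‖ ^ 2 := by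
      have h5 := sq_sum_le_card_mul_sum_sq (s := (Finset.univ : Finset (Fin N × Fin N)))
        (f := fun p => ‖ev (a p.1 p.2) (r j * ex θ)‖)
      rw [Fintype.sum_prod_type, Fintype.sum_prod_type] at h5
      simpa using h5
    calc x j θ ^ 2 ≤ (N * ∑ i, ∑ l, ‖ev (a i l) (r j * ex θ)‖) ^ 2 := pow_le_pow_left₀ (hx0 j θ) h1 2
      _ = (N : ℝ) ^ 2 * (∑ i, ∑ l, ‖ev (a i l) (r j * ex θ)‖) ^ 2 := by ring
      _ ≤ (N : ℝ) ^ 2 * (((N : ℝ) * N) * ∑ i, ∑ l, ‖ev (a i l) (r j * ex θ)‖ ^ 2) := by gcongr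
      _ = _ := by ring
  have hei : ∀ j (i l : Fin N), Integrable (fun θ => ‖ev (a i l) (r j * ex θ)‖ ^ 2) mu := by
    intro j i l
    exact hint _ ((ev_r_cont (a i l) (by linarith [(hr j).1]) (hr j).2).norm.pow 2)
  have hxK : ∀ j, ∫ θ, x j θ ^ 2 ∂mu ≤ ((N : ℝ) ^ 2 * (N * N)) * ∑ i, ∑ l, 2 * Real.pi * ‖a i l‖ ^ 2 := by
    intro j
    have h1 : ∫ θ, x j θ ^ 2 ∂mu ≤ ∫ θ, ((N : ℝ) ^ 2 * (N * N)) * ∑ i, ∑ l, ‖ev (a i l) (r j * ex θ)‖ ^ 2 ∂mu := by
      refine integral_mono (hxi j) ?_ (hxle j)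
      exact (integrable_finsetSum _ fun i _ => integrable_finsetSum _ fun l _ => hei j i l).const_mul _
    refine h1.trans ?_
    rw [integral_const_mul, integral_finsetSum _ (fun i _ => integrable_finsetSum _ fun l _ => hei j i l)]
    refine mul_le_mul_of_nonneg_left ?_ (by positivity)
    refine Finset.sum_le_sum fun i _ => ?_
    rw [integral_finsetSum _ (fun l _ => hei j i l)]
    exact Finset.sum_le_sum fun l _ => l2_bound (a i l) (by linarith [(hr j).1]) (hr j).2
  refine uni_gen g hg N hN r hr x (fun j => (hxc j).measurable) hx0 _ hxi hxK V hV hV0 ?_ fun j θ => (hxN j θ).ge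
  filter_upwards [h, hae] with θ h1 h2 hθV
  have h3 : Tendsto (fun j => g (r j * ex θ)) atTop (𝓝 ((Matrix.of fun i j => bv (a i j) θ).det)) := by
    have h4 : Tendsto (fun j => (Matrix.of fun i l => ev (a i l) (r j * ex θ) : Matrix (Fin N) (Fin N) ℂ)) atTop
        (𝓝 (Matrix.of fun i l => bv (a i l) θ)) := by
      refine tendsto_pi_nhds.2 fun i => tendsto_pi_nhds.2 fun l => ?_
      exact h2 (i, l)
    exact ((continuous_id.matrix_det).tendsto _).comp h4
  rw [h1 hθV] at h3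
  have h5 := (h3.norm).rpow_const (p := 1 / (N : ℝ)) (Or.inr (by positivity))
  rw [norm_zero, Real.zero_rpow (by positivity)] at h5
  exact h5
-- END uni_det
end Nrd
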